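import Mathlib

/-!
# The group `Γ` and its automorphisms
-/

open Matrix

namespace Pool.Agent.H819R2

/-- the monodromy -/
def A2 : Matrix.SpecialLinearGroup (Fin 2) ℤ := ⟨!![37, 12; 3, 1], by decide⟩

/-- The ambient group: `(u, k, l)` acts on `R^2 × R × R` by `(v, z, t) ↦ (A^k v + u, z + k, t + l)`. -/
@[ext] structure G4 where
  /-- translation part -/
  u : Fin 2 → ℤ
  /-- power of the monodromy -/
  k : ℤ
  /-- shift of the last coordinate -/
  l : ℤ

namespace G4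

instance : Mul G4 := ⟨fun g h => ⟨g.u + (A2 ^ g.k).1 *ᵥ h.u, g.k + h.k, g.l + h.l⟩⟩
instance : One G4 := ⟨⟨0, 0, 0⟩⟩
instance : Inv G4 := ⟨fun g => ⟨-((A2 ^ (-g.k)).1 *ᵥ g.u), -g.k, -g.l⟩⟩

@[simp] lemma mul_u (g h : G4) : (g * h).u = g.u + (A2 ^ g.k).1 *ᵥ h.u := rfl
@[simp] lemma mul_k (g h : G4) : (g * h).k = g.k + h.k := rfl
@[simp] lemma mul_l (g h : G4) : (g * h).l = g.l + h.l := rfl
@[simp] lemma one_u : (1 : G4).u = 0 := rfl
@[simp] lemma one_k : (1 : G4).k = 0 := rfl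
@[simp] lemma one_l : (1 : G4).l = 0 := rfl
@[simp] lemma inv_u (g : G4) : (g⁻¹).u = -((A2 ^ (-g.k)).1 *ᵥ g.u) := rfl
@[simp] lemma inv_k (g : G4) : (g⁻¹).k = -g.k := rfl
@[simp] lemma inv_l (g : G4) : (g⁻¹).l = -g.l := rfl

lemma pow_add_mulVec (m n : ℤ) (v : Fin 2 → ℤ) :
    (A2 ^ (m + n)).1 *ᵥ v = (A2 ^ m).1 *ᵥ ((A2 ^ n).1 *ᵥ v) := by
  rw [Matrix.mulVec_mulVec, _root_.zpow_add]
  rfl

instance : Group G4 := Group.ofLeftAxioms
  (by
    intro g h m
    ext1
    · simp only [mul_u, mul_k, Matrix.mulVec_add, pow_add_mulVec]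
      rw [add_assoc]
    · simp [add_assoc]
    · simp [add_assoc])
  (by
    intro g
    ext1
    · simp
    · simp
    · simp)
  (by
    intro g
    ext1
    · simp only [mul_u, inv_u, inv_k, one_u]; abel
    · simp
    · simp)

/-- the homomorphism `k` -/
def kHom : G4 →* Multiplicative ℤ where
  toFun g := Multiplicative.ofAdd g.k
  map_one' := rfl
  map_mul' _ _ := rfl

/-- the homomorphism `l` -/
def lHom : G4 →* Multiplicative ℤ where
  toFun g := Multiplicative.ofAdd g.l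
  map_one' := rfl
  map_mul' _ _ := rfl

end G4

lemma A2_mod3 (k : ℤ) (i j : Fin 2) : (3 : ℤ) ∣ (A2 ^ k).1 i j - (1 : Matrix (Fin 2) (Fin 2) ℤ) i j := by
  have h1 : Matrix.SpecialLinearGroup.map (Int.castRingHom (ZMod 3)) A2 = 1 := by
    ext i j
    fin_cases i <;> fin_cases j <;> decide
  have h2 : Matrix.SpecialLinearGroup.map (Int.castRingHom (ZMod 3)) (A2 ^ k) = 1 := by
    rw [map_zpow, h1, _root_.one_zpow]
  have h3 := congrArg (fun M : Matrix.SpecialLinearGroup (Fin 2) (ZMod 3) => M.1 i j) h2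
  simp only [Matrix.SpecialLinearGroup.map_apply_coe, RingHom.mapMatrix_apply, Matrix.map_apply,
    Int.coe_castRingHom, Matrix.SpecialLinearGroup.coe_one] at h3
  have h4 : (((A2 ^ k).1 i j - (1 : Matrix (Fin 2) (Fin 2) ℤ) i j : ℤ) : ZMod 3) = 0 := by
    push_cast
    rw [h3]
    fin_cases i <;> fin_cases j <;> simp
  exact (ZMod.intCast_zmod_eq_zero_iff_dvd _ 3).mp h4

lemma A2_mulVec_mod3 (k : ℤ) (v : Fin 2 → ℤ) (i : Fin 2) : (3 : ℤ) ∣ ((A2 ^ k).1 *ᵥ v) i - v i := by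
  have h : ((A2 ^ k).1 *ᵥ v) i - v i = ∑ j, ((A2 ^ k).1 i j - (1 : Matrix (Fin 2) (Fin 2) ℤ) i j) * v j := by
    simp only [sub_mul, Finset.sum_sub_distrib]
    have : ∑ j, (1 : Matrix (Fin 2) (Fin 2) ℤ) i j * v j = v i := by
      have := congrFun (Matrix.one_mulVec v) i
      exact this
    rw [this]; rfl
  rw [h]
  exact Finset.dvd_sum fun j _ => Dvd.dvd.mul_right (A2_mod3 k i j) _

/-- The group `Γ`. -/
def Gam : Subgroup G4 where
  carrier := {g | ∀ i, (3 : ℤ) ∣ g.u i - g.l}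
  one_mem' := by intro i; simp
  mul_mem' := by
    intro g h hg hh i
    have h1 := hg i
    have h2 := hh i
    have h3 := A2_mulVec_mod3 g.k h.u i
    have : (g * h).u i - (g * h).l = (g.u i - g.l) + (h.u i - h.l) +
        (((A2 ^ g.k).1 *ᵥ h.u) i - h.u i) := by
      simp only [G4.mul_u, G4.mul_l, Pi.add_apply]; ring
    rw [this]
    exact (h1.add h2).add h3
  inv_mem' := by
    intro g hg i
    have h1 := hg i
    have h3 := A2_mulVec_mod3 (-g.k) g.u i
    have : (g⁻¹).u i - (g⁻¹).l = - (g.u i - g.l) - (((A2 ^ (-g.k)).1 *ᵥ g.u) i - g.u i) := by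
      simp only [G4.inv_u, G4.inv_l, Pi.neg_apply]; ring
    rw [this]
    exact h1.neg_right.sub h3

lemma mem_Gam {g : G4} : g ∈ Gam ↔ ∀ i, (3 : ℤ) ∣ g.u i - g.l := Iff.rfl

/-- translations -/
def tr (v : Fin 2 → ℤ) : G4 := ⟨v, 0, 0⟩

@[simp] lemma tr_u (v : Fin 2 → ℤ) : (tr v).u = v := rfl
@[simp] lemma tr_k (v : Fin 2 → ℤ) : (tr v).k = 0 := rfl
@[simp] lemma tr_l (v : Fin 2 → ℤ) : (tr v).l = 0 := rfl

lemma tr_add (v w : Fin 2 → ℤ) : tr (v + w) = tr v * tr w := by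
  ext1 <;> simp

lemma tr_zero : tr 0 = 1 := rfl

lemma tr_neg (v : Fin 2 → ℤ) : tr (-v) = (tr v)⁻¹ := by
  rw [eq_inv_iff_mul_eq_one, ← tr_add]; simp [tr_zero]

lemma conj_tr (g : G4) (v : Fin 2 → ℤ) : g * tr v * g⁻¹ = tr ((A2 ^ g.k).1 *ᵥ v) := by
  rw [mul_inv_eq_iff_eq_mul]
  ext1
  · simp [add_comm]
  · simp
  · simp

lemma eq_tr {g : G4} (hk : g.k = 0) (hl : g.l = 0) : g = tr g.u := by
  ext1 <;> simp [hk, hl]

lemma tr_nsmul (n : ℕ) (v : Fin 2 → ℤ) : tr (n • v) = tr v ^ n := by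
  induction n with
  | zero => simp [tr_zero]
  | succ n ih => rw [succ_nsmul, tr_add, ih, pow_succ]

/-- the generator `a` -/
def ga : Gam := ⟨⟨0, 1, 0⟩, by intro i; simp⟩

/-- the generator `b` -/
def gb : Gam := ⟨⟨fun _ => 1, 0, 1⟩, by intro i; simp⟩

/-- `Γ`-elements in the translation lattice -/
def gt (v : Fin 2 → ℤ) : Gam := ⟨tr (3 • v), by intro i; simp⟩

lemma gt_val (v : Fin 2 → ℤ) : (gt v : G4) = tr (3 • v) := rfl

lemma gt_add (v w : Fin 2 → ℤ) : gt (v + w) = gt v * gt w := by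
  apply Subtype.ext
  rw [Subgroup.coe_mul, gt_val, gt_val, gt_val, smul_add, tr_add]

lemma gt_zero : gt 0 = 1 := by
  apply Subtype.ext
  rw [gt_val, smul_zero, tr_zero]; rfl

lemma gt_neg (v : Fin 2 → ℤ) : gt (-v) = (gt v)⁻¹ := by
  rw [eq_inv_iff_mul_eq_one, ← gt_add]; simp [gt_zero]

lemma gt_zsmul (n : ℤ) (v : Fin 2 → ℤ) : gt (n • v) = gt v ^ n := by
  have hn : ∀ n : ℕ, gt ((n : ℤ) • v) = gt v ^ (n : ℤ) := by
    intro n
    induction n with
    | zero => simp [gt_zero]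
    | succ n ih =>
      rw [Nat.cast_succ, add_smul, one_smul, gt_add, ih, _root_.zpow_add, zpow_one]
  rcases Int.eq_nat_or_neg n with ⟨m, rfl | rfl⟩
  · exact hn m
  · rw [neg_smul, gt_neg, hn, _root_.zpow_neg]

lemma gt_injective {v w : Fin 2 → ℤ} (h : gt v = gt w) : v = w := by
  have h1 := congrArg (fun g : Gam => (g : G4).u) h
  simp only [gt_val, tr_u] at h1
  funext i
  have h2 := congrFun h1 i
  simp only [Pi.smul_apply, smul_eq_mul] at h2
  have : (3 : ℤ) * v i = 3 * w i := by simpa using h2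
  linarith

/-- elements of `Γ` with vanishing `k` and `l` are lattice translations -/
lemma exists_gt {g : Gam} (hk : (g : G4).k = 0) (hl : (g : G4).l = 0) : ∃ v, g = gt v := by
  have h := mem_Gam.mp g.2
  rw [hl] at h
  choose v hv using h
  refine ⟨v, ?_⟩
  apply Subtype.ext
  rw [eq_tr hk hl, gt_val]
  congr 1
  funext i
  have := hv i
  simp only [sub_zero] at this
  simp [this]

lemma conj_gt (g : Gam) (v : Fin 2 → ℤ) : g * gt v * g⁻¹ = gt ((A2 ^ (g : G4).k).1 *ᵥ v) := by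
  apply Subtype.ext
  rw [Subgroup.coe_mul, Subgroup.coe_mul, Subgroup.coe_inv, gt_val, gt_val, conj_tr]
  congr 1
  rw [Matrix.mulVec_smul]

/-- an automorphism preserves the translation lattice -/
lemma aut_gt (θ : Gam ≃* Gam) (v : Fin 2 → ℤ) : ∃ w, θ (gt v) = gt w := by
  -- `gt v ^ 36` is a commutator
  let adj : Fin 2 → ℤ := ![12 * v 1, 3 * v 0 - 36 * v 1]
  have h1 : ga * gt adj * ga⁻¹ * (gt adj)⁻¹ = gt v ^ (36 : ℤ) := by
    rw [conj_gt, ← gt_neg, ← gt_add, ← gt_zsmul]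
    congr 1
    funext i
    have hA : (A2 ^ ((ga : Gam) : G4).k).1 = !![37, 12; 3, 1] := by
      have : ((ga : Gam) : G4).k = 1 := rfl
      rw [this, zpow_one]; rfl
    rw [hA]
    fin_cases i <;> simp [adj, Matrix.mulVec, dotProduct, Fin.sum_univ_two] <;> ring
  have h2 : ∀ f : G4 →* Multiplicative ℤ, f (θ (gt v) : G4) = 1 := by
    intro f
    have h3 := congrArg (fun g : Gam => f (θ g : G4)) h1
    simp only [map_mul, map_inv, map_zpow, Subgroup.coe_mul, Subgroup.coe_inv,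
      SubgroupClass.coe_zpow] at h3
    rw [mul_comm (f _) (f _), mul_assoc (f _) (f _), mul_inv_cancel, mul_one, mul_inv_cancel] at h3
    have h4 : (36 : ℤ) * Multiplicative.toAdd (f (θ (gt v) : G4)) = 0 := by
      have := congrArg Multiplicative.toAdd h3
      simpa [toAdd_zpow] using this.symm
    have h5 : Multiplicative.toAdd (f (θ (gt v) : G4)) = 0 := by omega
    exact Multiplicative.toAdd.injective (by simpa using h5)
  apply exists_gt
  · have := h2 G4.kHom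
    exact congrArg Multiplicative.toAdd this
  · have := h2 G4.lHom
    exact congrArg Multiplicative.toAdd this

/-- the matrix of an automorphism on the translation lattice -/
lemma aut_matrix (θ : Gam ≃* Gam) : ∃ C : Matrix (Fin 2) (Fin 2) ℤ, ∀ v, θ (gt v) = gt (C *ᵥ v) := by
  obtain ⟨c0, h0⟩ := aut_gt θ ![1, 0]
  obtain ⟨c1, h1⟩ := aut_gt θ ![0, 1]
  refine ⟨!![c0 0, c1 0; c0 1, c1 1], fun v => ?_⟩
  have hv : v = v 0 • ![1, 0] + v 1 • ![0, 1] := by
    funext i; fin_cases i <;> simp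
  conv_lhs => rw [hv]
  rw [gt_add, gt_zsmul, gt_zsmul, map_mul, map_zpow, map_zpow, h0, h1, ← gt_zsmul, ← gt_zsmul,
    ← gt_add]
  congr 1
  funext i
  fin_cases i <;> simp [Matrix.mulVec, dotProduct, Fin.sum_univ_two] <;> ring

lemma ga_k : (ga : G4).k = 1 := rfl
lemma gb_k : (gb : G4).k = 0 := rfl
lemma ga_l : (ga : G4).l = 0 := rfl
lemma gb_l : (gb : G4).l = 1 := rfl

lemma zpow_k (g : Gam) (n : ℤ) : ((g ^ n : Gam) : G4).k = n * (g : G4).k := by
  have := map_zpow G4.kHom (g : G4) n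
  have h := congrArg Multiplicative.toAdd this
  simpa [G4.kHom, toAdd_zpow] using h

lemma zpow_l (g : Gam) (n : ℤ) : ((g ^ n : Gam) : G4).l = n * (g : G4).l := by
  have := map_zpow G4.lHom (g : G4) n
  have h := congrArg Multiplicative.toAdd this
  simpa [G4.lHom, toAdd_zpow] using h

/-- decomposition of an element of `Γ` -/
lemma decomp (g : Gam) : ∃ v, g = gt v * gb ^ (g : G4).l * ga ^ (g : G4).k := by
  obtain ⟨v, hv⟩ := exists_gt (g := g * (gb ^ (g : G4).l * ga ^ (g : G4).k)⁻¹) (by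
    rw [Subgroup.coe_mul, Subgroup.coe_inv, Subgroup.coe_mul, G4.mul_k, G4.inv_k, G4.mul_k, zpow_k,
      zpow_k, ga_k, gb_k]; ring) (by
    rw [Subgroup.coe_mul, Subgroup.coe_inv, Subgroup.coe_mul, G4.mul_l, G4.inv_l, G4.mul_l, zpow_l,
      zpow_l, ga_l, gb_l]; ring)
  refine ⟨v, ?_⟩
  rw [mul_assoc, ← hv, inv_mul_cancel_right]

lemma A2_zpow_one : (A2 ^ (1 : ℤ)).1 = !![37, 12; 3, 1] := by
  rw [zpow_one]; rfl

lemma A2_zpow_neg_one : (A2 ^ (-1 : ℤ)).1 = !![1, -12; -3, 37] := by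
  rw [_root_.zpow_neg, zpow_one, Matrix.SpecialLinearGroup.coe_inv]
  change Matrix.adjugate !![37, 12; 3, 1] = _
  rw [Matrix.adjugate_fin_two_of]

lemma aut_det (θ : Gam ≃* Gam) {C : Matrix (Fin 2) (Fin 2) ℤ}
    (hC : ∀ v, θ (gt v) = gt (C *ᵥ v)) : C.det = 1 := by
  obtain ⟨C', hC'⟩ := aut_matrix θ.symm
  have hCC : ∀ v, C' *ᵥ (C *ᵥ v) = v := by
    intro v
    apply gt_injective
    rw [← hC', ← hC, MulEquiv.symm_apply_apply]
  have hCC1 : C' * C = 1 := by
    apply Matrix.ext_of_mulVec_single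
    intro i
    rw [← Matrix.mulVec_mulVec, hCC, Matrix.one_mulVec]
  have hdet : C'.det * C.det = 1 := by rw [← Matrix.det_mul, hCC1, Matrix.det_one]
  have hdet2 : C.det = 1 ∨ C.det = -1 :=
    Int.eq_one_or_neg_one_of_mul_eq_one' hdet |>.elim (fun h => Or.inl h.2) (fun h => Or.inr h.2)
  rcases hdet2 with h | hdm
  · exact h
  exfalso
  -- the images of the generators
  set P := θ ga with hP
  set Q := θ gb with hQ
  have hθl : ∀ v, ((θ (gt v) : Gam) : G4).l = 0 := fun v => by rw [hC]; rfl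
  have hθk : ∀ v, ((θ (gt v) : Gam) : G4).k = 0 := fun v => by rw [hC]; rfl
  -- conjugation relations
  have r1 : ∀ v, (A2 ^ (P : G4).k).1 *ᵥ (C *ᵥ v) = C *ᵥ ((A2 ^ (1 : ℤ)).1 *ᵥ v) := by
    intro v
    have h1 := congrArg θ (conj_gt ga v)
    rw [map_mul, map_mul, map_inv, hC, hC, ← hP, conj_gt, ga_k] at h1
    exact gt_injective h1
  have r2 : ∀ v, (A2 ^ (Q : G4).k).1 *ᵥ (C *ᵥ v) = C *ᵥ v := by
    intro v
    have h1 := congrArg θ (conj_gt gb v)
    rw [map_mul, map_mul, map_inv, hC, hC, ← hQ, conj_gt, gb_k, zpow_zero] at h1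
    have h2 := gt_injective h1
    rw [h2]
    congr 1
    exact Matrix.one_mulVec v
  -- `l` and `k` of the image of a general element
  have hk : ∀ g : Gam, ((θ g : Gam) : G4).k = (g : G4).l * (Q : G4).k + (g : G4).k * (P : G4).k := by
    intro g
    obtain ⟨v, hv⟩ := decomp g
    have := congrArg (fun x : Gam => ((θ x : Gam) : G4).k) hv
    simp only [map_mul, map_zpow, Subgroup.coe_mul, G4.mul_k] at this
    rw [this, hθk, ← hP, ← hQ, zpow_k, zpow_k]; ring
  have hl : ∀ g : Gam, ((θ g : Gam) : G4).l = (g : G4).l * (Q : G4).l + (g : G4).k * (P : G4).l := by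
    intro g
    obtain ⟨v, hv⟩ := decomp g
    have := congrArg (fun x : Gam => ((θ x : Gam) : G4).l) hv
    simp only [map_mul, map_zpow, Subgroup.coe_mul, G4.mul_l] at this
    rw [this, hθl, ← hP, ← hQ, zpow_l, zpow_l]; ring
  -- `Q.k = 0`
  have hQk : (Q : G4).k = 0 := by
    by_contra hne
    have hAk : (A2 ^ (Q : G4).k).1 = 1 := by
      apply Matrix.ext_of_mulVec_single
      intro i
      have h3 : C *ᵥ (C.adjugate *ᵥ Pi.single i 1) = - (Pi.single i 1 : Fin 2 → ℤ) := by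
        rw [Matrix.mulVec_mulVec, Matrix.mul_adjugate, hdm, neg_one_smul, Matrix.neg_mulVec,
          Matrix.one_mulVec]
      have := r2 (C.adjugate *ᵥ Pi.single i 1)
      rw [h3, Matrix.mulVec_neg] at this
      rw [Matrix.one_mulVec]
      exact neg_injective this
    have hpos : ∀ n : ℕ, 1 ≤ (A2 ^ n).1 0 0 ∧ 0 ≤ (A2 ^ n).1 0 1 ∧ 0 ≤ (A2 ^ n).1 1 0 ∧
        1 ≤ (A2 ^ n).1 1 1 ∧ (0 < n → 1 ≤ (A2 ^ n).1 1 0) := by
      intro n
      induction n with
      | zero => simp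
      | succ n ih =>
        obtain ⟨h1, h2, h3, h4, -⟩ := ih
        have e : (A2 ^ (n + 1)).1 = (A2 ^ n).1 * !![37, 12; 3, 1] := by
          rw [pow_succ]; rfl
        rw [e]
        generalize (A2 ^ n).1 = M at h1 h2 h3 h4
        simp [Matrix.mul_apply, Fin.sum_univ_two]
        refine ⟨by linarith, by linarith, by linarith, by linarith, by linarith⟩
    have h1 : ∃ n : ℕ, 0 < n ∧ (A2 ^ n).1 = 1 := by
      rcases Int.eq_nat_or_neg (Q : G4).k with ⟨m, hm | hm⟩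
      · refine ⟨m, by omega, ?_⟩
        rw [hm, zpow_natCast] at hAk
        exact hAk
      · refine ⟨m, by omega, ?_⟩
        rw [hm, _root_.zpow_neg, zpow_natCast] at hAk
        have h5 : (A2 ^ m)⁻¹ = 1 := Subtype.ext hAk
        rw [inv_eq_one] at h5
        rw [h5]; rfl
    obtain ⟨n, hn, hn1⟩ := h1
    have := (hpos n).2.2.2.2 hn
    rw [hn1] at this
    simp at this
  -- `P.k = ±1`
  have hPk : (P : G4).k = 1 ∨ (P : G4).k = -1 := by
    have := hk (θ.symm ga)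
    rw [MulEquiv.apply_symm_apply, hQk, ga_k] at this
    have h1 : ((θ.symm ga : Gam) : G4).k * (P : G4).k = 1 := by linarith
    rcases Int.eq_one_or_neg_one_of_mul_eq_one' h1 with h | h
    · exact Or.inl h.2
    · exact Or.inr h.2
  have hPk0 : (P : G4).k ≠ 0 := by rcases hPk with h | h <;> rw [h] <;> norm_num
  have hQl : (Q : G4).l = 1 ∨ (Q : G4).l = -1 := by
    have e1 := hk (θ.symm gb)
    rw [MulEquiv.apply_symm_apply, hQk, gb_k] at e1
    have e2 : ((θ.symm gb : Gam) : G4).k = 0 := by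
      have : ((θ.symm gb : Gam) : G4).k * (P : G4).k = 0 := by linarith
      rcases mul_eq_zero.mp this with h | h
      · exact h
      · exact absurd h hPk0
    have e3 := hl (θ.symm gb)
    rw [MulEquiv.apply_symm_apply, gb_l, e2] at e3
    have h1 : ((θ.symm gb : Gam) : G4).l * (Q : G4).l = 1 := by linarith
    rcases Int.eq_one_or_neg_one_of_mul_eq_one' h1 with h | h
    · exact Or.inl h.2
    · exact Or.inr h.2
  -- the commutator relation
  have hcomm : (3 : ℤ) • (C *ᵥ ![16, 1]) = (A2 ^ (P : G4).k).1 *ᵥ (Q : G4).u - (Q : G4).u := by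
    have h1 : ga * gb = gt ![16, 1] * (gb * ga) := by
      apply Subtype.ext
      simp only [Subgroup.coe_mul]
      ext1
      · funext i
        simp only [G4.mul_u, ga_k, gb_k, gt_val, tr_k, tr_u, A2_zpow_one, G4.mul_k]
        fin_cases i <;> simp [ga, gb, Matrix.mulVec, dotProduct, Fin.sum_univ_two]
      · simp [gt_val, ga_k, gb_k]
      · simp [gt_val, ga_l, gb_l]
    have h2 := congrArg (fun x : Gam => ((θ x : Gam) : G4).u) h1
    simp only [map_mul, Subgroup.coe_mul, G4.mul_u, hC, ← hP, ← hQ, hQk, gt_val, tr_u, tr_k,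
      zpow_zero] at h2
    have h3 : ∀ v : Fin 2 → ℤ, ((1 : Matrix.SpecialLinearGroup (Fin 2) ℤ).1) *ᵥ v = v :=
      fun v => Matrix.one_mulVec v
    rw [h3, h3] at h2
    rw [eq_sub_iff_add_eq]
    have h4 : (P : G4).u + (3 • (C *ᵥ ![16, 1]) + (Q : G4).u) =
        (P : G4).u + (A2 ^ (P : G4).k).1 *ᵥ (Q : G4).u := by
      rw [h2]; abel
    have h5 := add_left_cancel h4
    have h6 : (3 : ℤ) • (C *ᵥ ![16, 1]) = 3 • (C *ᵥ ![16, 1]) := by
      funext i; simp
    rw [h6]; exact h5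
  -- congruences
  have hQ0 := mem_Gam.mp Q.2 0
  have hQ1 := mem_Gam.mp Q.2 1
  have hdet' : C 0 0 * C 1 1 - C 0 1 * C 1 0 = -1 := by rw [← Matrix.det_fin_two]; exact hdm
  set p := C 0 0
  set q := C 0 1
  set r := C 1 0
  set s := C 1 1
  have c0 := congrFun hcomm 0
  have c1 := congrFun hcomm 1
  have a0 := congrFun (r1 ![1, 0]) 0
  have a1 := congrFun (r1 ![1, 0]) 1
  have b0 := congrFun (r1 ![0, 1]) 0
  have b1 := congrFun (r1 ![0, 1]) 1
  rcases hPk with hδ | hδ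
  · rw [hδ, A2_zpow_one] at c0 c1 a0 a1 b0 b1
    simp [Matrix.mulVec, dotProduct, Fin.sum_univ_two] at c0 c1 a0 a1 b0 b1
    -- `q = 4 r`, `p = s + 12 r`
    have hq : q = 4 * r := by linarith
    have hp : p = s + 12 * r := by linarith
    rw [hq, hp] at hdet'
    have h4 : (s * s) % 4 = 3 := by
      have : s * s = -1 + 4 * (r * r - 3 * (r * s)) := by linarith
      omega
    have : s % 4 = 0 ∨ s % 4 = 1 ∨ s % 4 = 2 ∨ s % 4 = 3 := by omega
    rcases this with h | h | h | h <;> simp [Int.mul_emod, h] at h4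
  · rw [hδ, A2_zpow_neg_one] at c0 c1 
    rw [hδ, A2_zpow_neg_one, A2_zpow_one] at a0 a1 b0 b1
    simp [Matrix.mulVec, dotProduct, Fin.sum_univ_two] at c0 c1 a0 a1 b0 b1
    rcases hQl with hε | hε <;> rw [hε] at hQ0 hQ1 <;> omega

end Pool.Agent.H819R2
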