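import Mathlib
import Pool.Agent.H819R2.Alg

/-!
# The action of `Γ` on `R^4`
-/

open Matrix Set
open scoped ContDiff

namespace Pool.Agent.H819R2

/-- Euclidean four-space -/
abbrev E4 : Type := EuclideanSpace ℝ (Fin 4)

/-- the real matrix of the `k`-th power of the monodromy -/
noncomputable def AR (k : ℤ) (i j : Fin 2) : ℝ := (((A2 ^ k).1 i j : ℤ) : ℝ)

lemma AR_zero (i j : Fin 2) : AR 0 i j = (1 : Matrix (Fin 2) (Fin 2) ℝ) i j := by
  unfold AR
  rw [zpow_zero]
  fin_cases i <;> fin_cases j <;> simp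

lemma AR_add (m n : ℤ) (i j : Fin 2) :
    AR (m + n) i j = AR m i 0 * AR n 0 j + AR m i 1 * AR n 1 j := by
  unfold AR
  rw [_root_.zpow_add]
  have : (A2 ^ m * A2 ^ n).1 i j = (A2 ^ m).1 i 0 * (A2 ^ n).1 0 j + (A2 ^ m).1 i 1 * (A2 ^ n).1 1 j := by
    change ((A2 ^ m).1 * (A2 ^ n).1) i j = _
    rw [Matrix.mul_apply, Fin.sum_univ_two]
  rw [this]; push_cast; ring

lemma AR_det (k : ℤ) : AR k 0 0 * AR k 1 1 - AR k 0 1 * AR k 1 0 = 1 := by
  unfold AR
  have h := (A2 ^ k).2
  rw [Matrix.det_fin_two] at h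
  exact_mod_cast h

lemma mulVec_cast (k : ℤ) (u : Fin 2 → ℤ) (i : Fin 2) :
    ((((A2 ^ k).1 *ᵥ u) i : ℤ) : ℝ) = AR k i 0 * u 0 + AR k i 1 * u 1 := by
  unfold AR
  simp [Matrix.mulVec, dotProduct, Fin.sum_univ_two]

/-- the linear part of the action -/
noncomputable def linE (k : ℤ) (v : E4) : E4 :=
  !₂[AR k 0 0 * v 0 + AR k 0 1 * v 1, AR k 1 0 * v 0 + AR k 1 1 * v 1, v 2, v 3]

/-- the translation part of the action -/
noncomputable def transE (g : G4) : E4 := !₂[(g.u 0 : ℝ), (g.u 1 : ℝ), (g.k : ℝ), (g.l : ℝ)]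

@[simp] lemma linE_0 (k : ℤ) (v : E4) : linE k v 0 = AR k 0 0 * v 0 + AR k 0 1 * v 1 := rfl
@[simp] lemma linE_1 (k : ℤ) (v : E4) : linE k v 1 = AR k 1 0 * v 0 + AR k 1 1 * v 1 := rfl
@[simp] lemma linE_2 (k : ℤ) (v : E4) : linE k v 2 = v 2 := rfl
@[simp] lemma linE_3 (k : ℤ) (v : E4) : linE k v 3 = v 3 := rfl
@[simp] lemma transE_0 (g : G4) : transE g 0 = g.u 0 := rfl
@[simp] lemma transE_1 (g : G4) : transE g 1 = g.u 1 := rfl
@[simp] lemma transE_2 (g : G4) : transE g 2 = g.k := rfl
@[simp] lemma transE_3 (g : G4) : transE g 3 = g.l := rfl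

lemma E4_ext {v w : E4} (h0 : v 0 = w 0) (h1 : v 1 = w 1) (h2 : v 2 = w 2) (h3 : v 3 = w 3) :
    v = w := by
  ext i
  fin_cases i
  · exact h0
  · exact h1
  · exact h2
  · exact h3

noncomputable instance : MulAction G4 E4 where
  smul g v := linE g.k v + transE g
  one_smul v := by
    change linE (1 : G4).k v + transE 1 = v
    apply E4_ext <;> simp [AR_zero]
  mul_smul g h v := by
    change linE (g * h).k v + transE (g * h) = linE g.k (linE h.k v + transE h) + transE g
    apply E4_ext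
    · simp only [PiLp.add_apply, linE_0, linE_1, transE_0, transE_1, G4.mul_k, G4.mul_u, AR_add,
        Pi.add_apply, Int.cast_add, mulVec_cast]
      ring
    · simp only [PiLp.add_apply, linE_0, linE_1, transE_0, transE_1, G4.mul_k, G4.mul_u, AR_add,
        Pi.add_apply, Int.cast_add, mulVec_cast]
      ring
    · simp only [PiLp.add_apply, linE_2, transE_2, G4.mul_k, Int.cast_add]
      ring
    · simp only [PiLp.add_apply, linE_3, transE_3, G4.mul_l, Int.cast_add]
      ring

lemma smul_def (g : G4) (v : E4) : g • v = linE g.k v + transE g := rfl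

lemma smul_def' (g : Gam) (v : E4) : g • v = linE (g : G4).k v + transE (g : G4) := rfl

/-- the linear part as a continuous linear map -/
noncomputable def linL (k : ℤ) : E4 →L[ℝ] E4 :=
  LinearMap.toContinuousLinearMap
    { toFun := linE k
      map_add' := by
        intro v w
        apply E4_ext <;> simp <;> ring
      map_smul' := by
        intro c v
        apply E4_ext <;> simp <;> ring }

@[simp] lemma linL_apply (k : ℤ) (v : E4) : linL k v = linE k v := rfl

lemma hasFDerivAt_smul (g : G4) (v : E4) : HasFDerivAt (fun v : E4 => g • v) (linL g.k) v := by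
  have : (fun v : E4 => g • v) = fun v => linL g.k v + transE g := rfl
  rw [this]
  exact (linL g.k).hasFDerivAt.add_const _

lemma contDiff_smul (g : G4) : ContDiff ℝ ∞ (fun v : E4 => g • v) := by
  have : (fun v : E4 => g • v) = fun v => linL g.k v + transE g := rfl
  rw [this]
  exact (linL g.k).contDiff.add contDiff_const

instance : ContinuousConstSMul G4 E4 := ⟨fun g => (contDiff_smul g).continuous⟩

instance : ContinuousConstSMul Gam E4 := ⟨fun g => (contDiff_smul (g : G4)).continuous⟩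

lemma free_smul {g h : G4} {v : E4} (e : g • v = h • v) : g = h := by
  have e0 := congrArg (fun w : E4 => w 0) e
  have e1 := congrArg (fun w : E4 => w 1) e
  have e2 := congrArg (fun w : E4 => w 2) e
  have e3 := congrArg (fun w : E4 => w 3) e
  simp only [smul_def, PiLp.add_apply, linE_0, linE_1, linE_2, linE_3, transE_0, transE_1, transE_2,
    transE_3, add_right_inj, Int.cast_inj] at e0 e1 e2 e3
  rw [e2] at e0 e1
  simp only [add_right_inj, Int.cast_inj] at e0 e1
  ext1
  · funext i; fin_cases i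
    · exact e0
    · exact e1
  · exact e2
  · exact e3

instance : IsCancelSMul Gam E4 where
  left_cancel' g v w h := by
    have := congrArg (fun x => g⁻¹ • x) h
    simpa using this
  right_cancel' g h v e := Subtype.ext (free_smul e)

lemma abs_coord_le (v : E4) (i : Fin 4) : |v i| ≤ ‖v‖ := by
  have := PiLp.norm_apply_le v i
  simpa [Real.norm_eq_abs] using this

lemma AR_bdd (N : ℕ) : ∃ B : ℝ, 0 ≤ B ∧ ∀ k : ℤ, |k| ≤ N → ∀ i j, |AR k i j| ≤ B := by
  have hfin : ({k : ℤ | |k| ≤ N}).Finite := by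
    refine (Set.finite_Icc (-(N : ℤ)) N).subset fun k hk => ?_
    simp only [Set.mem_setOf_eq] at hk
    exact abs_le.mp hk
  have hb : BddAbove ((fun k : ℤ => ∑ i, ∑ j, |AR k i j|) '' {k : ℤ | |k| ≤ N}) :=
    (hfin.image _).bddAbove
  obtain ⟨B, hB⟩ := hb
  refine ⟨max B 0, le_max_right _ _, fun k hk i j => ?_⟩
  have h1 : ∑ i, ∑ j, |AR k i j| ≤ B := hB ⟨k, hk, rfl⟩
  refine le_trans ?_ (le_trans h1 (le_max_left _ _))
  calc |AR k i j| ≤ ∑ j, |AR k i j| :=
        Finset.single_le_sum (f := fun j => |AR k i j|) (fun j _ => abs_nonneg _) (Finset.mem_univ j)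
    _ ≤ ∑ i, ∑ j, |AR k i j| :=
        Finset.single_le_sum (f := fun i => ∑ j, |AR k i j|)
          (fun i _ => Finset.sum_nonneg fun j _ => abs_nonneg _) (Finset.mem_univ i)

lemma finite_box (N M : ℕ) : ({g : G4 | |g.k| ≤ N ∧ |g.l| ≤ N ∧ ∀ i, |g.u i| ≤ M}).Finite := by
  have hinj : Function.Injective (fun g : G4 => ((g.u 0, g.u 1), (g.k, g.l))) := by
    intro g h e
    simp only [Prod.mk.injEq] at e
    ext1
    · funext i; fin_cases i
      · exact e.1.1
      · exact e.1.2
    · exact e.2.1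
    · exact e.2.2
  apply Set.Finite.of_finite_image _ hinj.injOn
  refine Set.Finite.subset (((Set.finite_Icc (-(M : ℤ)) M).prod (Set.finite_Icc (-(M : ℤ)) M)).prod
    ((Set.finite_Icc (-(N : ℤ)) N).prod (Set.finite_Icc (-(N : ℤ)) N))) ?_
  rintro _ ⟨g, ⟨h1, h2, h3⟩, rfl⟩
  exact ⟨⟨abs_le.mp (h3 0), abs_le.mp (h3 1)⟩, ⟨abs_le.mp h1, abs_le.mp h2⟩⟩

instance : ProperlyDiscontinuousSMul Gam E4 where
  finite_disjoint_inter_image := by
    intro K L hK hL
    obtain ⟨R1, hR1⟩ := hK.isBounded.exists_norm_le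
    obtain ⟨R2, hR2⟩ := hL.isBounded.exists_norm_le
    set R := max (max R1 R2) 0 with hR
    have hR0 : 0 ≤ R := le_max_right _ _
    have hKR : ∀ v ∈ K, ‖v‖ ≤ R := fun v hv =>
      (hR1 v hv).trans ((le_max_left _ _).trans (le_max_left _ _))
    have hLR : ∀ v ∈ L, ‖v‖ ≤ R := fun v hv =>
      (hR2 v hv).trans ((le_max_right _ _).trans (le_max_left _ _))
    obtain ⟨N, hN⟩ := exists_nat_ge (2 * R)
    obtain ⟨B, hB0, hB⟩ := AR_bdd N
    obtain ⟨M, hM⟩ := exists_nat_ge (R + 2 * B * R)
    apply Set.Finite.of_finite_image (f := (Subtype.val : Gam → G4)) _ Subtype.val_injective.injOn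
    apply (finite_box N M).subset
    rintro _ ⟨g, ⟨w, ⟨v, hv, rfl⟩, hw⟩, rfl⟩
    have hv' := hKR v hv
    have hw' := hLR _ hw
    have c : ∀ i, |(g • v : E4) i| ≤ R := fun i => (abs_coord_le _ i).trans hw'
    have d : ∀ i, |v i| ≤ R := fun i => (abs_coord_le _ i).trans hv'
    have e2 : |((g : G4).k : ℝ)| ≤ N := by
      have h1 := c 2
      have h2 := d 2
      rw [smul_def', PiLp.add_apply, linE_2, transE_2] at h1
      rw [abs_le] at *
      constructor <;> linarith
    have e3 : |((g : G4).l : ℝ)| ≤ N := by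
      have h1 := c 3
      have h2 := d 3
      rw [smul_def', PiLp.add_apply, linE_3, transE_3] at h1
      rw [abs_le] at *
      constructor <;> linarith
    have e2' : |(g : G4).k| ≤ N := by exact_mod_cast e2
    have e3' : |(g : G4).l| ≤ N := by exact_mod_cast e3
    have hb := hB _ e2'
    have key : ∀ i j, |AR (g : G4).k i j * v (Fin.castLE (by norm_num) j)| ≤ B * R := by
      intro i j
      rw [abs_mul]
      exact mul_le_mul (hb i j) (d _) (abs_nonneg _) hB0
    refine ⟨e2', e3', fun i => ?_⟩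
    have hu : |((g : G4).u i : ℝ)| ≤ M := by
      refine le_trans ?_ hM
      have k0 := key i 0
      have k1 := key i 1
      have q0 : v (Fin.castLE (by norm_num : 2 ≤ 4) (0 : Fin 2)) = v 0 := rfl
      have q1 : v (Fin.castLE (by norm_num : 2 ≤ 4) (1 : Fin 2)) = v 1 := rfl
      rw [q0] at k0
      rw [q1] at k1
      fin_cases i
      · have h1 := c 0
        rw [smul_def', PiLp.add_apply, linE_0, transE_0] at h1
        simp only [Fin.zero_eta, Fin.isValue] at *
        rw [abs_le] at h1 k0 k1 ⊢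
        constructor <;> linarith
      · have h1 := c 1
        rw [smul_def', PiLp.add_apply, linE_1, transE_1] at h1
        simp only [Fin.mk_one, Fin.isValue] at *
        rw [abs_le] at h1 k0 k1 ⊢
        constructor <;> linarith
    exact_mod_cast hu

/-- every point can be moved by `Γ` into a fixed ball -/
lemma exists_smul_small (v : E4) : ∃ g : Gam, ∀ i, |(g • v : E4) i| ≤ 3 := by
  set k : ℤ := -⌊v 2⌋ with hk
  set w : E4 := linE k v with hw
  set a : ℤ := ⌊w 0 / 3⌋ with ha
  set b : ℤ := ⌊w 1 / 3⌋ with hb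
  set c : ℤ := ⌊w 3 / 3⌋ with hc
  have hfl : ∀ x : ℝ, |x - 3 * ⌊x / 3⌋| ≤ 3 := by
    intro x
    have h1 := Int.floor_le (x / 3)
    have h2 := Int.lt_floor_add_one (x / 3)
    rw [abs_le]
    constructor <;> linarith
  refine ⟨⟨⟨![-(3 * a), -(3 * b)], k, -(3 * c)⟩, ?_⟩, ?_⟩
  · intro i
    fin_cases i
    · simp only [Fin.zero_eta, Fin.isValue, cons_val_zero]
      exact ⟨-a + c, by ring⟩
    · simp only [Fin.mk_one, Fin.isValue, cons_val_one, cons_val_zero]
      exact ⟨-b + c, by ring⟩
  · intro i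
    rw [smul_def', PiLp.add_apply]
    fin_cases i
    · simp only [Fin.zero_eta, Fin.isValue, transE_0, cons_val_zero]
      have h1 := hfl (w 0)
      rw [← ha] at h1
      push_cast
      rw [← sub_eq_add_neg]
      exact h1
    · simp only [Fin.mk_one, Fin.isValue, transE_1, cons_val_one, cons_val_zero]
      have h1 := hfl (w 1)
      rw [← hb] at h1
      push_cast
      rw [← sub_eq_add_neg]
      exact h1
    · simp only [Fin.reduceFinMk, linE_2, transE_2, hk]
      have h1 := Int.floor_le (v 2)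
      have h2 := Int.lt_floor_add_one (v 2)
      push_cast
      rw [abs_le]
      constructor <;> linarith
    · simp only [Fin.reduceFinMk, transE_3]
      have h1 := hfl (w 3)
      rw [← hc] at h1
      push_cast
      rw [← sub_eq_add_neg]
      exact h1

end Pool.Agent.H819R2
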