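import Pool.Agent.H819R2.Stokes2

open scoped BigOperators
open Matrix MeasureTheory Set

namespace Pool.Agent.H819R2

lemma hasFDerivAt_integral_param {H : Type*} [NormedAddCommGroup H] [NormedSpace ℝ H]
    [ProperSpace H] (F : H → ℝ → ℝ) (F' : H → ℝ → H →L[ℝ] ℝ)
    (hF : Continuous (Function.uncurry F)) (hF' : Continuous (Function.uncurry F'))
    (hd : ∀ x t, HasFDerivAt (fun x => F x t) (F' x t) x) (a b : ℝ) (x₀ : H) :
    HasFDerivAt (fun x => ∫ t in a..b, F x t) (∫ t in a..b, F' x₀ t) x₀ := by
  obtain ⟨C, hC⟩ := ((isCompact_closedBall x₀ (1 : ℝ)).prod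
    (isCompact_uIcc (a := a) (b := b))).exists_bound_of_continuousOn
    (f := Function.uncurry F') hF'.continuousOn
  refine intervalIntegral.hasFDerivAt_integral_of_dominated_of_fderiv_le
    (s := Metric.closedBall x₀ 1) (bound := fun _ => C)
    (Metric.closedBall_mem_nhds x₀ one_pos) ?_ ?_ ?_ ?_ ?_ ?_
  · exact Filter.Eventually.of_forall fun x =>
      (hF.comp (Continuous.prodMk_right x)).aestronglyMeasurable
  · exact (hF.comp (Continuous.prodMk_right x₀)).intervalIntegrable _ _
  · exact (hF'.comp (Continuous.prodMk_right x₀)).aestronglyMeasurable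
  · refine Filter.Eventually.of_forall fun t ht x hx => ?_
    exact hC (x, t) ⟨hx, uIoc_subset_uIcc ht⟩
  · exact intervalIntegrable_const
  · exact Filter.Eventually.of_forall fun t _ x _ => hd x t

/-- weighted average in the coordinate direction `j` -/
noncomputable def wavg (j : Fin 6) (w : ℝ → ℝ) (g : V6 → ℝ) (u : V6) : ℝ :=
  ∫ r in (0 : ℝ)..(L6 j), w r * g (u + Pi.single j r)

lemma single_eq_smul (j : Fin 6) (r : ℝ) : (Pi.single j r : V6) = r • Pi.single j 1 := by
  rw [← Pi.single_smul]; simp

lemma continuous_shift (j : Fin 6) : Continuous (fun p : V6 × ℝ => p.1 + (Pi.single j p.2 : V6)) := by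
  have : (fun p : V6 × ℝ => p.1 + (Pi.single j p.2 : V6)) =
      fun p : V6 × ℝ => p.1 + p.2 • (Pi.single j 1 : V6) := by
    funext p
    rw [single_eq_smul j p.2]
  rw [this]
  fun_prop

lemma wavg_hasFDerivAt (j : Fin 6) {w : ℝ → ℝ} (hw : Continuous w) {g : V6 → ℝ}
    (hg : ContDiff ℝ 1 g) (u : V6) :
    HasFDerivAt (wavg j w g)
      (∫ r in (0 : ℝ)..(L6 j), w r • fderiv ℝ g (u + Pi.single j r)) u := by
  have hsh := continuous_shift j
  refine hasFDerivAt_integral_param (fun u r => w r * g (u + Pi.single j r))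
    (fun u r => w r • fderiv ℝ g (u + Pi.single j r)) ?_ ?_ ?_ _ _ u
  · exact (hw.comp continuous_snd).mul (hg.continuous.comp hsh)
  · exact (hw.comp continuous_snd).smul ((hg.continuous_fderiv (by norm_num)).comp hsh)
  · intro x t
    have h1 : HasFDerivAt g (fderiv ℝ g (x + Pi.single j t)) (x + Pi.single j t) :=
      (hg.differentiable (by norm_num) _).hasFDerivAt
    have h2 : HasFDerivAt (fun x => g (x + Pi.single j t)) (fderiv ℝ g (x + Pi.single j t)) x := by
      have := h1.comp x ((hasFDerivAt_id x).add_const (Pi.single j t))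
      rw [ContinuousLinearMap.comp_id] at this
      exact this
    exact h2.const_mul (w t)

lemma wavg_contDiff (j : Fin 6) {w : ℝ → ℝ} (hw : Continuous w) {g : V6 → ℝ}
    (hg : ContDiff ℝ 1 g) : ContDiff ℝ 1 (wavg j w g) := by
  rw [contDiff_one_iff_fderiv]
  refine ⟨fun u => (wavg_hasFDerivAt j hw hg u).differentiableAt, ?_⟩
  have : fderiv ℝ (wavg j w g) = fun u => ∫ r in (0 : ℝ)..(L6 j), w r • fderiv ℝ g (u + Pi.single j r) := by
    funext u
    exact (wavg_hasFDerivAt j hw hg u).fderiv
  rw [this]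
  apply intervalIntegral.continuous_parametric_intervalIntegral_of_continuous'
  exact (hw.comp continuous_snd).smul
    ((hg.continuous_fderiv (by norm_num)).comp (continuous_shift j))

lemma D_wavg (j : Fin 6) {w : ℝ → ℝ} (hw : Continuous w) {g : V6 → ℝ}
    (hg : ContDiff ℝ 1 g) (i : Fin 6) (u : V6) :
    D i (wavg j w g) u = wavg j w (D i g) u := by
  unfold D
  rw [(wavg_hasFDerivAt j hw hg u).fderiv]
  rw [ContinuousLinearMap.intervalIntegral_apply]
  · rfl
  · apply Continuous.intervalIntegrable
    have h1 : Continuous (fun r : ℝ => u + (Pi.single j r : V6)) :=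
      (continuous_shift j).comp (Continuous.prodMk_right u)
    exact hw.smul ((hg.continuous_fderiv (by norm_num)).comp h1)

lemma D_continuous {g : V6 → ℝ} (hg : ContDiff ℝ 1 g) (i : Fin 6) : Continuous (D i g) :=
  (hg.continuous_fderiv (by norm_num)).clm_apply continuous_const

lemma wavg_add (j : Fin 6) {w : ℝ → ℝ} (hw : Continuous w) {g h : V6 → ℝ} (hg : Continuous g)
    (hh : Continuous h) (u : V6) :
    wavg j w (fun v => g v + h v) u = wavg j w g u + wavg j w h u := by
  have h1 : Continuous (fun r : ℝ => u + (Pi.single j r : V6)) :=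
    (continuous_shift j).comp (Continuous.prodMk_right u)
  unfold wavg
  rw [← intervalIntegral.integral_add]
  · congr 1; funext r; ring
  · exact (hw.mul (hg.comp h1)).intervalIntegrable _ _
  · exact (hw.mul (hh.comp h1)).intervalIntegrable _ _

lemma wavg_neg (j : Fin 6) (w : ℝ → ℝ) (g : V6 → ℝ) (u : V6) :
    wavg j w (fun v => - g v) u = - wavg j w g u := by
  unfold wavg
  rw [← intervalIntegral.integral_neg]
  congr 1; funext r; ring

lemma wavg_const_mul (j : Fin 6) (w : ℝ → ℝ) (c : ℝ) (g : V6 → ℝ) (u : V6) :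
    wavg j w (fun v => c * g v) u = c * wavg j w g u := by
  unfold wavg
  rw [← intervalIntegral.integral_const_mul]
  congr 1; funext r; ring

/-- integration by parts along the direction of averaging -/
lemma wavg_D_self (j : Fin 6) (hj : j ≠ 2) (hj4 : j ≠ 4) {g : V6 → ℝ} (hg : ContDiff ℝ 1 g)
    (hper : ∀ u, g (u + Pi.single j (L6 j)) = g u) (u : V6) :
    wavg j (fun r => 1 - r / L6 j) (D j g) u = wavg j (fun _ => 1 / L6 j) g u - g u := by
  have hL : L6 j ≠ 0 := by
    have := Real.pi_ne_zero
    fin_cases j <;> simp [L6, this] 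
  have h1 : ∀ r : ℝ, HasDerivAt (fun r => g (u + Pi.single j r)) (D j g (u + Pi.single j r)) r := by
    intro r
    have h2 : HasFDerivAt g (fderiv ℝ g (u + Pi.single j r)) (u + Pi.single j r) :=
      (hg.differentiable (by norm_num) _).hasFDerivAt
    have h3 : HasDerivAt (fun r : ℝ => u + (Pi.single j r : V6)) (Pi.single j 1) r := by
      have h0 : (fun r : ℝ => u + (Pi.single j r : V6)) =
          fun r : ℝ => u + r • (Pi.single j 1 : V6) := by
        funext p
        rw [single_eq_smul j p]
      rw [h0]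
      have := ((hasDerivAt_id r).smul_const (Pi.single j (1 : ℝ) : V6)).const_add u
      rw [one_smul] at this
      exact this
    exact h2.comp_hasDerivAt r h3
  have h4 : ∀ r : ℝ, HasDerivAt (fun r : ℝ => 1 - r / L6 j) (-(1 / L6 j)) r := by
    intro r
    have := ((hasDerivAt_id r).div_const (L6 j)).const_sub 1
    simpa using this
  have h5 := intervalIntegral.integral_mul_deriv_eq_deriv_mul (a := 0) (b := L6 j)
    (fun x _ => h4 x) (fun x _ => h1 x) (continuous_const.intervalIntegrable _ _)
    (((D_continuous hg j).comp ((continuous_shift j).comp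
      (Continuous.prodMk_right u))).intervalIntegrable _ _)
  have h6 : wavg j (fun r => 1 - r / L6 j) (D j g) u =
      ∫ x in (0 : ℝ)..(L6 j), (1 - x / L6 j) * D j g (u + Pi.single j x) := rfl
  rw [h6, h5]
  have h7 : (1 - L6 j / L6 j) = 0 := by rw [div_self hL]; ring
  rw [h7]
  unfold wavg
  have h8 : ∫ x in (0 : ℝ)..(L6 j), -(1 / L6 j) * g (u + Pi.single j x) =
      - ∫ r in (0 : ℝ)..(L6 j), 1 / L6 j * g (u + Pi.single j r) := by
    rw [← intervalIntegral.integral_neg]
    congr 1; funext r; ring
  rw [h8]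
  simp
  ring

end Pool.Agent.H819R2
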