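import Pool.Agent.H819R2.Avg

open scoped BigOperators
open Matrix MeasureTheory Set

namespace Pool.Agent.H819R2

lemma L6_ne_zero (j : Fin 6) : L6 j ≠ 0 := by
  have := Real.pi_ne_zero
  fin_cases j <;> simp [L6, this]

/-- averaged 2-form -/
noncomputable def avgF (j : Fin 6) (f : V6 → Mat6) (u : V6) : Mat6 :=
  fun i k => wavg j (fun _ => 1 / L6 j) (fun v => f v i k) u

/-- the primitive of the difference -/
noncomputable def lamF (j : Fin 6) (f : V6 → Mat6) (u : V6) : V6 :=
  fun i => wavg j (fun r => 1 - r / L6 j) (fun v => f v j i) u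

lemma wavg_sum {ι : Type*} (s : Finset ι) (j : Fin 6) {w : ℝ → ℝ} (hw : Continuous w)
    (g : ι → V6 → ℝ) (hg : ∀ i, Continuous (g i)) (u : V6) :
    wavg j w (fun v => ∑ i ∈ s, g i v) u = ∑ i ∈ s, wavg j w (g i) u := by
  have h1 : Continuous (fun r : ℝ => u + (Pi.single j r : V6)) :=
    (continuous_shift j).comp (Continuous.prodMk_right u)
  unfold wavg
  rw [← intervalIntegral.integral_finsetSum]
  · congr 1; funext r; rw [Finset.mul_sum]
  · intro i _
    exact (hw.mul ((hg i).comp h1)).intervalIntegrable _ _

lemma aMap_shift (j : Fin 6) (hj : j = 3 ∨ j = 5) (u : V6) (r : ℝ) :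
    aMap (u + Pi.single j r) = aMap u + Pi.single j r := by
  unfold aMap
  rw [Matrix.mulVec_add]
  have : T6 *ᵥ (Pi.single j r) = Pi.single j r := by
    rcases hj with rfl | rfl <;>
    · funext k
      fin_cases k <;> simp [T6, Matrix.mulVec, dotProduct, Fin.sum_univ_succ, Pi.single_apply]
  rw [this]
  abel

lemma Form2.skew {f : V6 → Mat6} (hf : Form2 f) (u : V6) (i k : Fin 6) : f u k i = - f u i k := by
  have := congrFun (congrFun (hf.anti u) i) k
  rwa [Matrix.transpose_apply, Matrix.neg_apply] at this

lemma D_neg' (i : Fin 6) (g : V6 → ℝ) (u : V6) : D i (fun v => - g v) u = - D i g u := by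
  unfold D; rw [fderiv_fun_neg]; rfl

lemma Form2.D_skew {f : V6 → Mat6} (hf : Form2 f) (u : V6) (l i k : Fin 6) :
    D l (fun v => f v k i) u = - D l (fun v => f v i k) u := by
  rw [← D_neg']
  congr 1
  funext v
  exact hf.skew v i k

lemma Form2.equi_apply {f : V6 → Mat6} (hf : Form2 f) (u : V6) (i k : Fin 6) :
    f u i k = ∑ q, ∑ p, T6 p i * f (aMap u) p q * T6 q k := by
  have h := congrFun (congrFun (hf.equi u) i) k
  rw [h, Matrix.mul_apply]
  refine Finset.sum_congr rfl fun q _ => ?_
  rw [Matrix.mul_apply, Finset.sum_mul]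
  rfl

lemma avgF_form2 (j : Fin 6) (hj : j = 3 ∨ j = 5) {f : V6 → Mat6} (hf : Form2 f) :
    Form2 (avgF j f) := by
  have hj2 : j ≠ 2 := by rcases hj with rfl | rfl <;> decide
  have hj4 : j ≠ 4 := by rcases hj with rfl | rfl <;> decide
  have hw : Continuous (fun _ : ℝ => 1 / L6 j) := continuous_const
  have hcc := fun i k => (hf.c1 i k).continuous
  refine ⟨fun i k => wavg_contDiff j hw (hf.c1 i k), ?_, ?_, ?_, ?_, ?_⟩
  · intro u
    ext i k
    rw [Matrix.transpose_apply, Matrix.neg_apply]
    simp only [avgF]
    rw [← wavg_neg]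
    congr 1
    funext v
    exact hf.skew v i k
  · intro u i k l
    simp only [avgF]
    have e : ∀ p q m, D p (fun u => wavg j (fun _ => 1 / L6 j) (fun v => f v q m) u) u =
        wavg j (fun _ => 1 / L6 j) (D p (fun v => f v q m)) u := fun p q m =>
      D_wavg j hw (hf.c1 q m) p u
    have s1 := wavg_add j hw (g := D i (fun v => f v k l)) (h := D k (fun v => f v l i))
      (D_continuous (hf.c1 _ _) _) (D_continuous (hf.c1 _ _) _) u
    have s2 := wavg_add j hw (g := fun v => D i (fun v => f v k l) v + D k (fun v => f v l i) v)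
      (h := D l (fun v => f v i k))
      ((D_continuous (hf.c1 _ _) _).add (D_continuous (hf.c1 _ _) _))
        (D_continuous (hf.c1 _ _) _) u
    rw [e, e, e, ← s1, ← s2]
    have : (fun v => D i (fun v => f v k l) v + D k (fun v => f v l i) v +
        D l (fun v => f v i k) v) = fun _ => 0 := by
      funext v; exact hf.closed v i k l
    rw [this]
    simp [wavg]
  · intro k hk2 hk4 u
    funext p q
    simp only [avgF, wavg]
    congr 1
    funext r
    rw [show u + Pi.single k (L6 k) + Pi.single j r = (u + Pi.single j r) + Pi.single k (L6 k) by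
      abel, hf.per k hk2 hk4]
  · intro u
    ext i k
    rw [Matrix.mul_apply]
    have h1 : ∀ v, f v i k = ∑ q, ∑ p, T6 p i * f (aMap v) p q * T6 q k := fun v =>
      hf.equi_apply v i k
    have h2 : avgF j f u i k = ∑ q, ∑ p, T6 p i * avgF j f (aMap u) p q * T6 q k := by
      have hshift : ∀ p q, wavg j (fun _ => 1 / L6 j) (fun v => f (aMap v) p q) u =
          avgF j f (aMap u) p q := by
        intro p q
        simp only [avgF, wavg]
        congr 1
        funext r
        rw [aMap_shift j hj]
      have hac : Continuous aMap := by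
        unfold aMap
        fun_prop
      have : avgF j f u i k = wavg j (fun _ => 1 / L6 j)
          (fun v => ∑ q, ∑ p, (T6 p i * T6 q k) * f (aMap v) p q) u := by
        simp only [avgF]
        congr 1
        funext v
        rw [h1 v]
        refine Finset.sum_congr rfl fun q _ => Finset.sum_congr rfl fun p _ => ?_
        ring
      rw [this, wavg_sum]
      · refine Finset.sum_congr rfl fun q _ => ?_
        rw [wavg_sum]
        · refine Finset.sum_congr rfl fun p _ => ?_
          rw [wavg_const_mul, hshift]
          ring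
        · exact hw
        · intro p
          exact continuous_const.mul ((hcc p q).comp hac)
      · exact hw
      · intro q
        exact continuous_finsetSum _ fun p _ => continuous_const.mul ((hcc p q).comp hac)
    rw [h2]
    refine Finset.sum_congr rfl fun q _ => ?_
    rw [Matrix.mul_apply, Finset.sum_mul]
    rfl
  · intro u hu k
    simp only [avgF, wavg]
    have : ∀ r, f (u + Pi.single j r) 5 k = 0 := by
      intro r
      apply hf.pole
      simpa [Pi.single_eq_of_ne hj4.symm] using hu
    simp [this]

lemma lamF_form1 (j : Fin 6) (hj : j = 3 ∨ j = 5) {f : V6 → Mat6} (hf : Form2 f) :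
    Form1 (lamF j f) := by
  have hj2 : j ≠ 2 := by rcases hj with rfl | rfl <;> decide
  have hj4 : j ≠ 4 := by rcases hj with rfl | rfl <;> decide
  have hw : Continuous (fun r : ℝ => 1 - r / L6 j) := by fun_prop
  have hcc := fun i k => (hf.c1 i k).continuous
  refine ⟨fun i => wavg_contDiff j hw (hf.c1 j i), ?_, ?_, ?_⟩
  · intro k hk2 hk4 u
    funext p
    simp only [lamF, wavg]
    congr 1
    funext r
    rw [show u + Pi.single k (L6 k) + Pi.single j r = (u + Pi.single j r) + Pi.single k (L6 k) by
      abel, hf.per k hk2 hk4]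
  · intro u
    have hac : Continuous aMap := by
      unfold aMap
      fun_prop
    funext i
    have h1 : ∀ v, f v j i = ∑ q, T6 q i * f (aMap v) j q := by
      intro v
      rw [hf.equi_apply v j i]
      refine Finset.sum_congr rfl fun q _ => ?_
      rw [Finset.sum_eq_single j]
      · rcases hj with rfl | rfl <;> simp [T6] <;> ring
      · intro b _ hb
        rcases hj with rfl | rfl <;> fin_cases b <;> simp [T6] at hb ⊢
      · simp
    have h2 : lamF j f u i = wavg j (fun r => 1 - r / L6 j)
        (fun v => ∑ q, T6 q i * f (aMap v) j q) u := by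
      simp only [lamF]
      congr 1
      funext v
      exact h1 v
    rw [h2, wavg_sum]
    · rw [Matrix.mulVec, dotProduct]
      refine Finset.sum_congr rfl fun q _ => ?_
      rw [wavg_const_mul, Matrix.transpose_apply]
      congr 1
      simp only [lamF, wavg]
      congr 1
      funext r
      rw [aMap_shift j hj]
    · exact hw
    · intro q
      exact continuous_const.mul ((hcc j q).comp hac)
  · intro u hu
    simp only [lamF, wavg]
    have : ∀ r, f (u + Pi.single j r) j 5 = 0 := by
      intro r
      rw [hf.skew _ 5 j, hf.pole]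
      · simp
      · simpa [Pi.single_eq_of_ne hj4.symm] using hu
    simp [this]

lemma avgF_eq (j : Fin 6) (hj : j = 3 ∨ j = 5) {f : V6 → Mat6} (hf : Form2 f) (u : V6) :
    avgF j f u = f u + dForm (lamF j f) u := by
  have hj2 : j ≠ 2 := by rcases hj with rfl | rfl <;> decide
  have hj4 : j ≠ 4 := by rcases hj with rfl | rfl <;> decide
  have hw : Continuous (fun r : ℝ => 1 - r / L6 j) := by fun_prop
  ext i k
  rw [Matrix.add_apply]
  simp only [dForm, lamF, avgF]
  have e : ∀ p q m, D p (fun u => wavg j (fun r => 1 - r / L6 j) (fun v => f v q m) u) u =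
      wavg j (fun r => 1 - r / L6 j) (D p (fun v => f v q m)) u := fun p q m =>
    D_wavg j hw (hf.c1 q m) p u
  rw [e, e]
  have h1 := wavg_D_self j hj2 hj4 (hf.c1 i k) (fun u => by rw [hf.per j hj2 hj4]) u
  have h2 : D j (fun v => f v i k) = fun v => D i (fun v => f v j k) v + - D k (fun v => f v j i) v := by
    funext v
    have := hf.closed v i j k
    rw [hf.D_skew v j i k, hf.D_skew v k j i] at this
    linarith
  have s1 := wavg_add j hw (g := D i (fun v => f v j k)) (h := fun v => - D k (fun v => f v j i) v)
    (D_continuous (hf.c1 _ _) _) (D_continuous (hf.c1 _ _) _).neg u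
  rw [wavg_neg] at s1
  rw [h2, s1] at h1
  linarith

lemma avgF_shift (j : Fin 6) (hj : j = 3 ∨ j = 5) {f : V6 → Mat6} (hf : Form2 f) (u : V6) (s : ℝ) :
    avgF j f (u + Pi.single j s) = avgF j f u := by
  have hj2 : j ≠ 2 := by rcases hj with rfl | rfl <;> decide
  have hj4 : j ≠ 4 := by rcases hj with rfl | rfl <;> decide
  funext i k
  simp only [avgF, wavg]
  have hP : Function.Periodic (fun r : ℝ => 1 / L6 j * f (u + Pi.single j r) i k) (L6 j) := by
    intro r
    simp only
    rw [show u + Pi.single j (r + L6 j) = (u + Pi.single j r) + Pi.single j (L6 j) by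
      rw [Pi.single_add]; abel, hf.per j hj2 hj4]
  have h1 : ∀ r : ℝ, u + Pi.single j s + Pi.single j r = u + Pi.single j (r + s) := by
    intro r; rw [Pi.single_add]; abel
  simp only [h1]
  have h3 := intervalIntegral.integral_comp_add_right (a := 0) (b := L6 j)
    (fun r : ℝ => 1 / L6 j * f (u + Pi.single j r) i k) s
  refine h3.trans ?_
  have h2 := hP.intervalIntegral_add_eq (0 + s) 0
  rw [zero_add (L6 j)] at h2
  rw [← h2]
  congr 1
  ring

/-- averaging in another direction preserves independence of a coordinate -/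
lemma avgF_shift_other (j k : Fin 6) {f : V6 → Mat6}
    (hk : ∀ u s, f (u + Pi.single k s) = f u) (u : V6) (s : ℝ) :
    avgF j f (u + Pi.single k s) = avgF j f u := by
  funext p q
  simp only [avgF, wavg]
  congr 1
  funext r
  rw [show u + Pi.single k s + Pi.single j r = (u + Pi.single j r) + Pi.single k s by abel, hk]

end Pool.Agent.H819R2
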