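import Mathlib

/-!
# Integrals of continuous functions over boxes in `Fin (n+1) → ℝ`
-/

open MeasureTheory Set

namespace Pool.Agent.H819R2

lemma box_fubini {n : ℕ} (a b : Fin (n + 1) → ℝ) (hab : a ≤ b) (i : Fin (n + 1))
    (F : (Fin (n + 1) → ℝ) → ℝ) (hF : Continuous F) :
    ∫ x in Icc a b, F x = ∫ y in Icc (a ∘ i.succAbove) (b ∘ i.succAbove),
      ∫ s in (a i)..(b i), F (i.insertNth s y) := by
  have hmp := volume_preserving_piFinSuccAbove (fun _ : Fin (n + 1) => ℝ) i
  set e := MeasurableEquiv.piFinSuccAbove (fun _ : Fin (n + 1) => ℝ) i with he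
  have hpre : Icc a b = e ⁻¹' (Icc (a i) (b i) ×ˢ Icc (a ∘ i.succAbove) (b ∘ i.succAbove)) := by
    ext x
    simp only [mem_preimage, mem_prod, mem_Icc, he, MeasurableEquiv.piFinSuccAbove,
      MeasurableEquiv.coe_mk, Fin.insertNthEquiv, Equiv.symm_mk, Equiv.coe_fn_mk, Fin.removeNth]
    simp only [Pi.le_def, Function.comp]
    constructor
    · rintro ⟨h1, h2⟩
      exact ⟨⟨h1 i, h2 i⟩, fun j => h1 _, fun j => h2 _⟩
    · rintro ⟨⟨h1, h2⟩, h3, h4⟩
      refine ⟨fun j => ?_, fun j => ?_⟩
      · rcases Fin.eq_self_or_eq_succAbove i j with rfl | ⟨k, rfl⟩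
        · exact h1
        · exact h3 k
      · rcases Fin.eq_self_or_eq_succAbove i j with rfl | ⟨k, rfl⟩
        · exact h2
        · exact h4 k
  have hF2 : F = fun x => (fun z : ℝ × (Fin n → ℝ) => F (i.insertNth z.1 z.2)) (e x) := by
    funext x
    have : (i.insertNth (e x).1 (e x).2 : Fin (n + 1) → ℝ) = x := by
      have := Fin.insertNth_self_removeNth i x
      exact this
    simp only [this]
  have hcont : Continuous (fun z : (Fin n → ℝ) × ℝ => F (i.insertNth z.2 z.1)) := by
    apply hF.comp
    exact Continuous.finInsertNth (A := fun _ => ℝ) i continuous_snd continuous_fst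
  rw [hpre]
  conv_lhs => rw [hF2]
  rw [hmp.setIntegral_preimage_emb e.measurableEmbedding]
  rw [Measure.volume_eq_prod, ← setIntegral_prod_swap]
  rw [setIntegral_prod]
  · refine setIntegral_congr_fun measurableSet_Icc fun y _ => ?_
    simp only [Prod.fst_swap, Prod.snd_swap]
    rw [intervalIntegral.integral_of_le (hab i), integral_Icc_eq_integral_Ioc]
  · apply ContinuousOn.integrableOn_compact
    · exact isCompact_Icc.prod isCompact_Icc
    · exact hcont.continuousOn

lemma integral_shear {n : ℕ} (a b : Fin (n + 1) → ℝ) (hab : a ≤ b) (i : Fin (n + 1))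
    (j : Fin n) (c : ℝ)
    (G : (Fin (n + 1) → ℝ) → ℝ) (hG : Continuous G)
    (hper : ∀ x, G (x + Pi.single i (b i - a i)) = G x) :
    ∫ x in Icc a b, G (x + Pi.single i (c * x (i.succAbove j))) = ∫ x in Icc a b, G x := by
  rw [box_fubini a b hab i _ hG, box_fubini a b hab i]
  · refine setIntegral_congr_fun measurableSet_Icc fun y _ => ?_
    have hP : Function.Periodic (fun s => G (i.insertNth s y)) (b i - a i) := by
      intro s
      have := hper (i.insertNth s y)
      change G _ = G _
      rw [← this]
      congr 1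
      funext k
      rcases Fin.eq_self_or_eq_succAbove i k with rfl | ⟨l, rfl⟩
      · simp
      · simp
    have h1 : ∀ s, i.insertNth s y + Pi.single i (c * (i.insertNth s y : Fin (n + 1) → ℝ)
        (i.succAbove j)) = (i.insertNth (s + c * y j) y : Fin (n + 1) → ℝ) := by
      intro s
      funext k
      rcases Fin.eq_self_or_eq_succAbove i k with rfl | ⟨l, rfl⟩
      · simp
      · simp
    simp only [h1]
    rw [intervalIntegral.integral_comp_add_right (fun s => G (i.insertNth s y))]
    have h2 := hP.intervalIntegral_add_eq (a i + c * y j) (a i)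
    rw [show a i + c * y j + (b i - a i) = b i + c * y j by ring,
      show a i + (b i - a i) = b i by ring] at h2
    exact h2
  · refine hG.comp ?_
    refine continuous_id.add ?_
    refine continuous_pi fun k => ?_
    by_cases hk : k = i
    · subst hk
      simp only [Pi.single_eq_same]
      fun_prop
    · simp only [Pi.single_eq_of_ne hk]
      fun_prop

end Pool.Agent.H819R2
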