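import Pool.Agent.H819R2.Prim

open scoped BigOperators
open Matrix MeasureTheory Set

namespace Pool.Agent.H819R2

/-- The integral of the `(x, y)` component over the south pole slice. -/
noncomputable def bet (f : V6 → Mat6) : ℝ :=
  ∫ x in Icc ((0 : V6) ∘ (4 : Fin 6).succAbove) (L6 ∘ (4 : Fin 6).succAbove),
    f ((4 : Fin 6).insertNth (L6 4) x) 0 1

lemma insert_insert (j : Fin 5) (c s : ℝ) (y : Fin 4 → ℝ) :
    ((4 : Fin 6).insertNth c (j.insertNth s y : Fin 5 → ℝ) : V6) =
      (4 : Fin 6).insertNth c (j.insertNth 0 y : Fin 5 → ℝ) +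
        Pi.single ((4 : Fin 6).succAbove j) s := by
  funext k
  rcases Fin.eq_self_or_eq_succAbove 4 k with rfl | ⟨l, rfl⟩
  · simp
  · rcases Fin.eq_self_or_eq_succAbove j l with rfl | ⟨m, rfl⟩
    · simp
    · simp

lemma continuous_insert4 : Continuous (fun x : Fin 5 → ℝ => ((4 : Fin 6).insertNth (L6 4) x : V6)) :=
  Continuous.finInsertNth (A := fun _ => ℝ) 4 continuous_const continuous_id

lemma line_deriv {p : V6 → ℝ} (hp : ContDiff ℝ 1 p) (k : Fin 6) (u : V6) (s : ℝ) :
    HasDerivAt (fun s => p (u + Pi.single k s)) (D k p (u + Pi.single k s)) s := by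
  have h2 : HasFDerivAt p (fderiv ℝ p (u + Pi.single k s)) (u + Pi.single k s) :=
    (hp.differentiable (by norm_num) _).hasFDerivAt
  have h3 : HasDerivAt (fun r : ℝ => u + (Pi.single k r : V6)) (Pi.single k 1) s := by
    have h0 : (fun r : ℝ => u + (Pi.single k r : V6)) =
        fun r : ℝ => u + r • (Pi.single k 1 : V6) := by
      funext p
      rw [single_eq_smul k p]
    rw [h0]
    have := ((hasDerivAt_id s).smul_const (Pi.single k (1 : ℝ) : V6)).const_add u
    rw [one_smul] at this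
    exact this
  exact h2.comp_hasDerivAt s h3

lemma face_D_zero (j : Fin 5) {p : V6 → ℝ} (hp : ContDiff ℝ 1 p)
    (hper : ∀ u, p (u + Pi.single ((4 : Fin 6).succAbove j) (L6 ((4 : Fin 6).succAbove j))) = p u) :
    ∫ x in Icc ((0 : V6) ∘ (4 : Fin 6).succAbove) (L6 ∘ (4 : Fin 6).succAbove),
      D ((4 : Fin 6).succAbove j) p ((4 : Fin 6).insertNth (L6 4) x) = 0 := by
  have hbf := box_fubini ((0 : V6) ∘ (4 : Fin 6).succAbove) (L6 ∘ (4 : Fin 6).succAbove)
    (fun _ => L6_nonneg _) j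
    (fun x => D ((4 : Fin 6).succAbove j) p ((4 : Fin 6).insertNth (L6 4) x))
    ((D_continuous hp _).comp continuous_insert4)
  rw [hbf]
  have : ∀ y : Fin 4 → ℝ, ∫ s in ((0 : V6) ∘ (4 : Fin 6).succAbove) j..(L6 ∘ (4 : Fin 6).succAbove) j,
      D ((4 : Fin 6).succAbove j) p ((4 : Fin 6).insertNth (L6 4) (j.insertNth s y : Fin 5 → ℝ)) = 0 := by
    intro y
    have hfun : (fun s : ℝ => D ((4 : Fin 6).succAbove j) p
        ((4 : Fin 6).insertNth (L6 4) (j.insertNth s y : Fin 5 → ℝ))) = fun s : ℝ =>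
        D ((4 : Fin 6).succAbove j) p ((4 : Fin 6).insertNth (L6 4) (j.insertNth 0 y : Fin 5 → ℝ) +
        Pi.single ((4 : Fin 6).succAbove j) s) := by
      funext s
      rw [insert_insert j (L6 4) s y]
    rw [hfun]
    rw [intervalIntegral.integral_eq_sub_of_hasDerivAt (fun s _ => line_deriv hp _ _ s)]
    · simp only [Function.comp, Pi.zero_apply, Pi.single_zero, add_zero]
      rw [hper, sub_self]
    · apply Continuous.intervalIntegrable
      exact (D_continuous hp _).comp ((continuous_shift _).comp (Continuous.prodMk_right _))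
  simp only [this]
  simp

lemma bet_add {Λ : V6 → V6} {f f' : V6 → Mat6} (hΛ : Form1 Λ) (hf : Form2 f)
    (hd : ∀ u, f' u = f u + dForm Λ u) : bet f' = bet f := by
  unfold bet
  have e0 : (4 : Fin 6).succAbove 0 = 0 := by decide
  have e1 : (4 : Fin 6).succAbove 1 = 1 := by decide
  have z0 := face_D_zero 0 (hΛ.c1 1) (by rw [e0]; intro u; rw [hΛ.per 0 (by decide) (by decide)])
  have z1 := face_D_zero 1 (hΛ.c1 0) (by rw [e1]; intro u; rw [hΛ.per 1 (by decide) (by decide)])
  rw [e0] at z0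
  rw [e1] at z1
  have h1 : ∀ x : Fin 5 → ℝ, f' ((4 : Fin 6).insertNth (L6 4) x) 0 1 =
      f ((4 : Fin 6).insertNth (L6 4) x) 0 1 +
      (D 0 (fun u => Λ u 1) ((4 : Fin 6).insertNth (L6 4) x) -
        D 1 (fun u => Λ u 0) ((4 : Fin 6).insertNth (L6 4) x)) := by
    intro x
    rw [hd, Matrix.add_apply]
    rfl
  simp only [h1]
  have i1 : IntegrableOn (fun x : Fin 5 → ℝ => f ((4 : Fin 6).insertNth (L6 4) x) 0 1)
      (Icc ((0 : V6) ∘ (4 : Fin 6).succAbove) (L6 ∘ (4 : Fin 6).succAbove)) volume :=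
    ((hf.c1 0 1).continuous.comp continuous_insert4).continuousOn.integrableOn_compact isCompact_Icc
  have i2 : IntegrableOn (fun x : Fin 5 → ℝ => D 0 (fun u => Λ u 1) ((4 : Fin 6).insertNth (L6 4) x))
      (Icc ((0 : V6) ∘ (4 : Fin 6).succAbove) (L6 ∘ (4 : Fin 6).succAbove)) volume :=
    ((D_continuous (hΛ.c1 1) 0).comp continuous_insert4).continuousOn.integrableOn_compact
      isCompact_Icc
  have i3 : IntegrableOn (fun x : Fin 5 → ℝ => D 1 (fun u => Λ u 0) ((4 : Fin 6).insertNth (L6 4) x))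
      (Icc ((0 : V6) ∘ (4 : Fin 6).succAbove) (L6 ∘ (4 : Fin 6).succAbove)) volume :=
    ((D_continuous (hΛ.c1 0) 1).comp continuous_insert4).continuousOn.integrableOn_compact
      isCompact_Icc
  have i23 : IntegrableOn (fun x : Fin 5 → ℝ =>
      D 0 (fun u => Λ u 1) ((4 : Fin 6).insertNth (L6 4) x) -
        D 1 (fun u => Λ u 0) ((4 : Fin 6).insertNth (L6 4) x))
      (Icc ((0 : V6) ∘ (4 : Fin 6).succAbove) (L6 ∘ (4 : Fin 6).succAbove)) volume := i2.sub i3
  rw [integral_add i1 i23, integral_sub i2 i3, z0, z1]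
  simp

lemma D_eq_zero_of_shift {g : V6 → ℝ} (hg : ContDiff ℝ 1 g) (j : Fin 6)
    (h : ∀ u s, g (u + Pi.single j s) = g u) (u : V6) : D j g u = 0 := by
  have h1 := line_deriv hg j u 0
  simp only [h] at h1
  have h2 := h1.unique (hasDerivAt_const (0 : ℝ) (g u))
  simpa using h2

lemma const_of_D_zero {g : V6 → ℝ} (hg : ContDiff ℝ 1 g) (h : ∀ i u, D i g u = 0) (u v : V6) :
    g u = g v := by
  apply is_const_of_fderiv_eq_zero (hg.differentiable (by norm_num))
  intro w
  rw [clm_eq_lin (fderiv ℝ g w)]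
  have : (fun i => fderiv ℝ g w (Pi.single i 1)) = fun _ => (0 : ℝ) := by
    funext i; exact h i w
  rw [this]
  ext x
  simp [lin_apply]

/-- constancy along a segment contained in a polar slice -/
lemma const_on_slice {g : V6 → ℝ} {l : V6 → V6} (hg : ∀ u, HasFDerivAt g (lin (l u)) u) (c : ℝ)
    (hl : ∀ u : V6, u 4 = c → ∀ i, l u i = 0) (u v : V6) (hu : u 4 = c) (hv : v 4 = c) :
    g u = g v := by
  have h1 : ∀ s : ℝ, HasDerivAt (fun s : ℝ => g (u + s • (v - u))) 0 s := by
    intro s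
    have h2 : HasDerivAt (fun s : ℝ => u + s • (v - u)) (v - u) s := by
      have := ((hasDerivAt_id s).smul_const (v - u)).const_add u
      rw [one_smul] at this
      exact this
    have h3 := (hg (u + s • (v - u))).comp_hasDerivAt s h2
    have h4 : (u + s • (v - u)) 4 = c := by
      simp [hu, hv]
    have h5 : lin (l (u + s • (v - u))) (v - u) = 0 := by
      rw [lin_apply]
      apply Finset.sum_eq_zero
      intro i _
      rw [hl _ h4 i, zero_mul]
    rw [h5] at h3
    exact h3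
  have h6 := is_const_of_deriv_eq_zero (fun s => (h1 s).differentiableAt) (fun s => (h1 s).deriv) 0 1
  simpa using h6

end Pool.Agent.H819R2
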