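import Mathlib
import Pool.Agent.H925R3.DD.Stubs

/-!
# LINB (project DD of helper925)
-/

set_option autoImplicit false

namespace Pool.Agent.H819R2.DDLINB

open Finset
open Pool.Agent.H925R3.DC Pool.Agent.H925R3.DD

/-- lift to the integers -/
noncomputable def lft {p : ℕ} (x : ZMod p) : ℤ := Classical.choose (ZMod.intCast_surjective x)

theorem lft_eq {p : ℕ} (x : ZMod p) : ((lft x : ℤ) : ZMod p) = x :=
  Classical.choose_spec (ZMod.intCast_surjective x)

theorem linb (h : MOM) : LINB := by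
  classical
  intro d ι _ _ deg S k X H n η V B hd hη hη1 hS hn hn1
  -- the tuples
  have hJ : ∀ p : ℕ, ∃ J : Fin d → ι, p ∈ S → ∀ i, deg (J i) = i ∧ V p (J i) ≠ 0 := by
    intro p
    by_cases hp : p ∈ S
    · choose J hJ using (hS p hp).2.2.1
      exact ⟨J, fun _ => hJ⟩
    · exact ⟨fun _ => Classical.arbitrary ι, fun h => absurd h hp⟩
  choose J hJ using hJ
  obtain ⟨J0, -, hJ0⟩ := Finset.exists_le_card_fiber_of_mul_le_card_of_maps_to
    (s := S) (t := (Finset.univ : Finset (Fin d → ι))) (f := J) (n := n)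
    (fun _ _ => Finset.mem_univ _) ⟨fun _ => Classical.arbitrary ι, Finset.mem_univ _⟩ (by
      rw [Finset.card_univ, Fintype.card_fun, Fintype.card_fin]
      exact hn)
  obtain ⟨S', hS'sub, hS'card⟩ := Finset.exists_subset_card_eq hJ0
  have hS' : ∀ p ∈ S', p ∈ S ∧ J p = J0 := fun p hp => Finset.mem_filter.1 (hS'sub hp)
  have hdeg : ∀ i, deg (J0 i) = i := by
    obtain ⟨p, hp⟩ : S'.Nonempty := Finset.card_pos.1 (by omega)
    obtain ⟨h1, h2⟩ := hS' p hp
    intro i
    rw [← h2]
    exact (hJ p h1 i).1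
  have hinj : Function.Injective J0 := by
    intro i i' hii
    rw [← hdeg i, ← hdeg i', hii]
  obtain ⟨I, hI⟩ : ∃ I : Finset ι, I = Finset.univ.image J0 := ⟨_, rfl⟩
  have hIcard : I.card = d := by
    rw [hI, Finset.card_image_of_injective _ hinj, Finset.card_univ, Fintype.card_fin]
  have hmemI : ∀ i, J0 i ∈ I := fun i => by rw [hI]; exact Finset.mem_image_of_mem _ (Finset.mem_univ i)
  have hofI : ∀ j ∈ I, j = J0 (deg j) := by
    intro j hj
    rw [hI, Finset.mem_image] at hj
    obtain ⟨i, -, rfl⟩ := hj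
    rw [hdeg]
  -- the constants
  obtain ⟨K, hK⟩ : ∃ K : ℝ, K = (n.choose k : ℝ) * (2 * (H : ℝ) + 1) ^ d +
      (n.choose k : ℝ) ^ 2 * (d * (X : ℝ) ^ (2 * k) * (2 * (H : ℝ) + 1) ^ (d - 1)) := ⟨_, rfl⟩
  obtain ⟨W, hW⟩ : ∃ W : ℝ, W = η ^ (2 * k) * (n.choose k : ℝ) ^ 2 := ⟨_, rfl⟩
  have hW0 : 0 ≤ W := by rw [hW]; positivity
  rw [← hW, ← hK]
  -- the sets
  obtain ⟨Bx, hBx⟩ : ∃ Bx : Finset (ι → ℤ),
      Bx = Fintype.piFinset (fun _ : ι => Finset.Icc (-(H : ℤ)) H) := ⟨_, rfl⟩
  obtain ⟨Tf, hTf⟩ : ∃ Tf : Finset (ι → ℤ), Tf = Bx.filter (fun c => ∀ p ∈ S,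
      (fun i => ∑ j, if deg j = i then (c j : ZMod p) * V p j else 0) ∈ B p) := ⟨_, rfl⟩
  obtain ⟨B0, hB0⟩ : ∃ B0 : Finset (ι → ℤ), B0 = Fintype.piFinset
      (fun j : ι => if j ∈ I then {(0 : ℤ)} else Finset.Icc (-(H : ℤ)) H) := ⟨_, rfl⟩
  have hcardT : Nat.card {c : ι → ℤ // (∀ j, |c j| ≤ H) ∧
      ∀ p ∈ S, (fun i => ∑ j, if deg j = i then (c j : ZMod p) * V p j else 0) ∈ B p} =
      Tf.card := by
    have h1 : {c : ι → ℤ | (∀ j, |c j| ≤ H) ∧
        ∀ p ∈ S, (fun i => ∑ j, if deg j = i then (c j : ZMod p) * V p j else 0) ∈ B p} =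
        (↑Tf : Set (ι → ℤ)) := by
      ext c
      rw [Finset.mem_coe, hTf, Finset.mem_filter, hBx, Fintype.mem_piFinset]
      constructor
      · rintro ⟨h1, h2⟩
        exact ⟨fun i => Finset.mem_Icc.mpr (abs_le.mp (h1 i)), h2⟩
      · rintro ⟨h1, h2⟩
        exact ⟨fun i => abs_le.mpr (Finset.mem_Icc.mp (h1 i)), h2⟩
    have h2 : Set.ncard {c : ι → ℤ | (∀ j, |c j| ≤ H) ∧
        ∀ p ∈ S, (fun i => ∑ j, if deg j = i then (c j : ZMod p) * V p j else 0) ∈ B p} =
        Tf.card := by
      rw [h1, Set.ncard_coe_finset]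
    exact h2
  have hcardB0 : (B0.card : ℝ) = (2 * H + 1) ^ (Fintype.card ι - d) := by
    rw [hB0, Fintype.card_piFinset]
    have h1 : ∏ j : ι, (if j ∈ I then {(0 : ℤ)} else Finset.Icc (-(H : ℤ)) H).card =
        ∏ j ∈ Iᶜ, (2 * H + 1) := by
      rw [← Finset.prod_compl_mul_prod I, mul_comm]
      rw [Finset.prod_eq_one (s := I), one_mul]
      · apply Finset.prod_congr rfl
        intro j hj
        rw [if_neg (Finset.mem_compl.1 hj), Int.card_Icc]
        omega
      · intro j hj
        rw [if_pos hj, Finset.card_singleton]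
    rw [h1, Finset.prod_const, Finset.card_compl, hIcard]
    push_cast
    ring
  -- the map
  have hmap : ∀ c ∈ Tf, (fun j => if j ∈ I then 0 else c j) ∈ B0 := by
    intro c hc
    rw [hTf, Finset.mem_filter, hBx, Fintype.mem_piFinset] at hc
    rw [hB0, Fintype.mem_piFinset]
    intro j
    by_cases hj : j ∈ I
    · simp only [if_pos hj, Finset.mem_singleton]
    · simp only [if_neg hj]
      exact hc.1 j
  have hfib : ∀ b ∈ B0, ((Tf.filter (fun c => (fun j => if j ∈ I then 0 else c j) = b)).card : ℝ) *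
      W ≤ K := by
    intro b hb
    obtain ⟨α, hα⟩ : ∃ α : ℕ → Fin d → ℤ, ∀ p i, α p i = lft (V p (J0 i)) := ⟨_, fun _ _ => rfl⟩
    obtain ⟨β, hβ⟩ : ∃ β : ℕ → Fin d → ℤ, ∀ p i, β p i =
        lft (∑ j, if deg j = i then (b j : ZMod p) * V p j else 0) - α p i * ((H : ℤ) + 1) :=
      ⟨_, fun _ _ => rfl⟩
    have hm := h d S' k X (2 * H + 1) η α β B hd hη hη1 (by
      intro p hp
      obtain ⟨h1, h2⟩ := hS' p hp
      obtain ⟨h3, h4, h5, h6⟩ := hS p h1
      refine ⟨h3, h4, fun i hdvd => ?_, h6⟩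
      have h7 : ((α p i : ℤ) : ZMod p) = 0 := (ZMod.intCast_zmod_eq_zero_iff_dvd _ p).2 hdvd
      rw [hα, lft_eq, ← h2] at h7
      exact (hJ p h1 i).2 h7)
    rw [hS'card] at hm
    obtain ⟨Nb, hNb⟩ : ∃ Nb : Finset (Fin d → ℕ), Nb =
        (Fintype.piFinset (fun _ : Fin d => Finset.Icc 1 (2 * H + 1))).filter
        (fun t => ∀ p ∈ S', (fun i => ((α p i * t i + β p i : ℤ) : ZMod p)) ∈ B p) := ⟨_, rfl⟩
    have hcardN : Nat.card {t : Fin d → ℕ // (∀ i, t i ∈ Icc 1 (2 * H + 1)) ∧
        ∀ p ∈ S', (fun i => ((α p i * t i + β p i : ℤ) : ZMod p)) ∈ B p} = Nb.card := by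
      have h1 : {t : Fin d → ℕ | (∀ i, t i ∈ Icc 1 (2 * H + 1)) ∧
          ∀ p ∈ S', (fun i => ((α p i * t i + β p i : ℤ) : ZMod p)) ∈ B p} =
          (↑Nb : Set (Fin d → ℕ)) := by
        ext t
        rw [Finset.mem_coe, hNb, Finset.mem_filter, Fintype.mem_piFinset]
        rfl
      have h2 : Set.ncard {t : Fin d → ℕ | (∀ i, t i ∈ Icc 1 (2 * H + 1)) ∧
          ∀ p ∈ S', (fun i => ((α p i * t i + β p i : ℤ) : ZMod p)) ∈ B p} = Nb.card := by
        rw [h1, Set.ncard_coe_finset]
      exact h2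
    rw [hcardN] at hm
    have hle : (Tf.filter (fun c => (fun j => if j ∈ I then 0 else c j) = b)).card ≤ Nb.card := by
      apply Finset.card_le_card_of_injOn
        (fun (c : ι → ℤ) (i : Fin d) => (c (J0 i) + (H : ℤ) + 1).toNat)
      · intro c hc
        rw [Finset.mem_coe, Finset.mem_filter, hTf, Finset.mem_filter, hBx,
          Fintype.mem_piFinset] at hc
        obtain ⟨⟨hc1, hc2⟩, hc3⟩ := hc
        rw [Finset.mem_coe, hNb, Finset.mem_filter, Fintype.mem_piFinset]
        have h2 : ∀ i, (((c (J0 i) + H + 1).toNat : ℕ) : ℤ) = c (J0 i) + H + 1 := fun i => by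
          have h1 := Finset.mem_Icc.mp (hc1 (J0 i))
          exact Int.toNat_of_nonneg (by omega)
        refine ⟨fun i => ?_, ?_⟩
        · have h1 := Finset.mem_Icc.mp (hc1 (J0 i))
          have h3 := h2 i
          rw [Finset.mem_Icc]
          beta_reduce
          omega
        intro p hp
        obtain ⟨hpS, hpJ⟩ := hS' p hp
        have h3 := hc2 p hpS
        have h4 : (fun i => (((α p i * (((c (J0 i) + (H : ℤ) + 1).toNat : ℕ) : ℤ) + β p i : ℤ)) :
            ZMod p)) = (fun i => ∑ j, if deg j = i then (c j : ZMod p) * V p j else 0) := by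
          funext i
          rw [h2 i, hβ, hα]
          have e1 : lft (V p (J0 i)) * (c (J0 i) + (H : ℤ) + 1) +
              (lft (∑ j, if deg j = i then (b j : ZMod p) * V p j else 0) -
                lft (V p (J0 i)) * ((H : ℤ) + 1)) =
              lft (V p (J0 i)) * c (J0 i) +
                lft (∑ j, if deg j = i then (b j : ZMod p) * V p j else 0) := by ring
          rw [e1, Int.cast_add, Int.cast_mul, lft_eq, lft_eq]
          rw [← Finset.add_sum_erase _ (fun j => if deg j = i then (c j : ZMod p) * V p j else 0)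
            (Finset.mem_univ (J0 i)), if_pos (hdeg i), mul_comm]
          congr 1
          rw [← Finset.add_sum_erase _ (fun j => if deg j = i then (b j : ZMod p) * V p j else 0)
            (Finset.mem_univ (J0 i))]
          have hb0 : b (J0 i) = 0 := by
            rw [← hc3]
            simp only [if_pos (hmemI i)]
          rw [hb0]
          simp only [Int.cast_zero, zero_mul, ite_self, zero_add]
          apply Finset.sum_congr rfl
          intro j hj
          by_cases hji : deg j = i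
          · rw [if_pos hji, if_pos hji]
            have hjI : j ∉ I := by
              intro hcon
              have := hofI j hcon
              rw [hji] at this
              exact Finset.ne_of_mem_erase hj this
            have : b j = c j := by
              rw [← hc3]
              simp only [if_neg hjI]
            rw [this]
          · rw [if_neg hji, if_neg hji]
        rw [h4]
        exact h3
      · intro c hc c' hc' hcc
        rw [Finset.mem_coe, Finset.mem_filter, hTf, Finset.mem_filter, hBx,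
          Fintype.mem_piFinset] at hc hc'
        obtain ⟨⟨hc1, _⟩, hc3⟩ := hc
        obtain ⟨⟨hd1, _⟩, hd3⟩ := hc'
        funext j
        by_cases hj : j ∈ I
        · rw [hofI j hj]
          have h1 := Finset.mem_Icc.mp (hc1 (J0 (deg j)))
          have h2 := Finset.mem_Icc.mp (hd1 (J0 (deg j)))
          have h3 : (c (J0 (deg j)) + (H : ℤ) + 1).toNat = (c' (J0 (deg j)) + (H : ℤ) + 1).toNat :=
            congrFun hcc (deg j)
          omega
        · have h5 := congrFun (hc3.trans hd3.symm) j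
          simp only [if_neg hj] at h5
          exact h5
    calc ((Tf.filter (fun c => (fun j => if j ∈ I then 0 else c j) = b)).card : ℝ) * W
        ≤ (Nb.card : ℝ) * W := by
          apply mul_le_mul_of_nonneg_right _ hW0
          exact_mod_cast hle
      _ ≤ K := by
          rw [hW, hK]
          refine hm.trans (le_of_eq ?_)
          push_cast
          ring
  rw [hcardT, Finset.card_eq_sum_card_fiberwise hmap]
  push_cast
  rw [Finset.sum_mul]
  calc ∑ b ∈ B0, ((Tf.filter (fun c => (fun j => if j ∈ I then 0 else c j) = b)).card : ℝ) * W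
      ≤ ∑ _b ∈ B0, K := Finset.sum_le_sum hfib
    _ = K * (2 * (H : ℝ) + 1) ^ (Fintype.card ι - d) := by
        rw [Finset.sum_const, nsmul_eq_mul, hcardB0, mul_comm]

end Pool.Agent.H819R2.DDLINB
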