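import Mathlib

/-!
# Symplectic forms on manifolds, products, and symplectic deformation equivalence
-/

open scoped Manifold ContDiff
open Set

noncomputable section

namespace Pool.Agent.H819R2.FourSix

section Forms

variable {E : Type*} [NormedAddCommGroup E] [NormedSpace ℝ E]
  {H : Type*} [TopologicalSpace H] {I : ModelWithCorners ℝ E H}
  {M : Type*} [TopologicalSpace M] [ChartedSpace H M]
  {E' : Type*} [NormedAddCommGroup E'] [NormedSpace ℝ E']
  {H' : Type*} [TopologicalSpace H'] {J : ModelWithCorners ℝ E' H'}
  {N : Type*} [TopologicalSpace N] [ChartedSpace H' N]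

variable (I M) in
/-- A (not necessarily smooth) differential 2-form on `M`: a continuous alternating bilinear form on
each tangent space. -/
abbrev TwoForm : Type _ := ∀ x : M, (TangentSpace I x) [⋀^Fin 2]→L[ℝ] ℝ

/-- The expression of a 2-form in the preferred chart at `x₀`: its pullback to the model vector
space under the inverse of the chart. -/
def TwoForm.inChart (η : TwoForm I M) (x₀ : M) (y : E) : E [⋀^Fin 2]→L[ℝ] ℝ :=
  (η ((extChartAt I x₀).symm y)).compContinuousLinearMap
    (mfderiv 𝓘(ℝ, E) I (extChartAt I x₀).symm y)

/-- A 2-form is symplectic if in all charts it is smooth and closed, and if it is nondegenerate at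
every point. -/
structure IsSymplectic (η : TwoForm I M) : Prop where
  smooth : ∀ x₀ : M, ContDiffOn ℝ ∞ (TwoForm.inChart η x₀) (extChartAt I x₀).target
  closed : ∀ x₀ : M, ∀ y ∈ (extChartAt I x₀).target, extDeriv (TwoForm.inChart η x₀) y = 0
  nondegenerate : ∀ (x : M) (v : TangentSpace I x), (∀ w : TangentSpace I x, η x ![v, w] = 0) → v = 0

/-- The pullback of a 2-form under a map. -/
def pullback (f : M → N) (η : TwoForm J N) : TwoForm I M := fun x =>
  (η (f x)).compContinuousLinearMap (mfderiv I J f x)

/-- The sum of two forms. -/
def addForm (η η' : TwoForm I M) : TwoForm I M := fun x => η x + η' x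

/-- The pullback of a form on the first factor of a product. -/
def pullFst (η : TwoForm I M) : TwoForm (I.prod J) (M × N) :=
  pullback (I := I.prod J) (M := M × N) Prod.fst η

/-- The pullback of a form on the second factor of a product. -/
def pullSnd (σ : TwoForm J N) : TwoForm (I.prod J) (M × N) :=
  pullback (I := I.prod J) (M := M × N) Prod.snd σ

/-- The sum `pr₁^* η + pr₂^* σ` on a product. -/
def prodForm (η : TwoForm I M) (σ : TwoForm J N) : TwoForm (I.prod J) (M × N) :=
  addForm (pullFst η) (pullSnd σ)

/-- `(M, η₀)` and `(N, η₁)` are symplectically deformation equivalent: there are a diffeomorphism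
`φ : M → N` and a smooth family of symplectic forms `Ω t`, `0 ≤ t ≤ 1`, on `M` from `η₀` to
`φ^* η₁`. -/
def DeformationEquivalent (η₀ : TwoForm I M) (η₁ : TwoForm J N) : Prop :=
  ∃ (φ : M ≃ₘ^∞⟮I, J⟯ N) (Ω : ℝ → TwoForm I M),
    (∀ t ∈ Icc (0 : ℝ) 1, IsSymplectic (Ω t)) ∧
    (∀ x₀ : M, ContDiffOn ℝ ∞ (fun p : ℝ × E => TwoForm.inChart (Ω p.1) x₀ p.2)
      (Icc (0 : ℝ) 1 ×ˢ (extChartAt I x₀).target)) ∧
    Ω 0 = η₀ ∧ Ω 1 = pullback φ η₁

end Forms

/-- The 2-sphere (the unit sphere of Euclidean 3-space), with its standard smooth structure. -/
abbrev S2 : Type := Metric.sphere (0 : EuclideanSpace ℝ (Fin 3)) 1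

/-- A symplectic manifold: a smooth manifold without boundary with a symplectic form. -/
structure SymplecticManifold where
  /-- the model vector space -/
  E : Type
  [normed : NormedAddCommGroup E]
  [space : NormedSpace ℝ E]
  /-- the model space -/
  H : Type
  [topH : TopologicalSpace H]
  /-- the model -/
  I : ModelWithCorners ℝ E H
  [boundaryless : I.Boundaryless]
  /-- the underlying space -/
  carrier : Type
  [top : TopologicalSpace carrier]
  [charted : ChartedSpace H carrier]
  [manifold : IsManifold I ∞ carrier]
  /-- the symplectic form -/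
  form : TwoForm I carrier
  symplectic : IsSymplectic form

namespace SymplecticManifold

attribute [instance] normed space topH boundaryless top charted manifold

/-- `A` is closed (compact, connected and Hausdorff; it has no boundary) of dimension `d`. -/
structure IsClosedOfDim (A : SymplecticManifold) (d : ℕ) : Prop where
  compact : CompactSpace A.carrier
  connected : ConnectedSpace A.carrier
  hausdorff : T2Space A.carrier
  dim : Module.finrank ℝ A.E = d

/-- There is a diffeomorphism `φ : A → B` which pulls back the symplectic form of `B` to minus the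
symplectic form of `A`. -/
def AntiIso (A B : SymplecticManifold) : Prop :=
  ∃ φ : A.carrier ≃ₘ^∞⟮A.I, B.I⟯ B.carrier, ∀ x, pullback φ B.form x = - A.form x

/-- Symplectic deformation equivalence of symplectic manifolds. -/
def DefEquiv (A B : SymplecticManifold) : Prop := DeformationEquivalent A.form B.form

end SymplecticManifold

/-- Area forms on the 2-sphere (of either sign). -/
structure AreaForm where
  /-- the form -/
  form : TwoForm (𝓡 2) S2
  symplectic : IsSymplectic form

/-- The 2-sphere with an area form, as a symplectic manifold. -/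
def AreaForm.sphere (σ : AreaForm) : SymplecticManifold where
  E := EuclideanSpace ℝ (Fin 2)
  H := EuclideanSpace ℝ (Fin 2)
  I := 𝓡 2
  carrier := S2
  form := σ.form
  symplectic := σ.symplectic

end Pool.Agent.H819R2.FourSix
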