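import Mathlib
import Pool.Agent.H819R2.FourSixDefs

/-!
# Pulling back forms from a manifold to a vector space
-/

open Set Filter
open scoped ContDiff Manifold Topology

noncomputable section

namespace Pool.Agent.H819R2.FourSix

lemma two_le_infty : (2 : ℕ∞ω) ≤ ∞ := WithTop.coe_le_coe.mpr le_top

lemma one_add_one_le_infty : (1 : ℕ∞ω) + 1 ≤ ∞ := by
  rw [one_add_one_eq_two]; exact two_le_infty

section Eval

variable {E : Type*} [NormedAddCommGroup E] [NormedSpace ℝ E]

/-- first curry -/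
def cur1 : (E [⋀^Fin 2]→L[ℝ] ℝ) →L[ℝ] (E →L[ℝ] E [⋀^Fin 1]→L[ℝ] ℝ) :=
  (ContinuousAlternatingMap.curryLeftLI (𝕜 := ℝ) (E := E) (F := ℝ) (n := 1)).toContinuousLinearMap

/-- second curry -/
def cur0 : (E [⋀^Fin 1]→L[ℝ] ℝ) →L[ℝ] (E →L[ℝ] E [⋀^Fin 0]→L[ℝ] ℝ) :=
  (ContinuousAlternatingMap.curryLeftLI (𝕜 := ℝ) (E := E) (F := ℝ) (n := 0)).toContinuousLinearMap

/-- evaluation of alternating forms is smooth -/
lemma contDiff_ev {n : ℕ∞ω} :
    ContDiff ℝ n (fun p : (E [⋀^Fin 2]→L[ℝ] ℝ) × E × E => p.1 ![p.2.1, p.2.2]) := by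
  have h : (fun p : (E [⋀^Fin 2]→L[ℝ] ℝ) × E × E => p.1 ![p.2.1, p.2.2]) =
      fun p => ContinuousAlternatingMap.apply ℝ E ℝ ![] (cur0 (cur1 p.1 p.2.1) p.2.2) := by
    funext p
    simp only [ContinuousAlternatingMap.apply_apply]
    rfl
  rw [h]
  apply ContDiff.comp (ContinuousLinearMap.contDiff _)
  apply ContDiff.clm_apply
  · apply ContDiff.comp (ContinuousLinearMap.contDiff _)
    apply ContDiff.clm_apply
    · apply ContDiff.comp (ContinuousLinearMap.contDiff _)
      exact contDiff_fst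
    · exact contDiff_fst.comp contDiff_snd
  · exact contDiff_snd.comp contDiff_snd

end Eval

section Pull

variable {E : Type*} [NormedAddCommGroup E] [NormedSpace ℝ E]
  {H : Type*} [TopologicalSpace H] {I : ModelWithCorners ℝ E H}
  {M : Type*} [TopologicalSpace M] [ChartedSpace H M]
  {V : Type*} [NormedAddCommGroup V] [NormedSpace ℝ V]

/-- the pulled back form as a form on a vector space -/
def pullV (g : V → M) (η : TwoForm I M) (v : V) : V [⋀^Fin 2]→L[ℝ] ℝ :=
  pullback (I := 𝓘(ℝ, V)) (J := I) g η v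

lemma ev_congr (η : TwoForm I M) {x y : M} (h : x = y) (a : Fin 2 → E) :
    (show E [⋀^Fin 2]→L[ℝ] ℝ from η x) a = (show E [⋀^Fin 2]→L[ℝ] ℝ from η y) a := by
  subst h; rfl

lemma pullV_apply (g : V → M) (η : TwoForm I M) (v : V) (a : Fin 2 → V) :
    pullV g η v a = (show E [⋀^Fin 2]→L[ℝ] ℝ from η (g v))
      (fun i => (show V →L[ℝ] E from mfderiv 𝓘(ℝ, V) I g v) (a i)) := rfl

variable [I.Boundaryless] [IsManifold I ∞ M]

lemma pullV_eq (g : V → M) (η : TwoForm I M) {v : V} (x₀ : M) (hv : g v ∈ (extChartAt I x₀).source)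
    (hg : MDifferentiableAt 𝓘(ℝ, V) I g v) :
    pullV g η v = (TwoForm.inChart η x₀ (extChartAt I x₀ (g v))).compContinuousLinearMap
      (fderiv ℝ (fun v => extChartAt I x₀ (g v)) v) := by
  have hI1 : IsManifold I 1 M := IsManifold.of_le (n := ∞) (by norm_num)
  have hsrc : g v ∈ (chartAt H x₀).source := by rwa [extChartAt_source] at hv
  have htar : extChartAt I x₀ (g v) ∈ (extChartAt I x₀).target := (extChartAt I x₀).map_source hv
  -- differentiability facts
  have h1 : MDifferentiableAt I 𝓘(ℝ, E) (extChartAt I x₀) (g v) := mdifferentiableAt_extChartAt hsrc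
  have h2 : MDifferentiableAt 𝓘(ℝ, V) 𝓘(ℝ, E) (fun v => extChartAt I x₀ (g v)) v := h1.comp v hg
  have h3 : MDifferentiableAt 𝓘(ℝ, E) I (extChartAt I x₀).symm (extChartAt I x₀ (g v)) := by
    have := mdifferentiableOn_extChartAt_symm (I := I) (x := x₀) _ htar
    exact this.mdifferentiableAt ((isOpen_extChartAt_target x₀).mem_nhds htar)
  have h4 : g =ᶠ[𝓝 v] (extChartAt I x₀).symm ∘ (fun v => extChartAt I x₀ (g v)) := by
    have hc : ContinuousAt g v := hg.continuousAt
    have : ∀ᶠ w in 𝓝 v, g w ∈ (extChartAt I x₀).source :=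
      hc.eventually_mem (extChartAt_source_mem_nhds' hv)
    filter_upwards [this] with w hw
    exact ((extChartAt I x₀).left_inv hw).symm
  have h5 : mfderiv 𝓘(ℝ, V) I g v = mfderiv 𝓘(ℝ, V) I
      ((extChartAt I x₀).symm ∘ (fun v => extChartAt I x₀ (g v))) v := h4.mfderiv_eq
  have h6 := mfderiv_comp v h3 h2
  ext a
  rw [pullV_apply]
  have h7 : ∀ w : V, (show V →L[ℝ] E from mfderiv 𝓘(ℝ, V) I g v) w =
      (show E →L[ℝ] E from mfderiv 𝓘(ℝ, E) I (extChartAt I x₀).symm (extChartAt I x₀ (g v)))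
        (fderiv ℝ (fun v => extChartAt I x₀ (g v)) v w) := by
    intro w
    have h8 : (show V →L[ℝ] E from mfderiv 𝓘(ℝ, V) I g v) w =
      (show V →L[ℝ] E from mfderiv 𝓘(ℝ, V) I
        ((extChartAt I x₀).symm ∘ (fun v => extChartAt I x₀ (g v))) v) w := by
      exact congrArg (fun L : V →L[ℝ] E => L w) h5
    rw [h8]
    have h9 := congrArg (fun L : V →L[ℝ] E => L w) h6
    refine h9.trans ?_
    rw [← mfderiv_eq_fderiv]
    rfl
  have h10 : (fun i => (show V →L[ℝ] E from mfderiv 𝓘(ℝ, V) I g v) (a i)) =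
    fun i => (show E →L[ℝ] E from mfderiv 𝓘(ℝ, E) I (extChartAt I x₀).symm (extChartAt I x₀ (g v)))
        (fderiv ℝ (fun v => extChartAt I x₀ (g v)) v (a i)) := by
    funext i; exact h7 (a i)
  rw [h10]
  exact ev_congr η ((extChartAt I x₀).left_inv hv).symm _

omit [I.Boundaryless] in
lemma chart_contDiffAt {g : V → M} (hg : ContMDiff 𝓘(ℝ, V) I ∞ g) (x₀ : M) {v : V}
    (hv : g v ∈ (extChartAt I x₀).source) :
    ContDiffAt ℝ ∞ (fun v => extChartAt I x₀ (g v)) v := by
  rw [← contMDiffAt_iff_contDiffAt]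
  rw [extChartAt_source] at hv
  exact (contMDiffAt_extChartAt' (n := ∞) hv).comp v hg.contMDiffAt

lemma pullV_eventually {g : V → M} (hg : ContMDiff 𝓘(ℝ, V) I ∞ g) (x₀ : M) {v₀ : V}
    (hv : g v₀ ∈ (extChartAt I x₀).source) :
    ∀ᶠ v in 𝓝 v₀, g v ∈ (extChartAt I x₀).source ∧ ∀ η : TwoForm I M, pullV g η v =
      (TwoForm.inChart η x₀ (extChartAt I x₀ (g v))).compContinuousLinearMap
      (fderiv ℝ (fun v => extChartAt I x₀ (g v)) v) := by
  have hc : ContinuousAt g v₀ := hg.continuous.continuousAt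
  have : ∀ᶠ w in 𝓝 v₀, g w ∈ (extChartAt I x₀).source :=
    hc.eventually_mem (extChartAt_source_mem_nhds' hv)
  filter_upwards [this] with v hv
  exact ⟨hv, fun η => pullV_eq g η x₀ hv ((hg v).mdifferentiableAt (by norm_num))⟩

lemma pullV_differentiableAt {g : V → M} (hg : ContMDiff 𝓘(ℝ, V) I ∞ g) {η : TwoForm I M}
    (hη : ∀ x₀ : M, ContDiffOn ℝ ∞ (TwoForm.inChart η x₀) (extChartAt I x₀).target) (v : V) :
    DifferentiableAt ℝ (pullV g η) v := by
  have hv : g v ∈ (extChartAt I (g v)).source := mem_extChartAt_source (g v)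
  have h1 : pullV g η =ᶠ[𝓝 v] fun w =>
      (TwoForm.inChart η (g v) (extChartAt I (g v) (g w))).compContinuousLinearMap
      (fderiv ℝ (fun w => extChartAt I (g v) (g w)) w) := by
    filter_upwards [pullV_eventually hg (g v) hv] with w hw
    exact hw.2 η
  rw [h1.differentiableAt_iff]
  have h2 := chart_contDiffAt hg (g v) hv
  have h3 : ContDiffAt ℝ ∞ (TwoForm.inChart η (g v)) (extChartAt I (g v) (g v)) :=
    (hη (g v)).contDiffAt ((isOpen_extChartAt_target (g v)).mem_nhds
      ((extChartAt I (g v)).map_source hv))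
  apply DifferentiableAt.continuousAlternatingMapCompContinuousLinearMap
  · exact (h3.differentiableAt (by norm_num)).comp v (h2.differentiableAt (by norm_num))
  · exact (h2.fderiv_right (m := 1) one_add_one_le_infty).differentiableAt (by norm_num)

lemma pullV_closed {g : V → M} (hg : ContMDiff 𝓘(ℝ, V) I ∞ g) {η : TwoForm I M}
    (hη : IsSymplectic η) (v : V) : extDeriv (pullV g η) v = 0 := by
  have hv : g v ∈ (extChartAt I (g v)).source := mem_extChartAt_source (g v)
  have h1 : pullV g η =ᶠ[𝓝 v] fun w =>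
      (TwoForm.inChart η (g v) (extChartAt I (g v) (g w))).compContinuousLinearMap
      (fderiv ℝ (fun w => extChartAt I (g v) (g w)) w) := by
    filter_upwards [pullV_eventually hg (g v) hv] with w hw
    exact hw.2 η
  rw [h1.extDeriv_eq]
  have h2 := chart_contDiffAt hg (g v) hv
  have htar := (extChartAt I (g v)).map_source hv
  have h3 : ContDiffAt ℝ ∞ (TwoForm.inChart η (g v)) (extChartAt I (g v) (g v)) :=
    (hη.smooth (g v)).contDiffAt ((isOpen_extChartAt_target (g v)).mem_nhds htar)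
  have h6 := extDeriv_pullback (x := v)
    (f := fun w => extChartAt I (g v) (g w)) (r := 2) (h3.differentiableAt (by norm_num))
    (h2.of_le two_le_infty) (by simp [minSmoothness])
  rw [h6, hη.closed (g v) _ htar]
  ext a
  simp

lemma pullV_eval_contDiff {g : V → M} (hg : ContMDiff 𝓘(ℝ, V) I ∞ g) {η : TwoForm I M}
    (hη : ∀ x₀ : M, ContDiffOn ℝ ∞ (TwoForm.inChart η x₀) (extChartAt I x₀).target) (a b : V) :
    ContDiff ℝ 1 (fun v => pullV g η v ![a, b]) := by
  rw [contDiff_iff_contDiffAt]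
  intro v
  have hv : g v ∈ (extChartAt I (g v)).source := mem_extChartAt_source (g v)
  have h2 := chart_contDiffAt hg (g v) hv
  have htar := (extChartAt I (g v)).map_source hv
  have h3 : ContDiffAt ℝ ∞ (TwoForm.inChart η (g v)) (extChartAt I (g v) (g v)) :=
    (hη (g v)).contDiffAt ((isOpen_extChartAt_target (g v)).mem_nhds htar)
  have h1 : (fun v => pullV g η v ![a, b]) =ᶠ[𝓝 v] fun w =>
      (TwoForm.inChart η (g v) (extChartAt I (g v) (g w)))
        ![fderiv ℝ (fun w => extChartAt I (g v) (g w)) w a,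
          fderiv ℝ (fun w => extChartAt I (g v) (g w)) w b] := by
    filter_upwards [pullV_eventually hg (g v) hv] with w hw
    rw [hw.2 η, ContinuousAlternatingMap.compContinuousLinearMap_apply]
    congr 1
    funext i; fin_cases i <;> rfl
  refine ContDiffAt.congr_of_eventuallyEq ?_ h1
  have h4 : ContDiffAt ℝ 1 (fun w => fderiv ℝ (fun w => extChartAt I (g v) (g w)) w) v :=
    h2.fderiv_right one_add_one_le_infty
  have h5 : ContDiffAt ℝ 1 (fun w => TwoForm.inChart η (g v) (extChartAt I (g v) (g w))) v :=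
    (h3.of_le (by norm_num)).comp v (h2.of_le (by norm_num))
  exact contDiff_ev.contDiffAt.comp v (h5.prodMk ((h4.clm_apply contDiffAt_const).prodMk
    (h4.clm_apply contDiffAt_const)))

/-- joint continuity in time and space -/
lemma pullV_eval_continuousOn {g : V → M} (hg : ContMDiff 𝓘(ℝ, V) I ∞ g) {Ω : ℝ → TwoForm I M}
    (hΩ : ∀ x₀ : M, ContDiffOn ℝ ∞ (fun p : ℝ × E => TwoForm.inChart (Ω p.1) x₀ p.2)
      (Icc (0 : ℝ) 1 ×ˢ (extChartAt I x₀).target)) (a b : V) :
    ContinuousOn (fun p : ℝ × V => pullV g (Ω p.1) p.2 ![a, b]) (Icc (0 : ℝ) 1 ×ˢ univ) := by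
  rintro ⟨t, v⟩ ⟨ht, -⟩
  have hv : g v ∈ (extChartAt I (g v)).source := mem_extChartAt_source (g v)
  have h2 := chart_contDiffAt hg (g v) hv
  have htar := (extChartAt I (g v)).map_source hv
  have h3 : ContinuousWithinAt (fun p : ℝ × E => TwoForm.inChart (Ω p.1) (g v) p.2)
      (Icc (0 : ℝ) 1 ×ˢ (extChartAt I (g v)).target) (t, extChartAt I (g v) (g v)) :=
    (hΩ (g v)).continuousOn _ ⟨ht, htar⟩
  have hev := pullV_eventually hg (g v) hv
  have hev2 : ∀ᶠ p : ℝ × V in 𝓝 (t, v), g p.2 ∈ (extChartAt I (g v)).source ∧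
      ∀ η : TwoForm I M, pullV g η p.2 =
      (TwoForm.inChart η (g v) (extChartAt I (g v) (g p.2))).compContinuousLinearMap
      (fderiv ℝ (fun v' => extChartAt I (g v) (g v')) p.2) :=
    (continuous_snd.tendsto (t, v)).eventually hev
  have h1 : (fun p : ℝ × V => pullV g (Ω p.1) p.2 ![a, b]) =ᶠ[𝓝[Icc (0 : ℝ) 1 ×ˢ univ] (t, v)]
      fun p =>
      (TwoForm.inChart (Ω p.1) (g v) (extChartAt I (g v) (g p.2)))
        ![fderiv ℝ (fun w => extChartAt I (g v) (g w)) p.2 a,
          fderiv ℝ (fun w => extChartAt I (g v) (g w)) p.2 b] := by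
    filter_upwards [hev2.filter_mono nhdsWithin_le_nhds] with p hp
    rw [hp.2, ContinuousAlternatingMap.compContinuousLinearMap_apply]
    congr 1
    funext i; fin_cases i <;> rfl
  refine ContinuousWithinAt.congr_of_eventuallyEq ?_ h1 ?_
  · have h4 : ContinuousWithinAt (fun p : ℝ × V => fderiv ℝ (fun w => extChartAt I (g v) (g w)) p.2)
        (Icc (0 : ℝ) 1 ×ˢ univ) (t, v) := by
      have := (h2.fderiv_right (m := 1) one_add_one_le_infty).continuousAt
      exact (this.comp (f := fun p : ℝ × V => p.2) (x := (t, v))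
        continuous_snd.continuousAt).continuousWithinAt
    have h5 : ContinuousWithinAt (fun p : ℝ × V => TwoForm.inChart (Ω p.1) (g v)
        (extChartAt I (g v) (g p.2))) (Icc (0 : ℝ) 1 ×ˢ univ) (t, v) := by
      have h6 : ContinuousWithinAt (fun p : ℝ × V => (p.1, extChartAt I (g v) (g p.2)))
          (Icc (0 : ℝ) 1 ×ˢ univ) (t, v) := by
        apply ContinuousAt.continuousWithinAt
        apply ContinuousAt.prodMk continuous_fst.continuousAt
        exact h2.continuousAt.comp (f := fun p : ℝ × V => p.2) (x := (t, v))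
          continuous_snd.continuousAt
      have h7 : ∀ᶠ p : ℝ × V in 𝓝[Icc (0 : ℝ) 1 ×ˢ univ] (t, v),
          (p.1, extChartAt I (g v) (g p.2)) ∈ (Icc (0 : ℝ) 1 ×ˢ (extChartAt I (g v)).target) := by
        filter_upwards [hev2.filter_mono nhdsWithin_le_nhds, self_mem_nhdsWithin] with p hp hp2
        exact ⟨hp2.1, (extChartAt I (g v)).map_source hp.1⟩
      exact h3.tendsto.comp (tendsto_nhdsWithin_iff.mpr ⟨h6, h7⟩)
    have h8 := (contDiff_ev (E := E) (n := 0)).continuous.continuousAt.comp_continuousWithinAt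
      (h5.prodMk ((h4.clm_apply (continuousWithinAt_const (b := a))).prodMk
        (h4.clm_apply (continuousWithinAt_const (b := b)))))
    exact h8
  · have hp := hev.self_of_nhds
    rw [hp.2, ContinuousAlternatingMap.compContinuousLinearMap_apply]
    congr 1
    funext i; fin_cases i <;> rfl

end Pull

end Pool.Agent.H819R2.FourSix
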