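import Mathlib
import Pool.Agent.H819R2.Pull

/-!
# Functoriality of pullbacks, symplectic forms on products
-/

open Set Filter
open scoped ContDiff Manifold Topology

noncomputable section

namespace Pool.Agent.H819R2.FourSix

variable {E : Type*} [NormedAddCommGroup E] [NormedSpace ℝ E]
  {H : Type*} [TopologicalSpace H] {I : ModelWithCorners ℝ E H}
  {M : Type*} [TopologicalSpace M] [ChartedSpace H M]
  {E' : Type*} [NormedAddCommGroup E'] [NormedSpace ℝ E']
  {H' : Type*} [TopologicalSpace H'] {J : ModelWithCorners ℝ E' H'}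
  {N : Type*} [TopologicalSpace N] [ChartedSpace H' N]
  {V : Type*} [NormedAddCommGroup V] [NormedSpace ℝ V]

lemma mfderiv_comp_apply' {f : M → N} {g : V → M} {v : V}
    (hf : MDifferentiableAt I J f (g v)) (hg : MDifferentiableAt 𝓘(ℝ, V) I g v) (w : V) :
    (show V →L[ℝ] E' from mfderiv 𝓘(ℝ, V) J (f ∘ g) v) w =
      (show E →L[ℝ] E' from mfderiv I J f (g v)) ((show V →L[ℝ] E from mfderiv 𝓘(ℝ, V) I g v) w) := by
  have h := mfderiv_comp v hf hg
  exact congrArg (fun L : V →L[ℝ] E' => L w) h

lemma pullV_pullback {f : M → N} {g : V → M} {v : V} (η : TwoForm J N)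
    (hf : MDifferentiableAt I J f (g v)) (hg : MDifferentiableAt 𝓘(ℝ, V) I g v) :
    pullV g (pullback (I := I) (J := J) f η) v = pullV (f ∘ g) η v := by
  ext a
  rw [pullV_apply, pullV_apply]
  have h2 : (fun i => (show V →L[ℝ] E' from mfderiv 𝓘(ℝ, V) J (f ∘ g) v) (a i)) =
    fun i => (show E →L[ℝ] E' from mfderiv I J f (g v))
      ((show V →L[ℝ] E from mfderiv 𝓘(ℝ, V) I g v) (a i)) := by
    funext i; exact mfderiv_comp_apply' hf hg (a i)
  rw [h2]
  rfl

lemma pullV_add (g : V → M) (η η' : TwoForm I M) (v : V) :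
    pullV g (η + η') v = pullV g η v + pullV g η' v := rfl

lemma pullV_smul (g : V → M) (c : ℝ) (η : TwoForm I M) (v : V) :
    pullV g (c • η) v = c • pullV g η v := rfl

lemma prodForm_eq (η : TwoForm I M) (σ : TwoForm J N) : prodForm η σ =
    pullback (I := I.prod J) (J := I) (Prod.fst : M × N → M) η +
    pullback (I := I.prod J) (J := J) (Prod.snd : M × N → N) σ := rfl

lemma pullV_prodForm {g : V → M × N} {v : V} (η : TwoForm I M) (σ : TwoForm J N)
    (hg : MDifferentiableAt 𝓘(ℝ, V) (I.prod J) g v) :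
    pullV g (prodForm η σ) v = pullV (fun v => (g v).1) η v + pullV (fun v => (g v).2) σ v := by
  rw [prodForm_eq, pullV_add, pullV_pullback η mdifferentiableAt_fst hg,
    pullV_pullback σ mdifferentiableAt_snd hg]
  rfl

lemma inChart_smul (c : ℝ) (η : TwoForm I M) (x₀ : M) (y : E) :
    TwoForm.inChart (c • η) x₀ y = c • TwoForm.inChart η x₀ y := rfl

lemma IsSymplectic.smul [I.Boundaryless] {c : ℝ} (hc : c ≠ 0) {η : TwoForm I M}
    (hη : IsSymplectic η) : IsSymplectic (c • η) where
  smooth x₀ := by
    have : TwoForm.inChart (c • η) x₀ = fun y => c • TwoForm.inChart η x₀ y := by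
      funext y; exact inChart_smul c η x₀ y
    rw [this]
    exact (hη.smooth x₀).const_smul c
  closed x₀ y hy := by
    have : TwoForm.inChart (c • η) x₀ = c • TwoForm.inChart η x₀ := by
      funext y; exact inChart_smul c η x₀ y
    rw [this, extDeriv_smul, hη.closed x₀ y hy, smul_zero]
  nondegenerate x v hv := by
    apply hη.nondegenerate x v
    intro w
    have := hv w
    have h2 : c * (η x ![v, w]) = 0 := this
    exact (mul_eq_zero.mp h2).resolve_left hc

section Prod

variable [I.Boundaryless] [IsManifold I ∞ M] [J.Boundaryless] [IsManifold J ∞ N]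

lemma inChart_prodForm (η : TwoForm I M) (σ : TwoForm J N) (p₀ : M × N) {y : E × E'}
    (hy : y ∈ (extChartAt (I.prod J) p₀).target) :
    TwoForm.inChart (prodForm η σ) p₀ y =
      (TwoForm.inChart η p₀.1 y.1).compContinuousLinearMap (ContinuousLinearMap.fst ℝ E E') +
      (TwoForm.inChart σ p₀.2 y.2).compContinuousLinearMap (ContinuousLinearMap.snd ℝ E E') := by
  have hI1 : IsManifold I 1 M := IsManifold.of_le (n := ∞) (by norm_num)
  have hJ1 : IsManifold J 1 N := IsManifold.of_le (n := ∞) (by norm_num)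
  have hy1 : y.1 ∈ (extChartAt I p₀.1).target := by
    rw [extChartAt_prod] at hy; exact hy.1
  have hy2 : y.2 ∈ (extChartAt J p₀.2).target := by
    rw [extChartAt_prod] at hy; exact hy.2
  have hd : MDifferentiableAt 𝓘(ℝ, E × E') (I.prod J) (extChartAt (I.prod J) p₀).symm y :=
    (mdifferentiableOn_extChartAt_symm (I := I.prod J) (x := p₀) _ hy).mdifferentiableAt
      ((isOpen_extChartAt_target p₀).mem_nhds hy)
  have hd1 : MDifferentiableAt 𝓘(ℝ, E) I (extChartAt I p₀.1).symm y.1 :=
    (mdifferentiableOn_extChartAt_symm (I := I) (x := p₀.1) _ hy1).mdifferentiableAt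
      ((isOpen_extChartAt_target p₀.1).mem_nhds hy1)
  have hd2 : MDifferentiableAt 𝓘(ℝ, E') J (extChartAt J p₀.2).symm y.2 :=
    (mdifferentiableOn_extChartAt_symm (I := J) (x := p₀.2) _ hy2).mdifferentiableAt
      ((isOpen_extChartAt_target p₀.2).mem_nhds hy2)
  have h0 : TwoForm.inChart (prodForm η σ) p₀ y =
      pullV (V := E × E') (extChartAt (I.prod J) p₀).symm (prodForm η σ) y := rfl
  rw [h0, pullV_prodForm η σ hd]
  have e1 : (fun v : E × E' => ((extChartAt (I.prod J) p₀).symm v).1) =
      (extChartAt I p₀.1).symm ∘ Prod.fst := by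
    funext v; rw [extChartAt_prod]; rfl
  have e2 : (fun v : E × E' => ((extChartAt (I.prod J) p₀).symm v).2) =
      (extChartAt J p₀.2).symm ∘ Prod.snd := by
    funext v; rw [extChartAt_prod]; rfl
  rw [e1, e2]
  congr 1
  · ext a
    rw [pullV_apply]
    have h2 : (fun i => (show (E × E') →L[ℝ] E from mfderiv 𝓘(ℝ, E × E') I
        ((extChartAt I p₀.1).symm ∘ Prod.fst) y) (a i)) =
      fun i => (show E →L[ℝ] E from mfderiv 𝓘(ℝ, E) I (extChartAt I p₀.1).symm y.1) ((a i).1) := by
      funext i
      have hf : HasFDerivAt (Prod.fst : E × E' → E) (ContinuousLinearMap.fst ℝ E E') y :=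
        hasFDerivAt_fst
      have := mfderiv_comp_apply' (I := 𝓘(ℝ, E)) (J := I) (f := (extChartAt I p₀.1).symm)
        (g := (Prod.fst : E × E' → E)) (v := y) hd1 hf.differentiableAt.mdifferentiableAt (a i)
      rw [this]
      congr 1
      rw [mfderiv_eq_fderiv, hf.fderiv]
      rfl
    rw [h2]
    rfl
  · ext a
    rw [pullV_apply]
    have h2 : (fun i => (show (E × E') →L[ℝ] E' from mfderiv 𝓘(ℝ, E × E') J
        ((extChartAt J p₀.2).symm ∘ Prod.snd) y) (a i)) =
      fun i => (show E' →L[ℝ] E' from mfderiv 𝓘(ℝ, E') J (extChartAt J p₀.2).symm y.2) ((a i).2) := by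
      funext i
      have hf : HasFDerivAt (Prod.snd : E × E' → E') (ContinuousLinearMap.snd ℝ E E') y :=
        hasFDerivAt_snd
      have := mfderiv_comp_apply' (I := 𝓘(ℝ, E')) (J := J) (f := (extChartAt J p₀.2).symm)
        (g := (Prod.snd : E × E' → E')) (v := y) hd2 hf.differentiableAt.mdifferentiableAt (a i)
      rw [this]
      congr 1
      rw [mfderiv_eq_fderiv, hf.fderiv]
      rfl
    rw [h2]
    rfl

lemma contDiffOn_compCLM {F F' : Type*} [NormedAddCommGroup F] [NormedSpace ℝ F]
    [NormedAddCommGroup F'] [NormedSpace ℝ F'] (L : F →L[ℝ] F') {s : Set F}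
    {w : F → F' [⋀^Fin 2]→L[ℝ] ℝ} (hw : ContDiffOn ℝ ∞ w s) :
    ContDiffOn ℝ ∞ (fun y => (w y).compContinuousLinearMap L) s :=
  (ContinuousAlternatingMap.compContinuousLinearMapCLM (ι := Fin 2) L :
    (F' [⋀^Fin 2]→L[ℝ] ℝ) →L[ℝ] (F [⋀^Fin 2]→L[ℝ] ℝ)).contDiff.comp_contDiffOn hw

lemma eval_zero_right {F : Type*} [NormedAddCommGroup F] [NormedSpace ℝ F]
    (w : F [⋀^Fin 2]→L[ℝ] ℝ) (a : F) : w ![a, 0] = 0 := w.map_coord_zero 1 rfl

lemma IsSymplectic.prodForm {η : TwoForm I M} {σ : TwoForm J N} (hη : IsSymplectic η)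
    (hσ : IsSymplectic σ) : IsSymplectic (prodForm η σ) where
  smooth p₀ := by
    have hsub1 : MapsTo Prod.fst (extChartAt (I.prod J) p₀).target (extChartAt I p₀.1).target := by
      intro y hy; rw [extChartAt_prod] at hy; exact hy.1
    have hsub2 : MapsTo Prod.snd (extChartAt (I.prod J) p₀).target (extChartAt J p₀.2).target := by
      intro y hy; rw [extChartAt_prod] at hy; exact hy.2
    have h1 : ContDiffOn ℝ ∞ (fun y : E × E' => (TwoForm.inChart η p₀.1 y.1).compContinuousLinearMap
        (ContinuousLinearMap.fst ℝ E E')) (extChartAt (I.prod J) p₀).target :=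
      contDiffOn_compCLM _ ((hη.smooth p₀.1).comp contDiffOn_fst hsub1)
    have h2 : ContDiffOn ℝ ∞ (fun y : E × E' => (TwoForm.inChart σ p₀.2 y.2).compContinuousLinearMap
        (ContinuousLinearMap.snd ℝ E E')) (extChartAt (I.prod J) p₀).target :=
      contDiffOn_compCLM _ ((hσ.smooth p₀.2).comp contDiffOn_snd hsub2)
    exact (h1.add h2).congr fun y hy => inChart_prodForm η σ p₀ hy
  closed p₀ y hy := by
    have hy1 : y.1 ∈ (extChartAt I p₀.1).target := by
      rw [extChartAt_prod] at hy; exact hy.1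
    have hy2 : y.2 ∈ (extChartAt J p₀.2).target := by
      rw [extChartAt_prod] at hy; exact hy.2
    have hev : TwoForm.inChart (FourSix.prodForm η σ) p₀ =ᶠ[𝓝 y] fun y : E × E' =>
        (TwoForm.inChart η p₀.1 y.1).compContinuousLinearMap (fderiv ℝ (Prod.fst : E × E' → E) y) +
        (TwoForm.inChart σ p₀.2 y.2).compContinuousLinearMap (fderiv ℝ (Prod.snd : E × E' → E') y) := by
      filter_upwards [(isOpen_extChartAt_target p₀).mem_nhds hy] with z hz
      rw [fderiv_fst, fderiv_snd]
      exact inChart_prodForm η σ p₀ hz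
    have hd1 : DifferentiableAt ℝ (TwoForm.inChart η p₀.1) y.1 :=
      ((hη.smooth p₀.1).contDiffAt ((isOpen_extChartAt_target p₀.1).mem_nhds hy1)).differentiableAt
        (by norm_num)
    have hd2 : DifferentiableAt ℝ (TwoForm.inChart σ p₀.2) y.2 :=
      ((hσ.smooth p₀.2).contDiffAt ((isOpen_extChartAt_target p₀.2).mem_nhds hy2)).differentiableAt
        (by norm_num)
    rw [hev.extDeriv_eq, extDeriv_fun_add]
    · have e1 := extDeriv_pullback (x := y) (f := (Prod.fst : E × E' → E)) (r := 2) hd1
        contDiff_fst.contDiffAt (by simp [minSmoothness])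
      have e2 := extDeriv_pullback (x := y) (f := (Prod.snd : E × E' → E')) (r := 2) hd2
        contDiff_snd.contDiffAt (by simp [minSmoothness])
      rw [e1, e2, hη.closed _ _ hy1, hσ.closed _ _ hy2]
      ext a
      simp
    · simp only [fderiv_fst]
      apply DifferentiableAt.continuousAlternatingMapCompContinuousLinearMap
      · exact hd1.comp y differentiableAt_fst
      · exact differentiableAt_const _
    · simp only [fderiv_snd]
      apply DifferentiableAt.continuousAlternatingMapCompContinuousLinearMap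
      · exact hd2.comp y differentiableAt_snd
      · exact differentiableAt_const _
  nondegenerate p v hv := by
    have key : ∀ w : E × E', (show E [⋀^Fin 2]→L[ℝ] ℝ from η p.1) ![(show E × E' from v).1, w.1] +
        (show E' [⋀^Fin 2]→L[ℝ] ℝ from σ p.2) ![(show E × E' from v).2, w.2] = 0 := by
      intro w
      have h := hv w
      have h2 : (FourSix.prodForm η σ) p ![v, w] =
        (show E [⋀^Fin 2]→L[ℝ] ℝ from η p.1) ![(show E × E' from v).1, w.1] +
        (show E' [⋀^Fin 2]→L[ℝ] ℝ from σ p.2) ![(show E × E' from v).2, w.2] := by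
        change (show E [⋀^Fin 2]→L[ℝ] ℝ from η p.1) (fun i =>
          (show (E × E') →L[ℝ] E from mfderiv (I.prod J) I Prod.fst p) (![v, w] i)) +
          (show E' [⋀^Fin 2]→L[ℝ] ℝ from σ p.2) (fun i =>
          (show (E × E') →L[ℝ] E' from mfderiv (I.prod J) J Prod.snd p) (![v, w] i)) = _
        rw [mfderiv_fst, mfderiv_snd]
        congr 1
        · congr 1
          funext i; fin_cases i <;> rfl
        · congr 1
          funext i; fin_cases i <;> rfl
      rw [← h2]; exact h
    have h1 : (show E × E' from v).1 = 0 := by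
      apply hη.nondegenerate p.1
      intro w
      have := key (w, 0)
      rw [eval_zero_right, add_zero] at this
      exact this
    have h2 : (show E × E' from v).2 = 0 := by
      apply hσ.nondegenerate p.2
      intro w
      have := key (0, w)
      rw [eval_zero_right, zero_add] at this
      exact this
    exact Prod.ext h1 h2

end Prod

/-- The product of two symplectic manifolds, with the form `pr₁^* η + pr₂^* σ`. -/
def SymplecticManifold.prod (A B : SymplecticManifold) : SymplecticManifold where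
  E := A.E × B.E
  H := ModelProd A.H B.H
  I := A.I.prod B.I
  carrier := A.carrier × B.carrier
  form := FourSix.prodForm A.form B.form
  symplectic := A.symplectic.prodForm B.symplectic

end Pool.Agent.H819R2.FourSix
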