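import Pool.Agent.H819R2.Reduce

open scoped BigOperators
open Matrix MeasureTheory Set

namespace Pool.Agent.H819R2

/-- Second reduction: the contraction with `∂_φ` is made standard. -/
lemma reduce2 {f : V6 → Mat6} (hf : Form2 f) (α : ℝ) (_h3i : ∀ u i, f u 3 i = if i = 2 then α else 0)
    (h5 : ∀ u i k, D 5 (fun v => f v i k) u = 0) :
    ∃ (μ : ℝ) (Λ : V6 → V6), Form1 Λ ∧ (∀ u i k, i ≠ 5 → k ≠ 5 → dForm Λ u i k = 0) ∧
      (∀ u i, f u 5 i + dForm Λ u 5 i = if i = 4 then - (μ * (Real.sin (u 4) / 2)) else 0) ∧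
      Form2 (fun u => f u + dForm Λ u) := by
  have h55 : ∀ u i, f u i i = 0 := by
    intro u i
    have := hf.skew u i i
    linarith
  obtain ⟨N, hN⟩ := exists_primitive (fun u i => f u 5 i) (fun i => hf.c1 5 i) (by
    intro u i k
    have := hf.closed u i 5 k
    rw [h5, hf.D_skew u k 5 i] at this
    linarith)
  set l : V6 → V6 := fun u i => f u 5 i with hl
  have hlper : ∀ k : Fin 6, k ≠ 2 → k ≠ 4 → ∀ u, l (u + Pi.single k (L6 k)) = l u := by
    intro k hk2 hk4 u
    simp only [hl]
    rw [hf.per k hk2 hk4]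
  have hla : ∀ u, l u = T6ᵀ *ᵥ l (aMap u) := by
    intro u
    funext i
    simp only [hl]
    rw [hf.equi_apply u 5 i, Matrix.mulVec, dotProduct]
    refine Finset.sum_congr rfl fun q _ => ?_
    rw [Finset.sum_eq_single 5]
    · simp [T6, Matrix.transpose_apply]; ring
    · intro b _ hb
      fin_cases b <;> simp [T6] at hb ⊢
    · simp
  have hsl0 : ∀ u : V6, u 4 = 0 → N u = N 0 := by
    intro u hu
    refine const_on_slice hN 0 ?_ u 0 hu rfl
    intro v hv i
    exact hf.pole v (Or.inl hv) i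
  have hslp : ∀ u : V6, u 4 = Real.pi → N u = N (Pi.single 4 Real.pi) := by
    intro u hu
    refine const_on_slice hN Real.pi ?_ u _ hu (by simp)
    intro v hv i
    exact hf.pole v (Or.inr hv) i
  have hNper : ∀ k : Fin 6, k ≠ 2 → k ≠ 4 → ∀ u, N (u + Pi.single k (L6 k)) = N u := by
    intro k hk2 hk4 u
    have h1 := const_of_same_deriv (hasFDerivAt_shift hN (Pi.single k (L6 k)) (hlper k hk2 hk4)) hN u
    have h2 : N (0 + Pi.single k (L6 k)) = N 0 := by
      apply hsl0
      simp [Pi.single_eq_of_ne hk4.symm]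
    rw [h2] at h1
    linarith
  have hNa : ∀ u, N (aMap u) = N u := by
    intro u
    have h1 := const_of_same_deriv (hasFDerivAt_aMap hN hla) hN u
    have h2 : N (aMap 0) = N 0 := by
      apply hsl0
      simp [aMap]
    rw [h2] at h1
    linarith
  set μ : ℝ := N 0 - N (Pi.single 4 Real.pi) with hμ
  -- coefficient of the correction
  set q : V6 → ℝ := fun u => (N u - N 0) + μ * ((1 - Real.cos (u 4)) / 2) with hq
  have hqd : ∀ u, HasFDerivAt q (lin (l u + Pi.single 4 (μ * (Real.sin (u 4) / 2)))) u := by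
    intro u
    have h1 : HasFDerivAt (fun v : V6 => v 4) (ContinuousLinearMap.proj 4 : V6 →L[ℝ] ℝ) u :=
      (ContinuousLinearMap.proj 4 : V6 →L[ℝ] ℝ).hasFDerivAt
    have h2 : HasDerivAt (fun s : ℝ => μ * ((1 - Real.cos s) / 2)) (μ * (Real.sin (u 4) / 2)) (u 4) := by
      have := (((Real.hasDerivAt_cos (u 4)).const_sub 1).div_const 2).const_mul μ
      simpa using this
    have h3 := h2.comp_hasFDerivAt u h1
    have h4 := ((hN u).sub_const (N 0)).add h3
    have h5 : lin (l u + Pi.single 4 (μ * (Real.sin (u 4) / 2))) = lin (l u) +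
        (μ * (Real.sin (u 4) / 2)) • (ContinuousLinearMap.proj 4 : V6 →L[ℝ] ℝ) := by
      ext x
      rw [lin_apply, _root_.add_apply, lin_apply]
      simp only [Pi.add_apply, add_mul, Finset.sum_add_distrib]
      congr 1
      rw [Finset.sum_eq_single 4]
      · simp
      · intro b _ hb; rw [Pi.single_eq_of_ne hb]; ring
      · simp
    rw [h5]
    exact h4
  have hlc : ∀ i, ContDiff ℝ 1 (fun u => (l u + Pi.single 4 (μ * (Real.sin (u 4) / 2)) : V6) i) := by
    intro i
    refine (hf.c1 5 i).add ?_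
    by_cases hi : i = 4
    · subst hi
      simp only [Pi.single_eq_same]
      fun_prop
    · simp only [Pi.single_eq_of_ne hi]
      exact contDiff_const
  have hC2 : ContDiff ℝ 2 q :=
    contDiff_two_of (l := fun u => l u + Pi.single 4 (μ * (Real.sin (u 4) / 2))) hlc hqd
  have hper : ∀ k : Fin 6, k ≠ 2 → k ≠ 4 → ∀ u, q (u + Pi.single k (L6 k)) = q u := by
    intro k hk2 hk4 u
    simp only [hq]
    have : (u + Pi.single k (L6 k) : V6) 4 = u 4 := by
      simp [Pi.single_eq_of_ne hk4.symm]
    rw [this, hNper k hk2 hk4]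
  have hqa : ∀ u, q (aMap u) = q u := by
    intro u
    simp only [hq]
    have : (aMap u) 4 = u 4 := by
      simp [aMap, T6, Matrix.mulVec, dotProduct, Fin.sum_univ_succ]
    rw [this, hNa]
  have hqpole : ∀ u : V6, (u 4 = 0 ∨ u 4 = Real.pi) → q u = 0 := by
    intro u hu
    simp only [hq]
    rcases hu with hu | hu
    · rw [hsl0 u hu, hu]; simp
    · rw [hslp u hu, hu, hμ]; simp
  let Λ : V6 → V6 := fun u => Pi.single 5 (q u)
  have hΛ5 : ∀ u, Λ u 5 = q u := fun u => by simp [Λ]
  have hΛo : ∀ u k, k ≠ 5 → Λ u k = 0 := fun u k hk => by simp [Λ, Pi.single_eq_of_ne hk]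
  have hΛc : ∀ k, ContDiff ℝ 2 (fun u => Λ u k) := by
    intro k
    by_cases hk : k = 5
    · subst hk; simp only [hΛ5]; exact hC2
    · simp only [hΛo _ k hk]; exact contDiff_const
  have hF1 : Form1 Λ := by
    refine ⟨fun i => (hΛc i).of_le (by norm_num), ?_, ?_, ?_⟩
    · intro k hk2 hk4 u
      simp only [Λ]
      rw [hper k hk2 hk4]
    · intro u
      simp only [Λ]
      rw [single_mul_T6 _ 5 (Or.inr rfl), hqa]
    · intro u hu
      rw [hΛ5, hqpole u hu]
  have hDq : ∀ i u, D i q u = l u i + (Pi.single 4 (μ * (Real.sin (u 4) / 2)) : V6) i := by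
    intro i u
    rw [D_of_hasFDerivAt hqd]; rfl
  have hD0 : ∀ i k u, k ≠ 5 → D i (fun v => Λ v k) u = 0 := by
    intro i k u hk
    simp only [hΛo _ k hk]
    simp [D]
  have hDΛ5 : ∀ i u, D i (fun v => Λ v 5) u = D i q u := by
    intro i u
    simp only [hΛ5]
  have hd0 : ∀ u i k, i ≠ 5 → k ≠ 5 → dForm Λ u i k = 0 := by
    intro u i k hi hk
    simp only [dForm]
    rw [hD0 i k u hk, hD0 k i u hi, sub_self]
  have hd5 : ∀ u i, f u 5 i + dForm Λ u 5 i =
      if i = 4 then - (μ * (Real.sin (u 4) / 2)) else 0 := by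
    intro u i
    by_cases hi : i = 5
    · subst hi
      simp [dForm, h55]
    · simp only [dForm]
      rw [hD0 5 i u hi, hDΛ5, hDq]
      have : l u i = f u 5 i := rfl
      rw [this]
      by_cases hi4 : i = 4
      · subst hi4; simp
      · simp [hi4, Pi.single_eq_of_ne hi4]
  refine ⟨μ, Λ, hF1, hd0, hd5, form2_add hf hF1 hΛc ?_⟩
  intro u hu j
  rw [hd5 u j]
  by_cases hj : j = 4
  · rw [if_pos hj]
    rcases hu with hu | hu <;> rw [hu] <;> simp
  · rw [if_neg hj]

/-- The `(x,y)` component, weighted by the standard area form of the sphere, integrates to the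
integral over the pole slice. -/
lemma weighted_eq_bet {f : V6 → Mat6} (hf : Form2 f) :
    ∫ u in Icc (0 : V6) L6, (Real.sin (u 4) / 2) * f u 0 1 = bet f := by
  let c : V6 → ℝ := fun u => (1 - Real.cos (u 4)) / 2
  have hc : ContDiff ℝ 1 c := by
    have : ContDiff ℝ 1 (fun u : V6 => u 4) := contDiff_apply ℝ ℝ 4
    exact (contDiff_const.sub (Real.contDiff_cos.comp this)).div_const 2
  have hcD : ∀ i u, D i c u = if i = 4 then Real.sin (u 4) / 2 else 0 := by
    intro i u
    have h1 : HasFDerivAt (fun v : V6 => v 4) (ContinuousLinearMap.proj 4 : V6 →L[ℝ] ℝ) u :=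
      (ContinuousLinearMap.proj 4 : V6 →L[ℝ] ℝ).hasFDerivAt
    have h2 : HasDerivAt (fun s : ℝ => (1 - Real.cos s) / 2) (Real.sin (u 4) / 2) (u 4) := by
      have := (((Real.hasDerivAt_cos (u 4)).const_sub 1).div_const 2)
      simpa using this
    have h3' := HasDerivAt.comp_hasFDerivAt u h2 h1
    have h3 : HasFDerivAt c ((Real.sin (u 4) / 2) • (ContinuousLinearMap.proj 4 : V6 →L[ℝ] ℝ)) u :=
      h3'
    unfold D
    rw [h3.fderiv]
    by_cases hi : i = 4
    · subst hi; simp
    · simp [hi, Pi.single_eq_of_ne (Ne.symm hi)]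
  let X : Fin 6 → V6 → ℝ := fun i u =>
    if i = 0 then c u * f u 1 4 else if i = 1 then c u * f u 4 0 else if i = 4 then c u * f u 0 1
    else 0
  have hX0 : X 0 = fun u => c u * f u 1 4 := by funext u; simp [X]
  have hX1 : X 1 = fun u => c u * f u 4 0 := by funext u; simp [X]
  have hX4 : X 4 = fun u => c u * f u 0 1 := by funext u; simp [X]
  have hX2 : X 2 = fun _ => 0 := by funext u; simp [X]
  have hX3 : X 3 = fun _ => 0 := by funext u; simp [X]
  have hX5 : X 5 = fun _ => 0 := by funext u; simp [X]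
  have hXc : ∀ i, ContDiff ℝ 1 (X i) := by
    intro i
    fin_cases i
    · change ContDiff ℝ 1 (X 0); rw [hX0]; exact hc.mul (hf.c1 1 4)
    · change ContDiff ℝ 1 (X 1); rw [hX1]; exact hc.mul (hf.c1 4 0)
    · change ContDiff ℝ 1 (X 2); rw [hX2]; exact contDiff_const
    · change ContDiff ℝ 1 (X 3); rw [hX3]; exact contDiff_const
    · change ContDiff ℝ 1 (X 4); rw [hX4]; exact hc.mul (hf.c1 0 1)
    · change ContDiff ℝ 1 (X 5); rw [hX5]; exact contDiff_const
  have hcper : ∀ k : Fin 6, k ≠ 4 → ∀ u s, c (u + Pi.single k s) = c u := by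
    intro k hk u s
    simp [c, Pi.single_eq_of_ne (Ne.symm hk)]
  have h := integral_div_eq X hXc (by
    intro i hi2 hi4 u
    by_cases h0 : i = 0
    · subst h0
      rw [hX0]
      beta_reduce
      rw [hcper 0 (by decide), hf.per 0 (by decide) (by decide)]
    by_cases h1 : i = 1
    · subst h1
      rw [hX1]
      beta_reduce
      rw [hcper 1 (by decide), hf.per 1 (by decide) (by decide)]
    · simp only [X, if_neg h0, if_neg h1, if_neg hi4])
    (by intro u; rw [hX2]) (by intro u; rw [hX2]) (by intro u; rw [hX2])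
  have hmul : ∀ (g : V6 → ℝ), ContDiff ℝ 1 g → ∀ i u, D i (fun v => c v * g v) u =
      D i c u * g u + c u * D i g u := by
    intro g hg i u
    unfold D
    rw [fderiv_fun_mul (hc.differentiable (by norm_num) u) (hg.differentiable (by norm_num) u)]
    simp only [_root_.add_apply, _root_.smul_apply, smul_eq_mul]
    ring
  have hdiv : ∀ u, ∑ i, D i (X i) u = (Real.sin (u 4) / 2) * f u 0 1 := by
    intro u
    rw [Fin.sum_univ_six, hX0, hX1, hX2, hX3, hX4, hX5, hmul _ (hf.c1 1 4), hmul _ (hf.c1 4 0),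
      hmul _ (hf.c1 0 1), hcD, hcD, hcD]
    have h0 : ∀ i, D i (fun _ : V6 => (0 : ℝ)) u = 0 := by intro i; simp [D]
    rw [h0, h0, h0]
    have hcl := hf.closed u 0 1 4
    simp only [if_neg (show ¬ ((0 : Fin 6) = 4) by decide), if_neg (show ¬ ((1 : Fin 6) = 4) by decide),
      if_true]
    linear_combination (c u) * hcl
  simp only [hdiv] at h
  rw [h, hX4]
  have z : ∀ x : Fin 5 → ℝ, c ((4 : Fin 6).insertNth ((0 : V6) 4) x) = 0 := by
    intro x; simp [c]
  have o : ∀ x : Fin 5 → ℝ, c ((4 : Fin 6).insertNth (L6 4) x) = 1 := by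
    intro x; simp [c, L6]
  simp only [z, o, zero_mul, one_mul, integral_zero, sub_zero]
  rfl

/-- A continuous function which does not vanish for `0 < θ < π` has nonzero integral. -/
lemma integral_ne_zero_of {F : V6 → ℝ} (hF : Continuous F)
    (hne : ∀ u : V6, 0 < u 4 → u 4 < Real.pi → F u ≠ 0) : ∫ u in Icc (0 : V6) L6, F u ≠ 0 := by
  have key : ∀ {G : V6 → ℝ}, Continuous G → (∀ u : V6, 0 < u 4 → u 4 < Real.pi → 0 < G u) →
      0 < ∫ u in Icc (0 : V6) L6, G u := by
    intro G hG hpos
    have hnn : ∀ u ∈ Icc (0 : V6) L6, 0 ≤ G u := by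
      intro u hu
      have h1 : u ∈ closure {v : V6 | 0 < v 4 ∧ v 4 < Real.pi} := by
        have hu4 : 0 ≤ u 4 ∧ u 4 ≤ Real.pi := ⟨hu.1 4, by simpa [L6] using hu.2 4⟩
        rw [mem_closure_iff_seq_limit]
        refine ⟨fun n => Function.update u 4 ((1 - 1 / ((n : ℝ) + 2)) * u 4 +
          1 / ((n : ℝ) + 2) * (Real.pi / 2)), ?_, ?_⟩
        · intro n
          have hn : (0 : ℝ) < 1 / ((n : ℝ) + 2) := by positivity
          have hn1 : 1 / ((n : ℝ) + 2) < 1 := by
            rw [div_lt_one (by positivity)]; linarith [(Nat.cast_nonneg n : (0 : ℝ) ≤ n)]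
          have hp := Real.pi_pos
          simp only [mem_ofPred_eq, Function.update_self]
          constructor
          · have : 0 ≤ (1 - 1 / ((n : ℝ) + 2)) * u 4 := mul_nonneg (by linarith) hu4.1
            have : 0 < 1 / ((n : ℝ) + 2) * (Real.pi / 2) := by positivity
            linarith
          · have h1 : (1 - 1 / ((n : ℝ) + 2)) * u 4 ≤ (1 - 1 / ((n : ℝ) + 2)) * Real.pi :=
              mul_le_mul_of_nonneg_left hu4.2 (by linarith)
            have h2 : 1 / ((n : ℝ) + 2) * (Real.pi / 2) < 1 / ((n : ℝ) + 2) * Real.pi :=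
              mul_lt_mul_of_pos_left (by linarith) hn
            linarith
        · have hlim : Filter.Tendsto (fun n : ℕ => 1 / ((n : ℝ) + 2)) Filter.atTop (nhds 0) := by
            have := (tendsto_const_div_atTop_nhds_zero_nat (1 : ℝ)).comp
              (Filter.tendsto_add_atTop_nat 2)
            refine this.congr fun n => ?_
            simp
          have h2 : Filter.Tendsto (fun n : ℕ => (1 - 1 / ((n : ℝ) + 2)) * u 4 +
              1 / ((n : ℝ) + 2) * (Real.pi / 2)) Filter.atTop (nhds (u 4)) := by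
            have := ((tendsto_const_nhds (x := (1 : ℝ))).sub hlim).mul_const (u 4) |>.add
              (hlim.mul_const (Real.pi / 2))
            simpa using this
          have h3 := (tendsto_const_nhds (x := u)).update 4 h2
          simpa using h3
      have h2 : IsClosed {v : V6 | 0 ≤ G v} := isClosed_le continuous_const hG
      exact (closure_minimal (fun v hv => (hpos v hv.1 hv.2).le) h2) h1
    rw [setIntegral_pos_iff_support_of_nonneg_ae]
    · -- positive measure
      have hsub : (Set.pi univ fun i => Ioo ((0 : V6) i) (L6 i)) ⊆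
          Function.support G ∩ Icc (0 : V6) L6 := by
        intro u hu
        have hu' : ∀ i, u i ∈ Ioo ((0 : V6) i) (L6 i) := fun i => hu i (mem_univ i)
        refine ⟨?_, fun i => (hu' i).1.le, fun i => (hu' i).2.le⟩
        have := hpos u (hu' 4).1 (by simpa [L6] using (hu' 4).2)
        exact this.ne'
      refine lt_of_lt_of_le ?_ (measure_mono hsub)
      rw [Real.volume_pi_Ioo]
      rw [pos_iff_ne_zero, Finset.prod_ne_zero_iff]
      intro i _
      have hp := Real.pi_pos
      rw [Ne, ENNReal.ofReal_eq_zero, not_le]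
      fin_cases i <;> simp [L6, hp]
    · rw [Filter.EventuallyLE, ae_restrict_iff' measurableSet_Icc]
      exact Filter.Eventually.of_forall hnn
    · exact hG.continuousOn.integrableOn_compact isCompact_Icc
  -- constant sign
  have hconv : Convex ℝ {v : V6 | 0 < v 4 ∧ v 4 < Real.pi} := by
    intro x hx y hy a b ha hb hab
    simp only [mem_ofPred_eq, Pi.add_apply, Pi.smul_apply, smul_eq_mul] at *
    constructor
    · rcases ha.eq_or_lt with rfl | ha'
      · have : b = 1 := by linarith
        subst this; linarith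
      · have := mul_pos ha' hx.1
        have := mul_nonneg hb hy.1.le
        linarith
    · rcases ha.eq_or_lt with rfl | ha'
      · have : b = 1 := by linarith
        subst this; linarith
      · have h1 := mul_lt_mul_of_pos_left hx.2 ha'
        have h2 := mul_le_mul_of_nonneg_left hy.2.le hb
        have h3 : a * Real.pi + b * Real.pi = Real.pi := by rw [← add_mul, hab, one_mul]
        linarith
  have hpre := hconv.isPreconnected
  set S := {v : V6 | 0 < v 4 ∧ v 4 < Real.pi} with hS
  have hp0 : (Pi.single 4 (Real.pi / 2) : V6) ∈ S := by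
    have := Real.pi_pos
    simp only [hS, mem_ofPred_eq, Pi.single_eq_same]
    constructor <;> linarith
  rcases lt_or_gt_of_ne (hne _ hp0.1 hp0.2) with hneg | hpos
  · have hall : ∀ u : V6, 0 < u 4 → u 4 < Real.pi → 0 < - F u := by
      intro u h1 h2
      by_contra hcon
      have h3 : 0 ≤ F u := by linarith
      obtain ⟨w, hw, hw0⟩ := hpre.intermediate_value hp0 (show u ∈ S from ⟨h1, h2⟩)
        hF.continuousOn ⟨hneg.le, h3⟩
      exact hne w hw.1 hw.2 hw0
    have := key (G := fun u => - F u) hF.neg hall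
    rw [integral_neg] at this
    intro h0
    rw [h0] at this
    simp at this
  · have hall : ∀ u : V6, 0 < u 4 → u 4 < Real.pi → 0 < F u := by
      intro u h1 h2
      by_contra hcon
      have h3 : F u ≤ 0 := by linarith
      obtain ⟨w, hw, hw0⟩ := hpre.intermediate_value (show u ∈ S from ⟨h1, h2⟩) hp0
        hF.continuousOn ⟨h3, le_of_lt hpos⟩
      exact hne w hw.1 hw.2 hw0
    exact (key hF hall).ne'

/-- **Main calculus theorem.** For a closed invariant 2-form whose top power vanishes nowhere away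
from the poles, the fibre period is nonzero. -/
theorem bet_ne_zero {f : V6 → Mat6} (hf : Form2 f)
    (hne : ∀ u : V6, 0 < u 4 → u 4 < Real.pi → W (f u) (f u) (f u) ≠ 0) : bet f ≠ 0 := by
  have hint : ∫ u in Icc (0 : V6) L6, W (f u) (f u) (f u) ≠ 0 :=
    integral_ne_zero_of (W_continuous (fun i j => (hf.c1 i j).continuous)
      (fun i j => (hf.c1 i j).continuous) (fun i j => (hf.c1 i j).continuous)) hne
  -- averaging over `t` and `φ`
  have hf3 := avgF_form2 3 (Or.inl rfl) hf
  have hΛ3 := lamF_form1 3 (Or.inl rfl) hf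
  have v3 := volume_eq hΛ3 hf hf3 (avgF_eq 3 (Or.inl rfl) hf)
  have b3 := bet_add hΛ3 hf (avgF_eq 3 (Or.inl rfl) hf)
  have hf5 := avgF_form2 5 (Or.inr rfl) hf3
  have hΛ5 := lamF_form1 5 (Or.inr rfl) hf3
  have v5 := volume_eq hΛ5 hf3 hf5 (avgF_eq 5 (Or.inr rfl) hf3)
  have b5 := bet_add hΛ5 hf3 (avgF_eq 5 (Or.inr rfl) hf3)
  set g := avgF 5 (avgF 3 f) with hg
  have s5 : ∀ u s, g (u + Pi.single 5 s) = g u := avgF_shift 5 (Or.inr rfl) hf3
  have s3 : ∀ u s, g (u + Pi.single 3 s) = g u :=
    avgF_shift_other 5 3 (avgF_shift 3 (Or.inl rfl) hf)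
  obtain ⟨α, Λ, hΛ, hd0, hd3, hF⟩ := reduce1 hf5 s3 s5
  have v6 := volume_eq hΛ hf5 hF (fun u => rfl)
  have b6 := bet_add hΛ hf5 (f' := fun u => g u + dForm Λ u) (fun u => rfl)
  have hD5 : ∀ u i k, D 5 (fun v => (g v + dForm Λ v) i k) u = 0 := by
    intro u i k
    have hg5 : ∀ i k, D 5 (fun v => g v i k) u = 0 := fun i k =>
      D_eq_zero_of_shift (hf5.c1 i k) 5 (fun u s => by rw [s5]) u
    by_cases hi : i = 3
    · subst hi
      have : (fun v => (g v + dForm Λ v) 3 k) = fun _ => if k = 2 then α else 0 := by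
        funext v; exact hd3 v k
      rw [this]; simp [D]
    · by_cases hk : k = 3
      · subst hk
        have : (fun v => (g v + dForm Λ v) i 3) = fun _ => - (if i = 2 then α else 0) := by
          funext v
          rw [hF.skew v 3 i]
          congr 1
          exact hd3 v i
        rw [this]; simp [D]
      · have : (fun v => (g v + dForm Λ v) i k) = fun v => g v i k := by
          funext v
          rw [Matrix.add_apply, hd0 v i k hi hk, add_zero]
        rw [this, hg5]
  obtain ⟨μ, Λ', hΛ', hd0', hd5', hF'⟩ := reduce2 hF α hd3 hD5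
  have v7 := volume_eq hΛ' hF hF' (fun u => rfl)
  have b7 := bet_add hΛ' hF (f' := fun u => (g u + dForm Λ u) + dForm Λ' u) (fun u => rfl)
  set F : V6 → Mat6 := fun u => (g u + dForm Λ u) + dForm Λ' u with hFdef
  have hF3 : ∀ u i, F u 3 i = if i = 2 then α else 0 := by
    intro u i
    by_cases hi : i = 5
    · subst hi
      have h1 := hd5' u 3
      rw [if_neg (by decide)] at h1
      have h2 := hF'.skew u 5 3
      change F u 3 5 = _
      rw [show F u 3 5 = - F u 5 3 from h2]
      have : F u 5 3 = 0 := h1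
      rw [this]; simp
    · have h1 := hd3 u i
      change (g u + dForm Λ u) 3 i + dForm Λ' u 3 i = _
      rw [hd0' u 3 i (by decide) hi, add_zero]
      exact h1
  have hF5 : ∀ u i, F u 5 i = if i = 4 then - (μ * (Real.sin (u 4) / 2)) else 0 := hd5'
  have hW : ∀ u, W (F u) (F u) (F u) = (-48 * α * μ) * ((Real.sin (u 4) / 2) * F u 0 1) := by
    intro u
    rw [W_special (F u) (hF'.anti u)]
    · have h23 : F u 2 3 = - α := by
        rw [show F u 2 3 = - F u 3 2 from hF'.skew u 3 2, hF3]; simp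
      have h45 : F u 4 5 = μ * (Real.sin (u 4) / 2) := by
        rw [show F u 4 5 = - F u 5 4 from hF'.skew u 5 4, hF5]; simp
      rw [h23, h45]; ring
    · intro j hj; rw [hF3, if_neg hj]
    · intro j hj; rw [hF5, if_neg hj]
  have hfinal : ∫ u in Icc (0 : V6) L6, W (F u) (F u) (F u) = (-48 * α * μ) * bet F := by
    simp only [hW]
    rw [integral_const_mul, weighted_eq_bet hF']
  have hvol : ∫ u in Icc (0 : V6) L6, W (F u) (F u) (F u) =
      ∫ u in Icc (0 : V6) L6, W (f u) (f u) (f u) := by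
    rw [← v3, ← v5, ← v6, ← v7]
  have hbet : bet F = bet f := by
    rw [← b3, ← b5, ← b6, ← b7]
  intro h0
  apply hint
  rw [← hvol, hfinal, hbet, h0, mul_zero]

end Pool.Agent.H819R2
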