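import Mathlib
import Pool.Agent.H819R2.Pull
import Pool.Agent.H819R2.Reduce2

/-!
# Matrices of pulled back forms
-/

open Set Filter Matrix
open scoped ContDiff Manifold Topology

noncomputable section

namespace Pool.Agent.H819R2.FourSix

/-- an alternating form as a bilinear map -/
def toBil (w : V6 [⋀^Fin 2]→L[ℝ] ℝ) : V6 →ₗ[ℝ] V6 →ₗ[ℝ] ℝ :=
  LinearMap.mk₂ ℝ (fun a b => w ![a, b])
    (by
      intro a a' b
      have := w.map_update_add ![0, b] 0 a a'
      have h : ∀ x : V6, Function.update ![0, b] 0 x = ![x, b] := by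
        intro x; funext i; fin_cases i <;> rfl
      simpa only [h] using this)
    (by
      intro c a b
      have := w.map_update_smul ![0, b] 0 c a
      have h : ∀ x : V6, Function.update ![0, b] 0 x = ![x, b] := by
        intro x; funext i; fin_cases i <;> rfl
      simpa only [h] using this)
    (by
      intro a b b'
      have := w.map_update_add ![a, 0] 1 b b'
      have h : ∀ x : V6, Function.update ![a, 0] 1 x = ![a, x] := by
        intro x; funext i; fin_cases i <;> rfl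
      simpa only [h] using this)
    (by
      intro c a b
      have := w.map_update_smul ![a, 0] 1 c b
      have h : ∀ x : V6, Function.update ![a, 0] 1 x = ![a, x] := by
        intro x; funext i; fin_cases i <;> rfl
      simpa only [h] using this)

lemma eval_eq (w : V6 [⋀^Fin 2]→L[ℝ] ℝ) (a b : V6) :
    w ![a, b] = a ⬝ᵥ (Matrix.of (fun i j => w ![Pi.single i 1, Pi.single j 1]) : Mat6) *ᵥ b := by
  have h1 : w ![a, b] = toBil w a b := rfl
  have h2 : (Matrix.of (fun i j => w ![Pi.single i 1, Pi.single j 1]) : Mat6) =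
      LinearMap.toMatrix₂' ℝ (toBil w) := by
    ext i j
    rw [LinearMap.toMatrix₂'_apply]
    rfl
  rw [h1, h2, ← Matrix.toLinearMap₂'_apply', Matrix.toLinearMap₂'_toMatrix']

lemma eval_swap {V : Type*} [NormedAddCommGroup V] [NormedSpace ℝ V]
    (w : V [⋀^Fin 2]→L[ℝ] ℝ) (a b : V) : w ![a, b] = - w ![b, a] := by
  have := w.map_swap ![b, a] (i := 0) (j := 1) (by norm_num)
  refine Eq.trans ?_ this
  have h : (![b, a] ∘ ⇑(Equiv.swap (0 : Fin 2) 1)) = ![a, b] := by
    funext i; fin_cases i <;> rfl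
  rw [h]
  rfl

section

variable {E : Type*} [NormedAddCommGroup E] [NormedSpace ℝ E]
  {H : Type*} [TopologicalSpace H] {I : ModelWithCorners ℝ E H}
  {M : Type*} [TopologicalSpace M] [ChartedSpace H M]

/-- the matrix of the pulled back form -/
def mat (g : V6 → M) (η : TwoForm I M) (u : V6) : Mat6 :=
  Matrix.of fun i j => pullV g η u ![Pi.single i 1, Pi.single j 1]

lemma mat_apply (g : V6 → M) (η : TwoForm I M) (u : V6) (i j : Fin 6) :
    mat g η u i j = pullV g η u ![Pi.single i 1, Pi.single j 1] := rfl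

lemma pullV_eq_mat (g : V6 → M) (η : TwoForm I M) (u a b : V6) :
    pullV g η u ![a, b] = a ⬝ᵥ mat g η u *ᵥ b := eval_eq _ a b

lemma mat_anti (g : V6 → M) (η : TwoForm I M) (u : V6) : (mat g η u)ᵀ = - mat g η u := by
  ext i j
  rw [Matrix.transpose_apply, Matrix.neg_apply, mat_apply, mat_apply]
  exact eval_swap _ _ _

lemma mat_affine {g : V6 → M} (η : TwoForm I M) (T : Mat6) (c : V6)
    (hg : ContMDiff 𝓘(ℝ, V6) I ∞ g) (h : ∀ u, g (T *ᵥ u + c) = g u) (u : V6) :
    mat g η u = Tᵀ * mat g η (T *ᵥ u + c) * T := by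
  have hT : HasFDerivAt (fun u : V6 => T *ᵥ u + c) (Matrix.toLin' T).toContinuousLinearMap u := by
    have := (Matrix.toLin' T).toContinuousLinearMap.hasFDerivAt (x := u)
    exact this.add_const c
  have h1 : g = g ∘ (fun u : V6 => T *ᵥ u + c) := by
    funext u; exact (h u).symm
  have h2 : mfderiv 𝓘(ℝ, V6) I g u = (mfderiv 𝓘(ℝ, V6) I g (T *ᵥ u + c)).comp
      (mfderiv 𝓘(ℝ, V6) 𝓘(ℝ, V6) (fun u : V6 => T *ᵥ u + c) u) := by
    conv_lhs => rw [h1]
    exact mfderiv_comp (I' := 𝓘(ℝ, V6)) u ((hg _).mdifferentiableAt (by norm_num))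
      hT.differentiableAt.mdifferentiableAt
  have h3 : ∀ w : V6, (show V6 →L[ℝ] E from mfderiv 𝓘(ℝ, V6) I g u) w =
      (show V6 →L[ℝ] E from mfderiv 𝓘(ℝ, V6) I g (T *ᵥ u + c)) (T *ᵥ w) := by
    intro w
    have h4 := congrArg (fun L : V6 →L[ℝ] E => L w) h2
    refine h4.trans ?_
    have h5 : (mfderiv 𝓘(ℝ, V6) 𝓘(ℝ, V6) (fun u : V6 => T *ᵥ u + c) u) =
      (Matrix.toLin' T).toContinuousLinearMap := by
      rw [mfderiv_eq_fderiv]; exact hT.fderiv
    rw [h5]
    rfl
  have h4 : ∀ a b : V6, pullV g η u ![a, b] = pullV g η (T *ᵥ u + c) ![T *ᵥ a, T *ᵥ b] := by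
    intro a b
    rw [pullV_apply, pullV_apply]
    have h5 : (fun i => (show V6 →L[ℝ] E from mfderiv 𝓘(ℝ, V6) I g u) (![a, b] i)) =
      (fun i => (show V6 →L[ℝ] E from mfderiv 𝓘(ℝ, V6) I g (T *ᵥ u + c)) (![T *ᵥ a, T *ᵥ b] i)) := by
      funext i
      fin_cases i
      · exact h3 a
      · exact h3 b
    rw [h5]
    exact ev_congr η (h u).symm _
  ext i j
  rw [mat_apply, h4, pullV_eq_mat, Matrix.mul_assoc, Matrix.mul_apply]
  simp only [dotProduct, Matrix.mulVec, Matrix.mul_apply, Matrix.transpose_apply]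
  refine Finset.sum_congr rfl fun k _ => ?_
  congr 1
  · simp [Pi.single_apply]
  · refine Finset.sum_congr rfl fun l _ => ?_
    congr 1
    simp [Pi.single_apply]

lemma mat_per {g : V6 → M} (η : TwoForm I M) (c : V6)
    (hg : ContMDiff 𝓘(ℝ, V6) I ∞ g) (h : ∀ u, g (u + c) = g u) (u : V6) :
    mat g η (u + c) = mat g η u := by
  have := mat_affine η 1 c hg (by intro u; rw [Matrix.one_mulVec, h]) u
  rw [Matrix.one_mulVec, Matrix.transpose_one, Matrix.one_mul, Matrix.mul_one] at this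
  exact this.symm

lemma mat_pole {g : V6 → M} (η : TwoForm I M) {u : V6} {i : Fin 6}
    (h : (show V6 →L[ℝ] E from mfderiv 𝓘(ℝ, V6) I g u) (Pi.single i 1) = 0) (j : Fin 6) :
    mat g η u i j = 0 := by
  rw [mat_apply, pullV_apply]
  apply ContinuousAlternatingMap.map_coord_zero _ 0
  exact h

variable [I.Boundaryless] [IsManifold I ∞ M]

lemma mat_closed {g : V6 → M} (hg : ContMDiff 𝓘(ℝ, V6) I ∞ g) {η : TwoForm I M}
    (hη : IsSymplectic η) (u : V6) (i j k : Fin 6) :
    D i (fun u => mat g η u j k) u + D j (fun u => mat g η u k i) u +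
    D k (fun u => mat g η u i j) u = 0 := by
  have h1 := pullV_closed hg hη u
  have h2 := pullV_differentiableAt hg hη.smooth u
  have h3 := extDeriv_apply h2 ![Pi.single i 1, Pi.single j 1, Pi.single k 1]
  rw [h1] at h3
  rw [Fin.sum_univ_three] at h3
  have r0 : (0 : Fin 3).removeNth (![Pi.single i 1, Pi.single j 1, Pi.single k 1] : Fin 3 → V6) =
      ![Pi.single j 1, Pi.single k 1] := by
    funext a; fin_cases a <;> rfl
  have r1 : (1 : Fin 3).removeNth (![Pi.single i 1, Pi.single j 1, Pi.single k 1] : Fin 3 → V6) =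
      ![Pi.single i 1, Pi.single k 1] := by
    funext a; fin_cases a <;> rfl
  have r2 : (2 : Fin 3).removeNth (![Pi.single i 1, Pi.single j 1, Pi.single k 1] : Fin 3 → V6) =
      ![Pi.single i 1, Pi.single j 1] := by
    funext a; fin_cases a <;> rfl
  rw [r0, r1, r2] at h3
  have h4 : (fun u => mat g η u k i) = fun u => - mat g η u i k := by
    funext u
    exact eval_swap (pullV g η u) (Pi.single k 1) (Pi.single i 1)
  rw [h4, D_neg']
  have h6 : (0 : V6 [⋀^Fin (2 + 1)]→L[ℝ] ℝ) ![Pi.single i 1, Pi.single j 1, Pi.single k 1] = 0 := rfl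
  rw [h6] at h3
  simp at h3
  unfold D
  have h5 : ∀ a b : Fin 6, (fun u => mat g η u a b) =
      fun u => pullV g η u ![Pi.single a 1, Pi.single b 1] := fun a b => rfl
  rw [h5, h5, h5]
  linarith

theorem bet_mat_ne_zero {g : V6 → M} (hg : ContMDiff 𝓘(ℝ, V6) I ∞ g) {η : TwoForm I M}
    (hη : IsSymplectic η)
    (hper : ∀ k : Fin 6, k ≠ 2 → k ≠ 4 → ∀ u, g (u + Pi.single k (L6 k)) = g u)
    (hequi : ∀ u, g (aMap u) = g u)
    (hpole : ∀ u : V6, (u 4 = 0 ∨ u 4 = Real.pi) →
      (show V6 →L[ℝ] E from mfderiv 𝓘(ℝ, V6) I g u) (Pi.single 5 1) = 0)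
    (himm : ∀ u : V6, 0 < u 4 → u 4 < Real.pi →
      Function.Bijective ⇑(show V6 →L[ℝ] E from mfderiv 𝓘(ℝ, V6) I g u)) :
    bet (mat g η) ≠ 0 := by
  apply bet_ne_zero (f := mat g η)
  · refine ⟨?_, mat_anti g η, fun u i j k => mat_closed hg hη u i j k, ?_, ?_, ?_⟩
    · intro i j
      exact pullV_eval_contDiff hg hη.smooth _ _
    · intro k h2 h4 u
      exact mat_per η _ hg (hper k h2 h4) u
    · intro u
      exact mat_affine η T6 (Pi.single 2 1) hg hequi u
    · intro u hu j
      exact mat_pole η (hpole u hu) j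
  · intro u h0 h1
    apply W_ne_zero _ (mat_anti g η u)
    intro v hv
    obtain ⟨hinj, hsurj⟩ := himm u h0 h1
    have h3 : (show V6 →L[ℝ] E from mfderiv 𝓘(ℝ, V6) I g u) v = 0 := by
      apply hη.nondegenerate (g u)
      intro w
      obtain ⟨w', hw'⟩ := hsurj w
      have h4 := hv w'
      rw [← pullV_eq_mat, pullV_apply] at h4
      rw [← h4]
      congr 1
      funext i
      fin_cases i
      · rfl
      · exact hw'.symm
    exact hinj (h3.trans (map_zero _).symm)

end

end Pool.Agent.H819R2.FourSix
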