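import Mathlib
import Pool.Agent.H819R2.Act
import Pool.Agent.H819R2.FourSixDefs

/-!
# The closed four-manifold `X = R^4 / Γ`
-/

open Matrix Set Filter
open scoped ContDiff Manifold Topology

namespace Pool.Agent.H819R2

/-- the four-manifold -/
abbrev X4 : Type := MulAction.orbitRel.Quotient Gam E4

/-- the projection -/
noncomputable def pX (v : E4) : X4 := Quotient.mk _ v

lemma pX_covering : IsCoveringMap pX :=
  (isQuotientCoveringMap_quotientMk_of_properlyDiscontinuousSMul (E := E4) (G := Gam)).isCoveringMap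

lemma pX_surj : Function.Surjective pX := Quotient.mk_surjective

lemma pX_eq_iff {v w : E4} : pX v = pX w ↔ ∃ g : Gam, g • w = v := by
  unfold pX
  rw [Quotient.eq]
  rfl

lemma pX_smul (g : Gam) (v : E4) : pX (g • v) = pX v := pX_eq_iff.mpr ⟨g, rfl⟩

lemma atlas_symm {e : OpenPartialHomeomorph X4 E4} (he : e ∈ atlas E4 X4) (y : E4) :
    e.symm y = pX y := by
  obtain ⟨q, rfl⟩ := he
  rw [OpenPartialHomeomorph.coe_trans_symm, IsLocalHomeomorph.localInverseAt_symm]
  rfl

lemma atlas_right {e : OpenPartialHomeomorph X4 E4} (he : e ∈ atlas E4 X4) {y : E4}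
    (hy : y ∈ e.target) : e (pX y) = y := by
  have := e.right_inv hy
  rwa [atlas_symm he] at this

lemma atlas_deck {e : OpenPartialHomeomorph X4 E4} (he : e ∈ atlas E4 X4) {v : E4}
    (hv : pX v ∈ e.source) : ∃ g : Gam, g • v = e (pX v) ∧ ∀ᶠ w in 𝓝 v, e (pX w) = g • w := by
  have h1 : pX (e (pX v)) = pX v := by
    have := e.left_inv hv
    rwa [atlas_symm he] at this
  obtain ⟨g, hg⟩ := pX_eq_iff.mp h1
  refine ⟨g, hg, ?_⟩
  have h2 : ∀ᶠ w in 𝓝 v, g • w ∈ e.target := by
    have hc : ContinuousAt (fun w : E4 => g • w) v := (continuous_const_smul g).continuousAt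
    apply hc.eventually_mem
    apply e.open_target.mem_nhds
    change g • v ∈ e.target
    rw [hg]
    exact e.map_source hv
  filter_upwards [h2] with w hw
  have := atlas_right he hw
  rwa [pX_smul] at this

instance : IsManifold (𝓡 4) ∞ X4 := by
  apply isManifold_of_contDiffOn
  intro e e' he he'
  intro y hy
  simp only [mfld_simps] at hy
  obtain ⟨hy1, hy2⟩ := hy
  have hy2' : pX y ∈ e'.source := by
    have := hy2
    rw [atlas_symm he] at this
    exact this
  obtain ⟨g, -, hg⟩ := atlas_deck he' hy2'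
  have h3 : ContDiffAt ℝ ∞ (fun w : E4 => g • w) y := (contDiff_smul (g : G4)).contDiffAt
  have h4 : ContDiffAt ℝ ∞ (↑(𝓡 4) ∘ ↑(e.symm.trans e') ∘ ↑(𝓡 4).symm) y := by
    apply h3.congr_of_eventuallyEq
    filter_upwards [hg] with w hw
    rw [← hw]
    simp only [Function.comp_apply, mfld_simps]
    rw [atlas_symm he]
  exact h4.contDiffWithinAt

instance : ConnectedSpace X4 := by
  have : Function.Surjective pX := pX_surj
  exact this.connectedSpace pX_covering.continuous

instance : CompactSpace X4 := by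
  have hK : IsCompact ({v : E4 | ∀ i, |v i| ≤ 3}) := by
    apply Metric.isCompact_of_isClosed_isBounded
    · have : {v : E4 | ∀ i, |v i| ≤ 3} = ⋂ i, {v : E4 | |v i| ≤ 3} := by
        ext v; simp
      rw [this]
      apply isClosed_iInter
      intro i
      exact isClosed_le (by fun_prop) continuous_const
    · rw [isBounded_iff_forall_norm_le]
      refine ⟨√(∑ i : Fin 4, 3 ^ 2), fun v hv => ?_⟩
      rw [EuclideanSpace.norm_eq]
      apply Real.sqrt_le_sqrt
      apply Finset.sum_le_sum
      intro i _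
      have := hv i
      rw [Real.norm_eq_abs]
      exact pow_le_pow_left₀ (abs_nonneg _) this 2
  have h2 : pX '' {v : E4 | ∀ i, |v i| ≤ 3} = univ := by
    rw [eq_univ_iff_forall]
    intro q
    obtain ⟨v, rfl⟩ := pX_surj q
    obtain ⟨g, hg⟩ := exists_smul_small v
    exact ⟨g • v, hg, pX_smul g v⟩
  exact ⟨by rw [← h2]; exact hK.image pX_covering.continuous⟩

instance : T2Space X4 := inferInstance

end Pool.Agent.H819R2
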