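import Mathlib
import Pool.Agent.H819R2.Mfd
import Pool.Agent.H819R2.Forms

/-!
# The symplectic form on `X = R^4 / Γ`
-/

open Set Filter
open scoped ContDiff Manifold Topology

noncomputable section

namespace Pool.Agent.H819R2.FourSix

/-- the standard symplectic form on `R^4` -/
def w0 : E4 [⋀^Fin 2]→L[ℝ] ℝ where
  toFun v := v 0 0 * v 1 1 - v 0 1 * v 1 0 + (v 0 2 * v 1 3 - v 0 3 * v 1 2)
  map_update_add' := by
    intro _ m i x y
    fin_cases i <;> simp [Function.update_apply] <;> ring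
  map_update_smul' := by
    intro _ m i c x
    fin_cases i <;> simp [Function.update_apply] <;> ring
  map_eq_zero_of_eq' := by
    intro v i j h hij
    fin_cases i <;> fin_cases j <;> simp at hij h <;> rw [h] <;> ring
  cont := by fun_prop

lemma w0_apply (a b : E4) : w0 ![a, b] = a 0 * b 1 - a 1 * b 0 + (a 2 * b 3 - a 3 * b 2) := rfl

lemma w0_apply' (v : Fin 2 → E4) :
    w0 v = v 0 0 * v 1 1 - v 0 1 * v 1 0 + (v 0 2 * v 1 3 - v 0 3 * v 1 2) := rfl

lemma w0_invariant (k : ℤ) (v : Fin 2 → E4) : w0 (fun i => linL k (v i)) = w0 v := by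
  rw [w0_apply', w0_apply']
  simp only [linL_apply, linE_0, linE_1, linE_2, linE_3]
  linear_combination (v 0 0 * v 1 1 - v 0 1 * v 1 0) * AR_det k

lemma hasMFDerivAt_pX (v : E4) : ∃ g : Gam, HasMFDerivAt 𝓘(ℝ, E4) (𝓡 4) pX v (linL (g : G4).k) := by
  obtain ⟨g, -, hg⟩ := atlas_deck (chart_mem_atlas E4 (pX v)) (mem_chart_source E4 (pX v))
  refine ⟨g, pX_covering.continuous.continuousAt, ?_⟩
  have h1 : writtenInExtChartAt 𝓘(ℝ, E4) (𝓡 4) v pX =ᶠ[𝓝 v] fun w => g • w := by
    filter_upwards [hg] with w hw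
    rw [← hw]
    simp [writtenInExtChartAt, extChartAt]
  have h2 : HasFDerivAt (fun w : E4 => g • w) (linL (g : G4).k) v := hasFDerivAt_smul (g : G4) v
  have h3 := h2.congr_of_eventuallyEq h1
  simp only [mfld_simps]
  exact h3.hasFDerivWithinAt

lemma contMDiff_pX : ContMDiff 𝓘(ℝ, E4) (𝓡 4) ∞ pX := by
  intro v
  rw [contMDiffAt_iff_target]
  refine ⟨pX_covering.continuous.continuousAt, ?_⟩
  obtain ⟨g, -, hg⟩ := atlas_deck (chart_mem_atlas E4 (pX v)) (mem_chart_source E4 (pX v))
  have h1 : (extChartAt (𝓡 4) (pX v) ∘ pX) =ᶠ[𝓝 v] fun w => g • w := by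
    filter_upwards [hg] with w hw
    rw [← hw]
    simp [extChartAt]
  rw [contMDiffAt_iff_contDiffAt]
  exact ((contDiff_smul (g : G4)).contDiffAt).congr_of_eventuallyEq h1

/-- the symplectic form on `X` -/
def omX : TwoForm (𝓡 4) X4 := fun _ => w0

lemma pullV_pX (v : E4) : pullV pX omX v = w0 := by
  obtain ⟨g, hg⟩ := hasMFDerivAt_pX v
  ext a
  rw [pullV_apply]
  have h2 : (fun i => (show E4 →L[ℝ] E4 from mfderiv 𝓘(ℝ, E4) (𝓡 4) pX v) (a i)) =
      fun i => linL (g : G4).k (a i) := by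
    funext i
    rw [hg.mfderiv]
  rw [h2]
  exact w0_invariant _ a

lemma extChart_symm_eq (x₀ : X4) : ⇑(extChartAt (𝓡 4) x₀).symm = pX := by
  funext y
  have := atlas_symm (chart_mem_atlas E4 x₀) y
  simp only [mfld_simps]
  exact this

lemma inChart_omX (x₀ : X4) (y : E4) : TwoForm.inChart omX x₀ y = w0 := by
  have h : TwoForm.inChart omX x₀ y = pullV (extChartAt (𝓡 4) x₀).symm omX y := rfl
  rw [h, extChart_symm_eq]
  exact pullV_pX y

lemma omX_symplectic : IsSymplectic omX where
  smooth x₀ := by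
    have : TwoForm.inChart omX x₀ = fun _ => w0 := funext (inChart_omX x₀)
    rw [this]
    exact contDiffOn_const
  closed x₀ y hy := by
    have : TwoForm.inChart omX x₀ = fun _ => w0 := funext (inChart_omX x₀)
    rw [this]
    ext a
    rw [extDeriv_apply (differentiableAt_const _)]
    simp
  nondegenerate x v hv := by
    have key : ∀ v : E4, (∀ w : E4, w0 ![v, w] = 0) → v = 0 := by
      intro v hv
      have h : ∀ w : E4, v 0 * w 1 - v 1 * w 0 + (v 2 * w 3 - v 3 * w 2) = 0 := fun w => hv w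
      apply E4_ext
      · simpa using h (EuclideanSpace.single 1 1)
      · simpa using h (EuclideanSpace.single 0 1)
      · simpa using h (EuclideanSpace.single 3 1)
      · simpa using h (EuclideanSpace.single 2 1)
    exact key v hv

end Pool.Agent.H819R2.FourSix
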