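import Mathlib
import Pool.Agent.H819R2.XForm
import Pool.Agent.H819R2.Mat

/-!
# The parametrisation of `X × S^2`
-/

open Set Filter Real
open scoped ContDiff Manifold Topology

noncomputable section

namespace Pool.Agent.H819R2.FourSix

/-- Euclidean 3-space -/
abbrev E3 : Type := EuclideanSpace ℝ (Fin 3)

/-- the first four coordinates -/
def toE4 : V6 →L[ℝ] E4 :=
  LinearMap.toContinuousLinearMap
    { toFun := fun u => !₂[u 0, u 1, u 2, u 3]
      map_add' := by intro v w; apply E4_ext <;> simp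
      map_smul' := by intro c v; apply E4_ext <;> simp }

lemma toE4_apply (u : V6) : toE4 u = !₂[u 0, u 1, u 2, u 3] := rfl

/-- spherical coordinates -/
def sph (u : V6) : E3 := !₂[sin (u 4) * cos (u 5), sin (u 4) * sin (u 5), cos (u 4)]

lemma sph_0 (u : V6) : sph u 0 = sin (u 4) * cos (u 5) := rfl
lemma sph_1 (u : V6) : sph u 1 = sin (u 4) * sin (u 5) := rfl
lemma sph_2 (u : V6) : sph u 2 = cos (u 4) := rfl

lemma sph_mem (u : V6) : sph u ∈ Metric.sphere (0 : E3) 1 := by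
  rw [mem_sphere_zero_iff_norm, EuclideanSpace.norm_eq, Real.sqrt_eq_one, Fin.sum_univ_three,
    sph_0, sph_1, sph_2]
  simp only [Real.norm_eq_abs, sq_abs]
  nlinarith [sin_sq_add_cos_sq (u 4), sin_sq_add_cos_sq (u 5)]

/-- spherical coordinates as a map to the sphere -/
def Phi (u : V6) : S2 := ⟨sph u, sph_mem u⟩

lemma contDiff_sph : ContDiff ℝ ∞ sph := by
  rw [contDiff_euclidean]
  intro i
  fin_cases i
  · exact ((contDiff_sin.comp (contDiff_apply ℝ ℝ 4)).mul (contDiff_cos.comp (contDiff_apply ℝ ℝ 5)))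
  · exact ((contDiff_sin.comp (contDiff_apply ℝ ℝ 4)).mul (contDiff_sin.comp (contDiff_apply ℝ ℝ 5)))
  · exact (contDiff_cos.comp (contDiff_apply ℝ ℝ 4))

lemma fact3 : Fact (Module.finrank ℝ (EuclideanSpace ℝ (Fin (2 + 1))) = 2 + 1) :=
  ⟨finrank_euclideanSpace_fin⟩

lemma contMDiff_Phi : ContMDiff 𝓘(ℝ, V6) (𝓡 2) ∞ Phi := by
  have := fact3
  exact ContMDiff.codRestrict_sphere (n := 2) (E := EuclideanSpace ℝ (Fin (2 + 1)))
    contDiff_sph.contMDiff sph_mem

lemma contMDiff_coeS2 : ContMDiff (𝓡 2) 𝓘(ℝ, E3) ∞ (fun s : S2 => (s : E3)) := by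
  have := fact3
  exact contMDiff_coe_sphere (n := 2) (E := EuclideanSpace ℝ (Fin (2 + 1)))

lemma mfderiv_coeS2_injective (s : S2) :
    Function.Injective (mfderiv (𝓡 2) 𝓘(ℝ, E3) (fun s : S2 => (s : E3)) s) := by
  have := fact3
  exact mfderiv_coe_sphere_injective (n := 2) (E := EuclideanSpace ℝ (Fin (2 + 1))) s

/-- the parametrisation -/
def g0 (u : V6) : X4 × S2 := (pX (toE4 u), Phi u)

lemma contMDiff_g0 : ContMDiff 𝓘(ℝ, V6) ((𝓡 4).prod (𝓡 2)) ∞ g0 :=
  (contMDiff_pX.comp toE4.contDiff.contMDiff).prodMk contMDiff_Phi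

/-- derivative of the spherical coordinates -/
lemma fderiv_sph (u w : V6) : fderiv ℝ sph u w =
    !₂[w 4 * (cos (u 4) * cos (u 5)) - w 5 * (sin (u 4) * sin (u 5)),
      w 4 * (cos (u 4) * sin (u 5)) + w 5 * (sin (u 4) * cos (u 5)), - (w 4 * sin (u 4))] := by
  have h4 : HasFDerivAt (fun u : V6 => u 4) (ContinuousLinearMap.proj 4 : V6 →L[ℝ] ℝ) u :=
    hasFDerivAt_apply 4 u
  have h5 : HasFDerivAt (fun u : V6 => u 5) (ContinuousLinearMap.proj 5 : V6 →L[ℝ] ℝ) u :=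
    hasFDerivAt_apply 5 u
  have hd : DifferentiableAt ℝ sph u := contDiff_sph.differentiable (by norm_num) u
  have hc : ∀ i : Fin 3, (fderiv ℝ sph u w) i = fderiv ℝ (fun u => sph u i) u w := by
    intro i
    have h6 : HasFDerivAt (fun u => sph u i)
        ((EuclideanSpace.proj i : E3 →L[ℝ] ℝ).comp (fderiv ℝ sph u)) u :=
      (EuclideanSpace.proj i : E3 →L[ℝ] ℝ).hasFDerivAt.comp u hd.hasFDerivAt
    rw [h6.fderiv]
    rfl
  ext i
  rw [hc]
  fin_cases i
  · have := (h4.sin.fun_mul h5.cos).fderiv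
    change fderiv ℝ (fun u : V6 => sin (u 4) * cos (u 5)) u w = _
    rw [this]
    simp
    ring
  · have := (h4.sin.fun_mul h5.sin).fderiv
    change fderiv ℝ (fun u : V6 => sin (u 4) * sin (u 5)) u w = _
    rw [this]
    simp
    ring
  · have := (h4.cos).fderiv
    change fderiv ℝ (fun u : V6 => cos (u 4)) u w = _
    rw [this]
    simp
    ring

lemma sph_eq_comp : sph = (fun s : S2 => (s : E3)) ∘ Phi := rfl

lemma mfderiv_sph (u w : V6) : fderiv ℝ sph u w =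
    (show EuclideanSpace ℝ (Fin 2) →L[ℝ] E3 from
      mfderiv (𝓡 2) 𝓘(ℝ, E3) (fun s : S2 => (s : E3)) (Phi u))
    ((show V6 →L[ℝ] EuclideanSpace ℝ (Fin 2) from mfderiv 𝓘(ℝ, V6) (𝓡 2) Phi u) w) := by
  have h := mfderiv_comp_apply' (I := 𝓡 2) (J := 𝓘(ℝ, E3)) (f := fun s : S2 => (s : E3)) (g := Phi)
    (v := u) ((contMDiff_coeS2 _).mdifferentiableAt (by norm_num))
    ((contMDiff_Phi u).mdifferentiableAt (by norm_num)) w
  rw [← h, ← sph_eq_comp, mfderiv_eq_fderiv]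

lemma mfderiv_Phi_eq_zero {u w : V6} (h : fderiv ℝ sph u w = 0) :
    (show V6 →L[ℝ] EuclideanSpace ℝ (Fin 2) from mfderiv 𝓘(ℝ, V6) (𝓡 2) Phi u) w = 0 := by
  rw [mfderiv_sph] at h
  exact mfderiv_coeS2_injective (Phi u) (h.trans (map_zero _).symm)

/-- the derivative of the parametrisation -/
lemma mfderiv_g0 (u w : V6) :
    (show V6 →L[ℝ] E4 × EuclideanSpace ℝ (Fin 2) from mfderiv 𝓘(ℝ, V6) ((𝓡 4).prod (𝓡 2)) g0 u) w =
      ((show E4 →L[ℝ] E4 from mfderiv 𝓘(ℝ, E4) (𝓡 4) pX (toE4 u)) (toE4 w),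
        (show V6 →L[ℝ] EuclideanSpace ℝ (Fin 2) from mfderiv 𝓘(ℝ, V6) (𝓡 2) Phi u) w) := by
  have hd1 : MDifferentiableAt 𝓘(ℝ, V6) (𝓡 4) (fun u : V6 => pX (toE4 u)) u :=
    ((contMDiff_pX.comp toE4.contDiff.contMDiff) u).mdifferentiableAt (by norm_num)
  have hd2 : MDifferentiableAt 𝓘(ℝ, V6) (𝓡 2) Phi u :=
    (contMDiff_Phi u).mdifferentiableAt (by norm_num)
  have h := mfderiv_prodMk hd1 hd2
  have h2 := congrArg (fun L : V6 →L[ℝ] E4 × EuclideanSpace ℝ (Fin 2) => L w) h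
  refine h2.trans ?_
  refine Prod.ext ?_ rfl
  have h3 := mfderiv_comp_apply' (I := 𝓘(ℝ, E4)) (J := 𝓡 4) (f := pX) (g := toE4) (v := u)
    ((contMDiff_pX _).mdifferentiableAt (by norm_num))
    toE4.differentiableAt.mdifferentiableAt w
  refine h3.trans ?_
  congr 1
  rw [mfderiv_eq_fderiv, toE4.fderiv]

lemma mfderiv_pX_injective (v : E4) :
    Function.Injective ⇑(show E4 →L[ℝ] E4 from mfderiv 𝓘(ℝ, E4) (𝓡 4) pX v) := by
  obtain ⟨g, hg⟩ := hasMFDerivAt_pX v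
  rw [hg.mfderiv]
  rw [injective_iff_map_eq_zero]
  intro w hw
  change linL (g : G4).k w = 0 at hw
  have h0 := congrArg (fun w : E4 => w 0) hw
  have h1 := congrArg (fun w : E4 => w 1) hw
  have h2 := congrArg (fun w : E4 => w 2) hw
  have h3 := congrArg (fun w : E4 => w 3) hw
  simp only [linL_apply, linE_0, linE_1, linE_2, linE_3, PiLp.zero_apply] at h0 h1 h2 h3
  have hdet := AR_det (g : G4).k
  apply E4_ext
  · simp only [PiLp.zero_apply]
    linear_combination (AR (g : G4).k 1 1) * h0 - (AR (g : G4).k 0 1) * h1 - (w 0) * hdet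
  · simp only [PiLp.zero_apply]
    linear_combination (AR (g : G4).k 0 0) * h1 - (AR (g : G4).k 1 0) * h0 - (w 1) * hdet
  · exact h2
  · exact h3

lemma g0_immersion (u : V6) (h0 : 0 < u 4) (h1 : u 4 < π) :
    Function.Bijective ⇑(show V6 →L[ℝ] E4 × EuclideanSpace ℝ (Fin 2) from
      mfderiv 𝓘(ℝ, V6) ((𝓡 4).prod (𝓡 2)) g0 u) := by
  set L : V6 →L[ℝ] E4 × EuclideanSpace ℝ (Fin 2) := mfderiv 𝓘(ℝ, V6) ((𝓡 4).prod (𝓡 2)) g0 u with hL
  have hsin : sin (u 4) ≠ 0 := (sin_pos_of_pos_of_lt_pi h0 h1).ne'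
  have hinj : Function.Injective L := by
    rw [injective_iff_map_eq_zero]
    intro w hw
    have hw' := (mfderiv_g0 u w).symm.trans hw
    have e1 := congrArg Prod.fst hw'
    have e2 := congrArg Prod.snd hw'
    have e3 : toE4 w = 0 := mfderiv_pX_injective (toE4 u) (e1.trans (map_zero _).symm)
    have e4 : fderiv ℝ sph u w = 0 := by
      rw [mfderiv_sph]
      have e2' : (show V6 →L[ℝ] EuclideanSpace ℝ (Fin 2) from mfderiv 𝓘(ℝ, V6) (𝓡 2) Phi u) w = 0 := e2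
      rw [e2', map_zero]
    rw [fderiv_sph] at e4
    have f0 : w 4 * (cos (u 4) * cos (u 5)) - w 5 * (sin (u 4) * sin (u 5)) = 0 :=
      congrArg (fun w : E3 => w 0) e4
    have f1 : w 4 * (cos (u 4) * sin (u 5)) + w 5 * (sin (u 4) * cos (u 5)) = 0 :=
      congrArg (fun w : E3 => w 1) e4
    have f2 : - (w 4 * sin (u 4)) = 0 := congrArg (fun w : E3 => w 2) e4
    have w4 : w 4 = 0 := by
      rcases mul_eq_zero.mp (neg_eq_zero.mp f2) with h | h
      · exact h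
      · exact absurd h hsin
    rw [w4] at f0 f1
    have w5 : w 5 = 0 := by
      have hz : w 5 * sin (u 4) = 0 := by
        have := sin_sq_add_cos_sq (u 5)
        have g0' : w 5 * (sin (u 4) * sin (u 5)) = 0 := by linarith
        have g1' : w 5 * (sin (u 4) * cos (u 5)) = 0 := by linarith
        linear_combination sin (u 5) * g0' + cos (u 5) * g1' - w 5 * sin (u 4) * this
      rcases mul_eq_zero.mp hz with h | h
      · exact h
      · exact absurd h hsin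
    have a0 := congrArg (fun w : E4 => w 0) e3
    have a1 := congrArg (fun w : E4 => w 1) e3
    have a2 := congrArg (fun w : E4 => w 2) e3
    have a3 := congrArg (fun w : E4 => w 3) e3
    simp [toE4_apply] at a0 a1 a2 a3
    funext i
    fin_cases i
    · exact a0
    · exact a1
    · exact a2
    · exact a3
    · exact w4
    · exact w5
  refine ⟨hinj, ?_⟩
  have hfin : Module.finrank ℝ V6 = Module.finrank ℝ (E4 × EuclideanSpace ℝ (Fin 2)) := by
    rw [Module.finrank_prod]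
    simp
  exact (LinearMap.injective_iff_surjective_of_finrank_eq_finrank hfin
    (f := (L : V6 →ₗ[ℝ] E4 × EuclideanSpace ℝ (Fin 2)))).mp hinj

lemma g0_pole (u : V6) (h : u 4 = 0 ∨ u 4 = π) :
    (show V6 →L[ℝ] E4 × EuclideanSpace ℝ (Fin 2) from
      mfderiv 𝓘(ℝ, V6) ((𝓡 4).prod (𝓡 2)) g0 u) (Pi.single 5 1) = 0 := by
  rw [mfderiv_g0]
  have hsin : sin (u 4) = 0 := by
    rcases h with h | h <;> rw [h] <;> simp
  have e1 : toE4 (Pi.single 5 1) = 0 := by
    apply E4_ext <;> simp [toE4_apply]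
  have e2 : fderiv ℝ sph u (Pi.single 5 1) = 0 := by
    rw [fderiv_sph, hsin]
    ext i; fin_cases i <;> simp
  rw [mfderiv_Phi_eq_zero e2, e1, map_zero]
  rfl

lemma g0_per (k : Fin 6) (h2 : k ≠ 2) (h4 : k ≠ 4) (u : V6) :
    g0 (u + Pi.single k (L6 k)) = g0 u := by
  have key : ∀ (g : Gam) , toE4 (u + Pi.single k (L6 k)) = g • toE4 u →
      sph (u + Pi.single k (L6 k)) = sph u → g0 (u + Pi.single k (L6 k)) = g0 u := by
    intro g hg hs
    refine Prod.ext ?_ (Subtype.ext hs)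
    change pX _ = pX _
    rw [hg, pX_smul]
  fin_cases k
  · refine key ⟨⟨![3, 0], 0, 0⟩, ?_⟩ ?_ ?_
    · intro i; fin_cases i <;> simp
    · rw [smul_def']
      apply E4_ext <;> simp [toE4_apply, L6, AR_zero]
    · simp [sph]
  · refine key ⟨⟨![0, 3], 0, 0⟩, ?_⟩ ?_ ?_
    · intro i; fin_cases i <;> simp
    · rw [smul_def']
      apply E4_ext <;> simp [toE4_apply, L6, AR_zero]
    · simp [sph]
  · exact absurd rfl h2
  · refine key ⟨⟨![0, 0], 0, 3⟩, ?_⟩ ?_ ?_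
    · intro i; fin_cases i <;> simp
    · rw [smul_def']
      apply E4_ext <;> simp [toE4_apply, L6, AR_zero]
    · simp [sph]
  · exact absurd rfl h4
  · refine key 1 ?_ ?_
    · rw [one_smul]
      apply E4_ext <;> simp [toE4_apply]
    · simp [sph, L6]

lemma aMap_0 (u : V6) : aMap u 0 = 37 * u 0 + 12 * u 1 := by
  simp [aMap, T6, Matrix.mulVec, dotProduct, Fin.sum_univ_six, Pi.single_apply]
lemma aMap_1 (u : V6) : aMap u 1 = 3 * u 0 + u 1 := by
  simp [aMap, T6, Matrix.mulVec, dotProduct, Fin.sum_univ_six, Pi.single_apply]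
lemma aMap_2 (u : V6) : aMap u 2 = u 2 + 1 := by
  simp [aMap, T6, Matrix.mulVec, dotProduct, Fin.sum_univ_six, Pi.single_apply]
lemma aMap_3 (u : V6) : aMap u 3 = u 3 := by
  simp [aMap, T6, Matrix.mulVec, dotProduct, Fin.sum_univ_six, Pi.single_apply]
lemma aMap_4 (u : V6) : aMap u 4 = u 4 := by
  simp [aMap, T6, Matrix.mulVec, dotProduct, Fin.sum_univ_six, Pi.single_apply]
lemma aMap_5 (u : V6) : aMap u 5 = u 5 := by
  simp [aMap, T6, Matrix.mulVec, dotProduct, Fin.sum_univ_six, Pi.single_apply]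

lemma g0_equi (u : V6) : g0 (aMap u) = g0 u := by
  have h1 : toE4 (aMap u) = ga • toE4 u := by
    rw [smul_def']
    have hk : (ga : G4).k = 1 := rfl
    have hA : ∀ i j, AR 1 i j = ((!![37, 12; 3, 1] : Matrix (Fin 2) (Fin 2) ℤ) i j : ℝ) := by
      intro i j; unfold AR; rw [A2_zpow_one]
    apply E4_ext
    · change aMap u 0 = AR 1 0 0 * u 0 + AR 1 0 1 * u 1 + ((0 : ℤ) : ℝ)
      rw [aMap_0, hA, hA]; simp
    · change aMap u 1 = AR 1 1 0 * u 0 + AR 1 1 1 * u 1 + ((0 : ℤ) : ℝ)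
      rw [aMap_1, hA, hA]; simp
    · change aMap u 2 = u 2 + ((1 : ℤ) : ℝ)
      rw [aMap_2]; simp
    · change aMap u 3 = u 3 + ((0 : ℤ) : ℝ)
      rw [aMap_3]; simp
  have h2 : sph (aMap u) = sph u := by
    unfold sph
    rw [aMap_4, aMap_5]
  refine Prod.ext ?_ (Subtype.ext h2)
  change pX _ = pX _
  rw [h1, pX_smul]

/-- The main nonvanishing result, for `F ∘ g0` with `F` a diffeomorphism. -/
theorem bet_comp_ne_zero (F : (X4 × S2) ≃ₘ^∞⟮(𝓡 4).prod (𝓡 2), (𝓡 4).prod (𝓡 2)⟯ (X4 × S2))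
    {η : TwoForm ((𝓡 4).prod (𝓡 2)) (X4 × S2)} (hη : IsSymplectic η) :
    bet (mat (F ∘ g0) η) ≠ 0 := by
  have hchain : ∀ u w : V6, (show V6 →L[ℝ] E4 × EuclideanSpace ℝ (Fin 2) from
      mfderiv 𝓘(ℝ, V6) ((𝓡 4).prod (𝓡 2)) (F ∘ g0) u) w =
      (show (E4 × EuclideanSpace ℝ (Fin 2)) →L[ℝ] E4 × EuclideanSpace ℝ (Fin 2) from
        mfderiv ((𝓡 4).prod (𝓡 2)) ((𝓡 4).prod (𝓡 2)) F (g0 u))
      ((show V6 →L[ℝ] E4 × EuclideanSpace ℝ (Fin 2) from
      mfderiv 𝓘(ℝ, V6) ((𝓡 4).prod (𝓡 2)) g0 u) w) := fun u w =>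
    mfderiv_comp_apply' (F.contMDiff.mdifferentiable (by norm_num) _)
      ((contMDiff_g0 u).mdifferentiableAt (by norm_num)) w
  apply bet_mat_ne_zero (F.contMDiff.comp contMDiff_g0) hη
  · intro k h2 h4 u
    exact congrArg F (g0_per k h2 h4 u)
  · intro u
    exact congrArg F (g0_equi u)
  · intro u hu
    rw [hchain, g0_pole u hu, map_zero]
  · intro u h0 h1
    have hb := g0_immersion u h0 h1
    have hF : Function.Bijective ⇑(show (E4 × EuclideanSpace ℝ (Fin 2)) →L[ℝ]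
        E4 × EuclideanSpace ℝ (Fin 2) from
        mfderiv ((𝓡 4).prod (𝓡 2)) ((𝓡 4).prod (𝓡 2)) F (g0 u)) := by
      have := (F.mfderivToContinuousLinearEquiv (by norm_num) (g0 u)).bijective
      exact this
    have := hF.comp hb
    convert this using 1
    funext w
    exact hchain u w

end Pool.Agent.H819R2.FourSix
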