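import Mathlib
import Pool.Agent.H819R2.Psi

/-!
# Lifting maps to the universal cover of `X`
-/

open Set Filter
open scoped ContDiff Manifold Topology

noncomputable section

namespace Pool.Agent.H819R2.FourSix

/-- the chart domain -/
abbrev E2' : Type := EuclideanSpace ℝ (Fin 2)

instance : LocallyPathConnectedSpace (E4 × E2') := inferInstance

lemma lift_vec {A : Type*} [NormedAddCommGroup A] [NormedSpace ℝ A] (f : C(A, X4)) (a₀ : A) (e₀ : E4)
    (he : pX e₀ = f a₀) : ∃ G : C(A, E4), G a₀ = e₀ ∧ ∀ a, pX (G a) = f a := by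
  obtain ⟨G, ⟨h1, h2⟩, -⟩ := pX_covering.existsUnique_continuousMap_lifts f a₀ e₀ he
  exact ⟨G, h1, fun a => congrFun h2 a⟩

/-- stereographic projections -/
def st (v : S2) : OpenPartialHomeomorph S2 E2' :=
  have := fact3
  stereographic' (E := EuclideanSpace ℝ (Fin (2 + 1))) 2 v

lemma st_source (v : S2) : (st v).source = {v}ᶜ := by
  have := fact3
  exact stereographic'_source (E := EuclideanSpace ℝ (Fin (2 + 1))) (n := 2) v

lemma st_target (v : S2) : (st v).target = univ := by
  have := fact3
  exact stereographic'_target (E := EuclideanSpace ℝ (Fin (2 + 1))) (n := 2) v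

lemma st_symm_continuous (v : S2) : Continuous (st v).symm := by
  have := (st v).continuousOn_symm
  rw [st_target] at this
  exact continuousOn_univ.mp this

lemma overlap_preconnected {v w : S2} (hvw : w ≠ v) : IsPreconnected ({v}ᶜ ∩ {w}ᶜ : Set S2) := by
  have h1 : ({v}ᶜ ∩ {w}ᶜ : Set S2) = (st v).symm '' {st v w}ᶜ := by
    ext s
    constructor
    · rintro ⟨hs1, hs2⟩
      have hs : s ∈ (st v).source := by rw [st_source]; exact hs1
      have hw : w ∈ (st v).source := by rw [st_source]; exact hvw
      refine ⟨st v s, ?_, (st v).left_inv hs⟩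
      intro h
      exact hs2 ((st v).injOn hs hw h)
    · rintro ⟨y, hy, rfl⟩
      have hyt : y ∈ (st v).target := by rw [st_target]; trivial
      have hm := (st v).map_target hyt
      rw [st_source] at hm
      refine ⟨hm, ?_⟩
      intro h
      apply hy
      rw [mem_singleton_iff] at h ⊢
      rw [← h, (st v).right_inv hyt]
  rw [h1]
  apply IsPreconnected.image
  · refine (isConnected_compl_singleton_of_one_lt_rank ?_ _).isPreconnected
    rw [← Module.finrank_eq_rank]
    simp
  · exact (st_symm_continuous v).continuousOn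

/-- the north pole -/
def northP : S2 := ⟨!₂[0, 0, 1], by rw [mem_sphere_zero_iff_norm, EuclideanSpace.norm_eq]; simp [Fin.sum_univ_three]⟩
/-- the south pole -/
def southP : S2 := ⟨!₂[0, 0, -1], by rw [mem_sphere_zero_iff_norm, EuclideanSpace.norm_eq]; simp [Fin.sum_univ_three]⟩
/-- a point on the equator -/
def eastP : S2 := ⟨!₂[1, 0, 0], by rw [mem_sphere_zero_iff_norm, EuclideanSpace.norm_eq]; simp [Fin.sum_univ_three]⟩

lemma north_ne_south : southP ≠ northP := by
  intro h
  have := congrArg (fun s : S2 => (s : E3) 2) h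
  simp [northP, southP] at this
  norm_num at this

lemma east_ne_north : eastP ≠ northP := by
  intro h
  have := congrArg (fun s : S2 => (s : E3) 0) h
  simp [northP, eastP] at this

lemma east_ne_south : eastP ≠ southP := by
  intro h
  have := congrArg (fun s : S2 => (s : E3) 0) h
  simp [southP, eastP] at this

/-- lifting over `R^4 × S^2` -/
lemma exists_lift (f : C(E4 × S2, X4)) : ∃ G : C(E4 × S2, E4), ∀ p, pX (G p) = f p := by
  -- lift over the two charts
  have hc : ∀ v : S2, Continuous (fun q : E4 × E2' => f (q.1, (st v).symm q.2)) := by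
    intro v
    exact f.continuous.comp (continuous_fst.prodMk ((st_symm_continuous v).comp continuous_snd))
  have heN : eastP ∈ (st northP).source := by rw [st_source]; exact east_ne_north
  have heS : eastP ∈ (st southP).source := by rw [st_source]; exact east_ne_south
  obtain ⟨e₀, he₀⟩ := pX_surj (f ((0 : E4), eastP))
  obtain ⟨G1, h10, h1⟩ := lift_vec ⟨_, hc northP⟩ ((0 : E4), st northP eastP) e₀ (by
    rw [he₀]; simp only [ContinuousMap.coe_mk]; rw [(st northP).left_inv heN])
  obtain ⟨G2, h20, h2⟩ := lift_vec ⟨_, hc southP⟩ ((0 : E4), st southP eastP) e₀ (by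
    rw [he₀]; simp only [ContinuousMap.coe_mk]; rw [(st southP).left_inv heS])
  simp only [ContinuousMap.coe_mk] at h1 h2
  -- the two lifts on the sphere
  have hcN : ContinuousOn (fun q : E4 × S2 => G1 (q.1, st northP q.2)) (univ ×ˢ {northP}ᶜ) := by
    apply G1.continuous.comp_continuousOn
    apply continuousOn_fst.prodMk
    have := (st northP).continuousOn
    rw [st_source] at this
    exact this.comp continuousOn_snd (fun q hq => hq.2)
  have hcS : ContinuousOn (fun q : E4 × S2 => G2 (q.1, st southP q.2)) (univ ×ˢ {southP}ᶜ) := by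
    apply G2.continuous.comp_continuousOn
    apply continuousOn_fst.prodMk
    have := (st southP).continuousOn
    rw [st_source] at this
    exact this.comp continuousOn_snd (fun q hq => hq.2)
  have hpN : ∀ q : E4 × S2, q.2 ≠ northP → pX (G1 (q.1, st northP q.2)) = f q := by
    intro q hq
    rw [h1]
    simp only
    rw [(st northP).left_inv (by rw [st_source]; exact hq)]
  have hpS : ∀ q : E4 × S2, q.2 ≠ southP → pX (G2 (q.1, st southP q.2)) = f q := by
    intro q hq
    rw [h2]
    simp only
    rw [(st southP).left_inv (by rw [st_source]; exact hq)]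
  -- they agree on the overlap
  have hov : IsPreconnected ((univ : Set E4) ×ˢ ({northP}ᶜ ∩ {southP}ᶜ : Set S2)) :=
    isPreconnected_univ.prod (overlap_preconnected north_ne_south)
  have hagree : Set.EqOn (fun q : E4 × S2 => G1 (q.1, st northP q.2))
      (fun q : E4 × S2 => G2 (q.1, st southP q.2)) ((univ : Set E4) ×ˢ ({northP}ᶜ ∩ {southP}ᶜ : Set S2)) := by
    apply pX_covering.eqOn_of_comp_eqOn hov
      (hcN.mono (prod_mono_right inter_subset_left)) (hcS.mono (prod_mono_right inter_subset_right))
    · intro q hq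
      simp only [Function.comp_apply]
      rw [hpN q hq.2.1, hpS q hq.2.2]
    · exact (⟨trivial, east_ne_north, east_ne_south⟩ : ((0 : E4), eastP) ∈
        ((univ : Set E4) ×ˢ ({northP}ᶜ ∩ {southP}ᶜ : Set S2)))
    · simp only
      rw [h10, h20]
  classical
  let G : E4 × S2 → E4 := fun q => if q.2 = northP then G2 (q.1, st southP q.2) else
    G1 (q.1, st northP q.2)
  have hGN : ∀ q : E4 × S2, q.2 ≠ northP → G q = G1 (q.1, st northP q.2) := by
    intro q hq
    simp only [G, if_neg hq]
  have hGS : ∀ q : E4 × S2, q.2 ≠ southP → G q = G2 (q.1, st southP q.2) := by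
    intro q hq
    by_cases h : q.2 = northP
    · simp only [G, if_pos h]
    · rw [hGN q h]
      exact hagree ⟨trivial, h, hq⟩
  have hGc : Continuous G := by
    rw [continuous_iff_continuousAt]
    intro q
    by_cases h : q.2 = northP
    · have hs : q.2 ≠ southP := by rw [h]; exact north_ne_south.symm
      have hopen : IsOpen ((univ : Set E4) ×ˢ ({southP}ᶜ : Set S2)) :=
        isOpen_univ.prod isOpen_compl_singleton
      have hmem : q ∈ ((univ : Set E4) ×ˢ ({southP}ᶜ : Set S2)) := ⟨trivial, hs⟩
      refine (hcS.continuousAt (hopen.mem_nhds hmem)).congr ?_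
      filter_upwards [hopen.mem_nhds hmem] with r hr
      exact (hGS r hr.2).symm
    · have hopen : IsOpen ((univ : Set E4) ×ˢ ({northP}ᶜ : Set S2)) :=
        isOpen_univ.prod isOpen_compl_singleton
      have hmem : q ∈ ((univ : Set E4) ×ˢ ({northP}ᶜ : Set S2)) := ⟨trivial, h⟩
      refine (hcN.continuousAt (hopen.mem_nhds hmem)).congr ?_
      filter_upwards [hopen.mem_nhds hmem] with r hr
      exact (hGN r hr.2).symm
  refine ⟨⟨G, hGc⟩, fun q => ?_⟩
  change pX (G q) = f q
  by_cases h : q.2 = northP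
  · have hs : q.2 ≠ southP := by rw [h]; exact north_ne_south.symm
    rw [hGS q hs, hpS q hs]
  · rw [hGN q h, hpN q h]

instance : PreconnectedSpace S2 := by
  apply Subtype.preconnectedSpace
  apply isPreconnected_sphere
  rw [← Module.finrank_eq_rank]
  simp

/-- two lifts of the same map over a connected space differ by a deck transformation -/
lemma lifts_differ {A : Type*} [TopologicalSpace A] [PreconnectedSpace A] (a₀ : A) {g h : A → E4}
    (hg : Continuous g) (hh : Continuous h) (e : ∀ a, pX (g a) = pX (h a)) :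
    ∃ γ : Gam, ∀ a, g a = γ • h a := by
  obtain ⟨γ, hγ⟩ := pX_eq_iff.mp (e a₀)
  refine ⟨γ, fun a => ?_⟩
  have := pX_covering.eq_of_comp_eq hg (hh.const_smul γ) (by
    funext a
    simp only [Function.comp_apply]
    rw [e a]
    exact (pX_smul γ (h a)).symm) a₀ hγ.symm
  exact congrFun this a

lemma smul_cancel {γ δ : Gam} {v : E4} (h : γ • v = δ • v) : γ = δ :=
  IsCancelSMul.right_cancel γ δ v h

/-- equivariance of the lift -/
lemma exists_hom (G : C(E4 × S2, E4)) (hG : ∀ (γ : Gam) (q : E4 × S2),
    pX (G (γ • q.1, q.2)) = pX (G q)) :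
    ∃ θ : Gam →* Gam, ∀ (γ : Gam) (x : E4) (s : S2), G (γ • x, s) = θ γ • G (x, s) := by
  have h1 : ∀ γ : Gam, ∃ δ : Gam, ∀ q : E4 × S2, G (γ • q.1, q.2) = δ • G q := by
    intro γ
    apply lifts_differ ((0 : E4), northP)
    · exact G.continuous.comp ((continuous_fst.const_smul γ).prodMk continuous_snd)
    · exact G.continuous
    · exact hG γ
  choose θ hθ using h1
  refine ⟨⟨⟨θ, ?_⟩, ?_⟩, fun γ x s => hθ γ (x, s)⟩
  · have := hθ 1 ((0 : E4), northP)
    rw [one_smul] at this
    apply smul_cancel (v := G ((0 : E4), northP))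
    rw [one_smul]
    exact this.symm
  · intro γ δ
    apply smul_cancel (v := G ((0 : E4), northP))
    have h2 := hθ (γ * δ) ((0 : E4), northP)
    have h3 := hθ γ (δ • (0 : E4), northP)
    have h4 := hθ δ ((0 : E4), northP)
    simp only at h2 h3 h4
    rw [← h2, mul_smul, h3, h4, mul_smul]

/-- the lift of a homeomorphism and its automorphism -/
theorem exists_aut (F : (X4 × S2) ≃ₜ (X4 × S2)) :
    ∃ (G : C(E4 × S2, E4)) (θ : Gam ≃* Gam),
      (∀ x s, pX (G (x, s)) = (F (pX x, s)).1) ∧
      ∀ (γ : Gam) (x : E4) (s : S2), G (γ • x, s) = θ γ • G (x, s) := by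
  have key : ∀ F : (X4 × S2) ≃ₜ (X4 × S2), ∃ (G : C(E4 × S2, E4)) (θ : Gam →* Gam),
      (∀ x s, pX (G (x, s)) = (F (pX x, s)).1) ∧
      ∀ (γ : Gam) (x : E4) (s : S2), G (γ • x, s) = θ γ • G (x, s) := by
    intro F
    have hc : Continuous (fun q : E4 × S2 => (F (pX q.1, q.2)).1) :=
      continuous_fst.comp (F.continuous.comp
        ((pX_covering.continuous.comp continuous_fst).prodMk continuous_snd))
    obtain ⟨G, hG⟩ := exists_lift ⟨_, hc⟩
    simp only [ContinuousMap.coe_mk] at hG
    obtain ⟨θ, hθ⟩ := exists_hom G (by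
      intro γ q
      rw [hG, hG]
      simp only
      rw [pX_smul])
    exact ⟨G, θ, fun x s => hG (x, s), hθ⟩
  have key2 : ∀ (F F' : (X4 × S2) ≃ₜ (X4 × S2)) (G G' : C(E4 × S2, E4)) (θ θ' : Gam →* Gam),
      (∀ q, F' (F q) = q) →
      (∀ x s, pX (G (x, s)) = (F (pX x, s)).1) →
      (∀ (γ : Gam) (x : E4) (s : S2), G (γ • x, s) = θ γ • G (x, s)) →
      (∀ x s, pX (G' (x, s)) = (F' (pX x, s)).1) →
      (∀ (γ : Gam) (x : E4) (s : S2), G' (γ • x, s) = θ' γ • G' (x, s)) →
      ∃ δ : Gam, ∀ γ, θ' (θ γ) = δ * γ * δ⁻¹ := by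
    intro F F' G G' θ θ' hFF hG hθ hG' hθ'
    have hHc : Continuous (fun q : E4 × S2 => G' (G q, (F (pX q.1, q.2)).2)) :=
      G'.continuous.comp (G.continuous.prodMk (continuous_snd.comp (F.continuous.comp
        ((pX_covering.continuous.comp continuous_fst).prodMk continuous_snd))))
    obtain ⟨δ, hδ⟩ := lifts_differ ((0 : E4), northP) hHc (h := fun q : E4 × S2 => q.1)
      continuous_fst (by
        intro q
        rw [hG']
        have h1 : pX (G q) = (F (pX q.1, q.2)).1 := hG q.1 q.2
        rw [h1]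
        simp only [Prod.mk.eta]
        rw [hFF])
    refine ⟨δ, fun γ => ?_⟩
    have h1 := hδ (γ • (0 : E4), northP)
    simp only at h1
    rw [hθ, pX_smul, hθ'] at h1
    have h2 := hδ ((0 : E4), northP)
    simp only at h2
    rw [h2] at h1
    rw [eq_mul_inv_iff_mul_eq]
    apply smul_cancel (v := (0 : E4))
    rw [mul_smul, mul_smul]
    exact h1
  obtain ⟨G, θ, hG, hθ⟩ := key F
  obtain ⟨G', θ', hG', hθ'⟩ := key F.symm
  obtain ⟨δ, hδ⟩ := key2 F F.symm G G' θ θ' (fun q => F.symm_apply_apply q) hG hθ hG' hθ'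
  obtain ⟨ε, hε⟩ := key2 F.symm F G' G θ' θ (fun q => F.apply_symm_apply q) hG' hθ' hG hθ
  have hinj : Function.Injective θ := by
    intro a b hab
    have h1 := hδ a
    have h2 := hδ b
    rw [hab] at h1
    rw [h1] at h2
    have h3 := mul_right_cancel h2
    exact mul_left_cancel h3
  have hsurj : Function.Surjective θ := by
    intro b
    refine ⟨θ' (ε⁻¹ * b * ε), ?_⟩
    rw [hε]
    group
  exact ⟨G, MulEquiv.ofBijective θ ⟨hinj, hsurj⟩, hG, fun γ x s => hθ γ x s⟩

end Pool.Agent.H819R2.FourSix
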