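import Mathlib
import Pool.Agent.H819R2.Lift

/-!
# The period of the first factor
-/

open Set Filter MeasureTheory Matrix
open scoped ContDiff Manifold Topology

noncomputable section

namespace Pool.Agent.H819R2.FourSix

/-- a continuous lift of a smooth map to `X` is smooth -/
lemma lift_smooth {Gt : V6 → E4} (hc : Continuous Gt)
    (hs : ContMDiff 𝓘(ℝ, V6) (𝓡 4) ∞ (fun u => pX (Gt u))) : ContDiff ℝ ∞ Gt := by
  rw [contDiff_iff_contDiffAt]
  intro u
  obtain ⟨g, -, hg⟩ := atlas_deck (chart_mem_atlas E4 (pX (Gt u))) (mem_chart_source E4 (pX (Gt u)))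
  have h1 : ContDiffAt ℝ ∞ (fun w => extChartAt (𝓡 4) (pX (Gt u)) (pX (Gt w))) u :=
    chart_contDiffAt hs (pX (Gt u)) (mem_extChartAt_source (pX (Gt u)))
  have h2 : ContDiffAt ℝ ∞ (fun w => g⁻¹ • (extChartAt (𝓡 4) (pX (Gt u)) (pX (Gt w)))) u :=
    (contDiff_smul ((g⁻¹ : Gam) : G4)).contDiffAt.comp u h1
  refine h2.congr_of_eventuallyEq ?_
  filter_upwards [hc.continuousAt.eventually hg] with w hw
  have h3 : extChartAt (𝓡 4) (pX (Gt u)) (pX (Gt w)) = chartAt E4 (pX (Gt u)) (pX (Gt w)) := by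
    simp [extChartAt]
  rw [h3, hw, inv_smul_smul]

lemma fderiv_coord {Gt : V6 → E4} (hs : ContDiff ℝ ∞ Gt) (u w : V6) (i : Fin 4) :
    (fderiv ℝ Gt u w) i = fderiv ℝ (fun u => Gt u i) u w := by
  have hd : DifferentiableAt ℝ Gt u := hs.differentiable (by norm_num) u
  have h6 : HasFDerivAt (fun u => Gt u i)
      ((EuclideanSpace.proj i : E4 →L[ℝ] ℝ).comp (fderiv ℝ Gt u)) u :=
    (EuclideanSpace.proj i : E4 →L[ℝ] ℝ).hasFDerivAt.comp u hd.hasFDerivAt
  rw [h6.fderiv]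
  rfl

lemma coord_contDiff {Gt : V6 → E4} (hs : ContDiff ℝ ∞ Gt) (i : Fin 4) :
    ContDiff ℝ ∞ (fun u => Gt u i) :=
  (EuclideanSpace.proj i : E4 →L[ℝ] ℝ).contDiff.comp hs

lemma mat_lift {Gt : V6 → E4} (hs : ContDiff ℝ ∞ Gt) (u : V6) :
    mat (fun u => pX (Gt u)) omX u 0 1 =
      D 0 (fun u => Gt u 0) u * D 1 (fun u => Gt u 1) u -
      D 0 (fun u => Gt u 1) u * D 1 (fun u => Gt u 0) u +
      (D 0 (fun u => Gt u 2) u * D 1 (fun u => Gt u 3) u -
      D 0 (fun u => Gt u 3) u * D 1 (fun u => Gt u 2) u) := by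
  rw [mat_apply]
  have h1 : pullV (fun u => pX (Gt u)) omX u = pullV Gt (pullback (I := 𝓘(ℝ, E4)) (J := 𝓡 4) pX omX) u :=
    (pullV_pullback (I := 𝓘(ℝ, E4)) (J := 𝓡 4) (f := pX) (g := Gt) (v := u) omX
      ((contMDiff_pX _).mdifferentiableAt (by norm_num))
      (hs.differentiable (by norm_num) u).mdifferentiableAt).symm
  have h2 : pullback (I := 𝓘(ℝ, E4)) (J := 𝓡 4) pX omX = fun _ => w0 := by
    funext v; exact pullV_pX v
  rw [h1, h2, pullV_apply]
  have h3 : (fun i => (show V6 →L[ℝ] E4 from mfderiv 𝓘(ℝ, V6) 𝓘(ℝ, E4) Gt u)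
      ((![Pi.single 0 1, Pi.single 1 1] : Fin 2 → V6) i)) =
      ![fderiv ℝ Gt u (Pi.single 0 1), fderiv ℝ Gt u (Pi.single 1 1)] := by
    rw [mfderiv_eq_fderiv]
    funext i; fin_cases i <;> rfl
  rw [h3]
  change w0 ![fderiv ℝ Gt u (Pi.single 0 1), fderiv ℝ Gt u (Pi.single 1 1)] = _
  rw [w0_apply, fderiv_coord hs, fderiv_coord hs, fderiv_coord hs, fderiv_coord hs,
    fderiv_coord hs, fderiv_coord hs, fderiv_coord hs, fderiv_coord hs]
  rfl

/-- the face measure -/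
def faceVol : ℝ := ∫ _x in Icc ((0 : V6) ∘ (4 : Fin 6).succAbove) (L6 ∘ (4 : Fin 6).succAbove), (1 : ℝ)

lemma faceVol_pos : 0 < faceVol := by
  unfold faceVol
  rw [setIntegral_const, smul_eq_mul, mul_one, MeasureTheory.measureReal_def, Real.volume_Icc_pi_toReal]
  · apply Finset.prod_pos
    intro i _
    fin_cases i <;> simp [L6, Fin.succAbove, Real.pi_pos]
  · intro i
    exact L6_nonneg _

lemma D_mul' {g h : V6 → ℝ} (hg : ContDiff ℝ 1 g) (hh : ContDiff ℝ 1 h) (i : Fin 6) (u : V6) :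
    D i (fun v => g v * h v) u = D i g u * h u + g u * D i h u := by
  have h1 : DifferentiableAt ℝ g u := hg.differentiable (by norm_num) u
  have h2 : DifferentiableAt ℝ h u := hh.differentiable (by norm_num) u
  unfold D
  rw [fderiv_fun_mul h1 h2]
  simp only [_root_.add_apply, _root_.smul_apply, smul_eq_mul]
  ring

lemma D_const_mul' {g : V6 → ℝ} (hg : ContDiff ℝ 1 g) (c : ℝ) (i : Fin 6) (u : V6) :
    D i (fun v => c * g v) u = c * D i g u := by
  have h1 : DifferentiableAt ℝ g u := hg.differentiable (by norm_num) u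
  unfold D
  rw [fderiv_const_mul h1]
  rfl

/-- the face of the box -/
abbrev face : Set (Fin 5 → ℝ) :=
  Icc ((0 : V6) ∘ (4 : Fin 6).succAbove) (L6 ∘ (4 : Fin 6).succAbove)

lemma integral_per0 {p : V6 → ℝ} (hp : ContDiff ℝ 1 p) (h : ∀ u, p (u + Pi.single 0 3) = p u) :
    ∫ x in face, D 0 p ((4 : Fin 6).insertNth (L6 4) x) = 0 := by
  have e0 : (4 : Fin 6).succAbove 0 = 0 := by decide
  have z0 := face_D_zero 0 hp (by rw [e0]; exact h)
  rw [e0] at z0
  exact z0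

lemma integral_per1 {p : V6 → ℝ} (hp : ContDiff ℝ 1 p) (h : ∀ u, p (u + Pi.single 1 3) = p u) :
    ∫ x in face, D 1 p ((4 : Fin 6).insertNth (L6 4) x) = 0 := by
  have e0 : (4 : Fin 6).succAbove 1 = 1 := by decide
  have z0 := face_D_zero 1 hp (by rw [e0]; exact h)
  rw [e0] at z0
  exact z0

lemma D_per {p : V6 → ℝ} {w : V6} (h : ∀ u, p (u + w) = p u) (i : Fin 6) (u : V6) :
    D i p (u + w) = D i p u := by
  rw [← D_shift]
  congr 1
  funext v; exact h v

lemma D_linear (α β : ℝ) (i : Fin 6) (u : V6) :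
    D i (fun u : V6 => α * u 0 + β * u 1) u = α * (Pi.single i 1 : V6) 0 + β * (Pi.single i 1 : V6) 1 := by
  have h : HasFDerivAt (fun u : V6 => α * u 0 + β * u 1)
      (α • (ContinuousLinearMap.proj 0 : V6 →L[ℝ] ℝ) + β • (ContinuousLinearMap.proj 1 : V6 →L[ℝ] ℝ)) u :=
    ((hasFDerivAt_apply 0 u).const_mul α).add ((hasFDerivAt_apply 1 u).const_mul β)
  unfold D
  rw [h.fderiv]
  rfl

lemma integral_jac {a b c d : V6 → ℝ} (ha : ContDiff ℝ 2 a) (hb : ContDiff ℝ 2 b)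
    (hc : ContDiff ℝ 2 c) (hd : ContDiff ℝ 2 d) (C : Matrix (Fin 2) (Fin 2) ℝ)
    (a0 : ∀ u, a (u + Pi.single 0 3) = a u + 3 * C 0 0)
    (a1 : ∀ u, a (u + Pi.single 1 3) = a u + 3 * C 0 1)
    (b0 : ∀ u, b (u + Pi.single 0 3) = b u + 3 * C 1 0)
    (b1 : ∀ u, b (u + Pi.single 1 3) = b u + 3 * C 1 1)
    (c0 : ∀ u, c (u + Pi.single 0 3) = c u) (c1 : ∀ u, c (u + Pi.single 1 3) = c u)
    (d0 : ∀ u, d (u + Pi.single 0 3) = d u) (d1 : ∀ u, d (u + Pi.single 1 3) = d u)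
    {f : V6 → ℝ} (hf : ∀ u, f u = D 0 a u * D 1 b u - D 0 b u * D 1 a u +
      (D 0 c u * D 1 d u - D 0 d u * D 1 c u)) :
    ∫ x in face, f ((4 : Fin 6).insertNth (L6 4) x) = C.det * faceVol := by
  -- periodic parts
  set la : V6 → ℝ := fun u => C 0 0 * u 0 + C 0 1 * u 1 with hla
  set lb : V6 → ℝ := fun u => C 1 0 * u 0 + C 1 1 * u 1 with hlb
  have hlac : ContDiff ℝ 2 la :=
    (contDiff_const.mul (contDiff_apply ℝ ℝ 0)).add (contDiff_const.mul (contDiff_apply ℝ ℝ 1))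
  have hlbc : ContDiff ℝ 2 lb :=
    (contDiff_const.mul (contDiff_apply ℝ ℝ 0)).add (contDiff_const.mul (contDiff_apply ℝ ℝ 1))
  set a' : V6 → ℝ := fun u => a u - la u with ha'
  set b' : V6 → ℝ := fun u => b u - lb u with hb'
  have ha'c : ContDiff ℝ 2 a' := ha.sub hlac
  have hb'c : ContDiff ℝ 2 b' := hb.sub hlbc
  have two1 : (1 : ℕ∞ω) ≤ 2 := by norm_num
  have a'0 : ∀ u, a' (u + Pi.single 0 3) = a' u := by
    intro u; simp only [ha', hla, a0, Pi.add_apply, Pi.single_apply]; simp; ring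
  have a'1 : ∀ u, a' (u + Pi.single 1 3) = a' u := by
    intro u; simp only [ha', hla, a1, Pi.add_apply, Pi.single_apply]; simp; ring
  have b'0 : ∀ u, b' (u + Pi.single 0 3) = b' u := by
    intro u; simp only [hb', hlb, b0, Pi.add_apply, Pi.single_apply]; simp; ring
  have b'1 : ∀ u, b' (u + Pi.single 1 3) = b' u := by
    intro u; simp only [hb', hlb, b1, Pi.add_apply, Pi.single_apply]; simp; ring
  have Da : ∀ i u, D i a u = D i a' u + D i la u := by
    intro i u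
    rw [← D_add' (ha'c.of_le two1) (hlac.of_le two1)]
    congr 1; funext v; simp [ha']
  have Db : ∀ i u, D i b u = D i b' u + D i lb u := by
    intro i u
    rw [← D_add' (hb'c.of_le two1) (hlbc.of_le two1)]
    congr 1; funext v; simp [hb']
  have Dla0 : ∀ u, D 0 la u = C 0 0 := by intro u; rw [hla, D_linear]; simp
  have Dla1 : ∀ u, D 1 la u = C 0 1 := by intro u; rw [hla, D_linear]; simp
  have Dlb0 : ∀ u, D 0 lb u = C 1 0 := by intro u; rw [hlb, D_linear]; simp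
  have Dlb1 : ∀ u, D 1 lb u = C 1 1 := by intro u; rw [hlb, D_linear]; simp
  set P : V6 → ℝ := fun u => (C 1 1 * a' u - C 0 1 * b' u) + (a' u * D 1 b' u + c u * D 1 d u) with hP
  set Q : V6 → ℝ := fun u => (C 0 0 * b' u - C 1 0 * a' u) - (a' u * D 0 b' u + c u * D 0 d u) with hQ
  have p1 : ContDiff ℝ 1 (fun u => C 1 1 * a' u - C 0 1 * b' u) :=
    (contDiff_const.mul (ha'c.of_le two1)).sub (contDiff_const.mul (hb'c.of_le two1))
  have p2 : ContDiff ℝ 1 (fun u => a' u * D 1 b' u) := (ha'c.of_le two1).mul (D_contDiff hb'c 1)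
  have p3 : ContDiff ℝ 1 (fun u => c u * D 1 d u) := (hc.of_le two1).mul (D_contDiff hd 1)
  have p23 : ContDiff ℝ 1 (fun u => a' u * D 1 b' u + c u * D 1 d u) := p2.add p3
  have q1 : ContDiff ℝ 1 (fun u => C 0 0 * b' u - C 1 0 * a' u) :=
    (contDiff_const.mul (hb'c.of_le two1)).sub (contDiff_const.mul (ha'c.of_le two1))
  have q2 : ContDiff ℝ 1 (fun u => a' u * D 0 b' u) := (ha'c.of_le two1).mul (D_contDiff hb'c 0)
  have q3 : ContDiff ℝ 1 (fun u => c u * D 0 d u) := (hc.of_le two1).mul (D_contDiff hd 0)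
  have q23 : ContDiff ℝ 1 (fun u => a' u * D 0 b' u + c u * D 0 d u) := q2.add q3
  have hPc : ContDiff ℝ 1 P := p1.add p23
  have hQc : ContDiff ℝ 1 Q := q1.sub q23
  have hP0 : ∀ u, P (u + Pi.single 0 3) = P u := by
    intro u
    simp only [hP, a'0, b'0, c0, D_per b'0, D_per d0]
  have hQ1 : ∀ u, Q (u + Pi.single 1 3) = Q u := by
    intro u
    simp only [hQ, a'1, b'1, c1, D_per b'1, D_per d1]
  have hDP : ∀ u, D 0 P u = (C 1 1 * D 0 a' u - C 0 1 * D 0 b' u) +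
      ((D 0 a' u * D 1 b' u + a' u * D 0 (D 1 b') u) + (D 0 c u * D 1 d u + c u * D 0 (D 1 d) u)) := by
    intro u
    rw [hP, D_add' p1 p23, D_add' p2 p3,
      D_sub' (contDiff_const.mul (ha'c.of_le two1)) (contDiff_const.mul (hb'c.of_le two1)),
      D_const_mul' (ha'c.of_le two1), D_const_mul' (hb'c.of_le two1),
      D_mul' (ha'c.of_le two1) (D_contDiff hb'c 1), D_mul' (hc.of_le two1) (D_contDiff hd 1)]
  have hDQ : ∀ u, D 1 Q u = (C 0 0 * D 1 b' u - C 1 0 * D 1 a' u) -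
      ((D 1 a' u * D 0 b' u + a' u * D 1 (D 0 b') u) + (D 1 c u * D 0 d u + c u * D 1 (D 0 d) u)) := by
    intro u
    rw [hQ, D_sub' q1 q23, D_add' q2 q3,
      D_sub' (contDiff_const.mul (hb'c.of_le two1)) (contDiff_const.mul (ha'c.of_le two1)),
      D_const_mul' (hb'c.of_le two1), D_const_mul' (ha'c.of_le two1),
      D_mul' (ha'c.of_le two1) (D_contDiff hb'c 0), D_mul' (hc.of_le two1) (D_contDiff hd 0)]
  have hmain : ∀ u, f u = C.det + (D 0 P u + D 1 Q u) := by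
    intro u
    rw [hf, hDP, hDQ, Da 0 u, Da 1 u, Db 0 u, Db 1 u, Dla0, Dla1, Dlb0, Dlb1, Matrix.det_fin_two,
      D_comm hb'c 0 1 u, D_comm hd 0 1 u]
    ring
  simp only [hmain]
  have i0 : IntegrableOn (fun _ : Fin 5 → ℝ => C.det) face volume :=
    continuous_const.continuousOn.integrableOn_compact isCompact_Icc
  have i1 : IntegrableOn (fun x : Fin 5 → ℝ => D 0 P ((4 : Fin 6).insertNth (L6 4) x)) face volume :=
    ((D_continuous hPc 0).comp continuous_insert4).continuousOn.integrableOn_compact isCompact_Icc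
  have i2 : IntegrableOn (fun x : Fin 5 → ℝ => D 1 Q ((4 : Fin 6).insertNth (L6 4) x)) face volume :=
    ((D_continuous hQc 1).comp continuous_insert4).continuousOn.integrableOn_compact isCompact_Icc
  have i12 : IntegrableOn (fun x : Fin 5 → ℝ => D 0 P ((4 : Fin 6).insertNth (L6 4) x) +
      D 1 Q ((4 : Fin 6).insertNth (L6 4) x)) face volume := i1.add i2
  rw [integral_add i0 i12, integral_add i1 i2, integral_per0 hPc hP0, integral_per1 hQc hQ1]
  simp only [add_zero]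
  unfold faceVol
  rw [← integral_const_mul]
  simp only [mul_one]

end Pool.Agent.H819R2.FourSix
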