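import Mathlib
import Pool.Agent.H819R2.Quasi

/-!
# The deformation argument
-/

open Set Filter MeasureTheory Matrix
open scoped ContDiff Manifold Topology

noncomputable section

namespace Pool.Agent.H819R2.FourSix

/-- diffeomorphisms of `X × S^2` -/
abbrev Diff6 : Type := (X4 × S2) ≃ₘ^∞⟮(𝓡 4).prod (𝓡 2), (𝓡 4).prod (𝓡 2)⟯ (X4 × S2)

lemma gt_smul_0 (w : Fin 2 → ℤ) (v : E4) : (gt w • v : E4) 0 = v 0 + 3 * w 0 := by
  rw [smul_def', gt_val]
  simp [AR_zero]

lemma gt_smul_1 (w : Fin 2 → ℤ) (v : E4) : (gt w • v : E4) 1 = v 1 + 3 * w 1 := by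
  rw [smul_def', gt_val]
  simp [AR_zero]

lemma gt_smul_2 (w : Fin 2 → ℤ) (v : E4) : (gt w • v : E4) 2 = v 2 := by
  rw [smul_def', gt_val]
  simp

lemma gt_smul_3 (w : Fin 2 → ℤ) (v : E4) : (gt w • v : E4) 3 = v 3 := by
  rw [smul_def', gt_val]
  simp

lemma toE4_shift0 (u : V6) : toE4 (u + Pi.single 0 3) = gt ![1, 0] • toE4 u := by
  apply E4_ext
  · rw [gt_smul_0]; simp [toE4_apply]
  · rw [gt_smul_1]; simp [toE4_apply]
  · rw [gt_smul_2]; simp [toE4_apply]
  · rw [gt_smul_3]; simp [toE4_apply]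

lemma toE4_shift1 (u : V6) : toE4 (u + Pi.single 1 3) = gt ![0, 1] • toE4 u := by
  apply E4_ext
  · rw [gt_smul_0]; simp [toE4_apply]
  · rw [gt_smul_1]; simp [toE4_apply]
  · rw [gt_smul_2]; simp [toE4_apply]
  · rw [gt_smul_3]; simp [toE4_apply]

lemma Phi_shift0 (u : V6) : Phi (u + Pi.single 0 3) = Phi u := by
  apply Subtype.ext
  simp [Phi, sph]

lemma Phi_shift1 (u : V6) : Phi (u + Pi.single 1 3) = Phi u := by
  apply Subtype.ext
  simp [Phi, sph]

/-- The period of `φ^* pr_1^* ω`. -/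
theorem period_first (F : Diff6) : bet (mat (fun u => (F (g0 u)).1) omX) = faceVol := by
  obtain ⟨G, θ, hG, hθ⟩ := exists_aut F.toHomeomorph
  obtain ⟨C, hC⟩ := aut_matrix θ
  have hdet := aut_det θ hC
  set Gt : V6 → E4 := fun u => G (toE4 u, Phi u) with hGt
  have hpG : (fun u => (F (g0 u)).1) = fun u => pX (Gt u) := by
    funext u
    exact (hG (toE4 u) (Phi u)).symm
  have hcont : Continuous Gt :=
    G.continuous.comp (toE4.continuous.prodMk contMDiff_Phi.continuous)
  have hsm : ContMDiff 𝓘(ℝ, V6) (𝓡 4) ∞ (fun u => pX (Gt u)) := by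
    rw [← hpG]
    exact contMDiff_fst.comp (F.contMDiff.comp contMDiff_g0)
  have hs : ContDiff ℝ ∞ Gt := lift_smooth hcont hsm
  have h0 : ∀ u, Gt (u + Pi.single 0 3) = gt (C *ᵥ ![1, 0]) • Gt u := by
    intro u
    simp only [hGt]
    rw [toE4_shift0, Phi_shift0, hθ, hC]
  have h1 : ∀ u, Gt (u + Pi.single 1 3) = gt (C *ᵥ ![0, 1]) • Gt u := by
    intro u
    simp only [hGt]
    rw [toE4_shift1, Phi_shift1, hθ, hC]
  set CR : Matrix (Fin 2) (Fin 2) ℝ := Matrix.of fun i j => ((C i j : ℤ) : ℝ) with hCR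
  have hCRdet : CR.det = 1 := by
    rw [Matrix.det_fin_two] at hdet ⊢
    simp only [hCR, Matrix.of_apply]
    exact_mod_cast hdet
  rw [hpG]
  unfold bet
  have h2 : ∀ i, ContDiff ℝ 2 (fun u => Gt u i) := fun i =>
    (coord_contDiff hs i).of_le two_le_infty
  have := integral_jac (a := fun u => Gt u 0) (b := fun u => Gt u 1) (c := fun u => Gt u 2)
    (d := fun u => Gt u 3) (h2 0) (h2 1) (h2 2) (h2 3) CR
    (by intro u; simp only [h0, gt_smul_0, hCR, Matrix.of_apply]
        simp [Matrix.mulVec, dotProduct, Fin.sum_univ_two])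
    (by intro u; simp only [h1, gt_smul_0, hCR, Matrix.of_apply]
        simp [Matrix.mulVec, dotProduct, Fin.sum_univ_two])
    (by intro u; simp only [h0, gt_smul_1, hCR, Matrix.of_apply]
        simp [Matrix.mulVec, dotProduct, Fin.sum_univ_two])
    (by intro u; simp only [h1, gt_smul_1, hCR, Matrix.of_apply]
        simp [Matrix.mulVec, dotProduct, Fin.sum_univ_two])
    (by intro u; simp only [h0, gt_smul_2])
    (by intro u; simp only [h1, gt_smul_2])
    (by intro u; simp only [h0, gt_smul_3])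
    (by intro u; simp only [h1, gt_smul_3])
    (f := fun u => mat (fun u => pX (Gt u)) omX u 0 1)
    (fun u => mat_lift hs u)
  rw [hCRdet, one_mul] at this
  exact this

/-- `bet` of a linear combination -/
lemma bet_comb {f g h : V6 → Mat6} (c c' : ℝ) (hg : Continuous (fun u => g u 0 1))
    (hh : Continuous (fun u => h u 0 1))
    (hf : ∀ u, f u 0 1 = c * g u 0 1 + c' * h u 0 1) : bet f = c * bet g + c' * bet h := by
  unfold bet
  simp only [hf]
  have i1 : IntegrableOn (fun x : Fin 5 → ℝ => c * g ((4 : Fin 6).insertNth (L6 4) x) 0 1)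
      face volume :=
    (continuous_const.mul (hg.comp continuous_insert4)).continuousOn.integrableOn_compact isCompact_Icc
  have i2 : IntegrableOn (fun x : Fin 5 → ℝ => c' * h ((4 : Fin 6).insertNth (L6 4) x) 0 1)
      face volume :=
    (continuous_const.mul (hh.comp continuous_insert4)).continuousOn.integrableOn_compact isCompact_Icc
  rw [integral_add i1 i2, integral_const_mul, integral_const_mul]

section Period

variable (F : Diff6) {σ : TwoForm (𝓡 2) S2} (hσ : IsSymplectic σ)

include hσ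

lemma bet_split (c c' : ℝ) : bet (mat (F ∘ g0) (prodForm (c • omX) (c' • σ))) =
    c * faceVol + c' * bet (mat (fun u => (F (g0 u)).2) σ) := by
  rw [← period_first F]
  have s1 : ContMDiff 𝓘(ℝ, V6) (𝓡 4) ∞ (fun u => (F (g0 u)).1) :=
    contMDiff_fst.comp (F.contMDiff.comp contMDiff_g0)
  have s2 : ContMDiff 𝓘(ℝ, V6) (𝓡 2) ∞ (fun u => (F (g0 u)).2) :=
    contMDiff_snd.comp (F.contMDiff.comp contMDiff_g0)
  apply bet_comb
  · exact (pullV_eval_contDiff s1 omX_symplectic.smooth _ _).continuous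
  · exact (pullV_eval_contDiff s2 hσ.smooth _ _).continuous
  · intro u
    rw [mat_apply, pullV_prodForm (g := F ∘ g0) (v := u) (c • omX) (c' • σ)
      (((F.contMDiff.comp contMDiff_g0) u).mdifferentiableAt (by norm_num))]
    rfl

theorem period_second : bet (mat (fun u => (F (g0 u)).2) σ) = 0 := by
  by_contra hK
  set K := bet (mat (fun u => (F (g0 u)).2) σ) with hKdef
  have hc' : - faceVol / K ≠ 0 := div_ne_zero (neg_ne_zero.mpr faceVol_pos.ne') hK
  have hsym : IsSymplectic (prodForm ((1 : ℝ) • omX) ((- faceVol / K) • σ)) :=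
    (omX_symplectic.smul one_ne_zero).prodForm (hσ.smul hc')
  have h1 := bet_comp_ne_zero F hsym
  rw [bet_split F hσ] at h1
  apply h1
  field_simp
  ring

theorem period_total (c c' : ℝ) : bet (mat (F ∘ g0) (prodForm (c • omX) (c' • σ))) =
    c * faceVol := by
  rw [bet_split F hσ, period_second F hσ, mul_zero, add_zero]

end Period

/-- `X × S^2` with the forms `ω ⊕ σ` and `(-ω) ⊕ σ'` is not deformation equivalent. -/
theorem not_deformation_equivalent {σ σ' : TwoForm (𝓡 2) S2} (hσ : IsSymplectic σ)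
    (hσ' : IsSymplectic σ') :
    ¬ DeformationEquivalent (I := (𝓡 4).prod (𝓡 2)) (M := X4 × S2) (J := (𝓡 4).prod (𝓡 2))
      (N := X4 × S2) (prodForm omX σ) (prodForm (-omX) σ') := by
  rintro ⟨F, Ω, hsymp, hsm, h0, h1⟩
  set b : ℝ → ℝ := fun t => bet (mat g0 (Ω t)) with hb
  -- nonvanishing
  have hne : ∀ t ∈ Icc (0 : ℝ) 1, b t ≠ 0 := by
    intro t ht
    exact bet_comp_ne_zero (Diffeomorph.refl _ _ _) (hsymp t ht)
  -- the endpoints
  have hb0 : b 0 = faceVol := by
    have := period_total (Diffeomorph.refl _ _ _) hσ 1 1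
    rw [one_smul, one_smul, one_mul] at this
    simp only [hb, h0]
    exact this
  have hb1 : b 1 = - faceVol := by
    have := period_total F hσ' (-1) 1
    have hneg : ((-1 : ℝ) • omX : TwoForm (𝓡 4) X4) = -omX := by
      funext x
      exact neg_one_smul ℝ w0
    rw [one_smul, neg_one_mul, hneg] at this
    rw [← this]
    simp only [hb, h1]
    congr 1
    funext u
    ext i j
    rw [mat_apply, mat_apply]
    congr 1
    exact pullV_pullback (I := (𝓡 4).prod (𝓡 2)) (J := (𝓡 4).prod (𝓡 2)) (f := F) (g := g0) (v := u) _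
      (F.contMDiff.mdifferentiable (by norm_num) _) ((contMDiff_g0 u).mdifferentiableAt (by norm_num))
  -- continuity
  have hcont : ContinuousOn b (Icc 0 1) := by
    have hj := pullV_eval_continuousOn contMDiff_g0 hsm (Pi.single 0 1) (Pi.single 1 1)
    set cl : ℝ → ℝ := fun t => max 0 (min 1 t) with hcl
    have hclm : ∀ t, cl t ∈ Icc (0 : ℝ) 1 := fun t =>
      ⟨le_max_left _ _, max_le (by norm_num) (min_le_left _ _)⟩
    have hclc : Continuous cl := by fun_prop
    have hj2 : Continuous (fun p : ℝ × (Fin 5 → ℝ) =>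
        pullV g0 (Ω (cl p.1)) ((4 : Fin 6).insertNth (L6 4) p.2) ![Pi.single 0 1, Pi.single 1 1]) := by
      have h2 : Continuous (fun p : ℝ × (Fin 5 → ℝ) =>
          ((cl p.1, ((4 : Fin 6).insertNth (L6 4) p.2 : V6)) : ℝ × V6)) :=
        (hclc.comp continuous_fst).prodMk (continuous_insert4.comp continuous_snd)
      exact hj.comp_continuous h2 (fun p => ⟨hclm _, trivial⟩)
    have hb2 : Continuous (fun t => b (cl t)) := by
      have := continuous_parametric_integral_of_continuous (μ := (volume : Measure (Fin 5 → ℝ)))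
        (f := fun (t : ℝ) (x : Fin 5 → ℝ) => pullV g0 (Ω (cl t)) ((4 : Fin 6).insertNth (L6 4) x)
          ![Pi.single 0 1, Pi.single 1 1]) hj2 (s := face) isCompact_Icc
      exact this
    refine hb2.continuousOn.congr ?_
    intro t ht
    have : cl t = t := by
      simp only [hcl]
      rw [min_eq_right ht.2, max_eq_right ht.1]
    simp only [this]
  have hfv := faceVol_pos
  have hiv := intermediate_value_Icc' (zero_le_one) hcont
  have hmem : (0 : ℝ) ∈ Icc (b 1) (b 0) := by
    rw [hb0, hb1]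
    constructor <;> linarith
  obtain ⟨t, ht, ht0⟩ := hiv hmem
  exact hne t ht ht0

end Pool.Agent.H819R2.FourSix
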