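import Pool.Agent.H819R2.Wedge

open scoped BigOperators
open Finset Matrix

namespace Pool.Agent.H819R2

/-- the three standard pairs -/
def Kp (i j : Fin 6) : Bool :=
  (i = 0 && j = 1) || (i = 1 && j = 0) || (i = 2 && j = 3) || (i = 3 && j = 2) ||
  (i = 4 && j = 5) || (i = 5 && j = 4)

/-- the positions where the matrix vanishes -/
def Zp (i j : Fin 6) : Bool :=
  (i = 3 && !(j = 2)) || (j = 3 && !(i = 2)) || (i = 5 && !(j = 4)) || (j = 5 && !(i = 4))

lemma perm_cases : ∀ σ : Equiv.Perm (Fin 6),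
    (Zp (σ 0) (σ 1) || Zp (σ 2) (σ 3) || Zp (σ 4) (σ 5) ||
    (Kp (σ 0) (σ 1) && Kp (σ 2) (σ 3) && Kp (σ 4) (σ 5))) = true := by
  decide +kernel

lemma W_J6 : W (J6.map (Int.castRingHom ℝ)) (J6.map (Int.castRingHom ℝ))
    (J6.map (Int.castRingHom ℝ)) = 48 := by
  have := W_J6_int
  have h3 := congrArg (fun z : ℤ => (z : ℝ)) this
  simp only [Int.cast_sum, Int.cast_mul] at h3
  rw [show ((48 : ℤ) : ℝ) = 48 by norm_num] at h3
  rw [← h3, W]
  refine Finset.sum_congr rfl fun σ _ => ?_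
  simp

/-- evaluation of `W` on matrices where `3` only pairs with `2` and `5` only with `4` -/
lemma W_special (f : Mat6) (hanti : fᵀ = -f) (h3 : ∀ j, j ≠ 2 → f 3 j = 0)
    (h5 : ∀ j, j ≠ 4 → f 5 j = 0) : W f f f = 48 * (f 0 1 * f 2 3 * f 4 5) := by
  have sk : ∀ i k, f k i = - f i k := by
    intro i k
    have := congrFun (congrFun hanti i) k
    rwa [Matrix.transpose_apply, Matrix.neg_apply] at this
  have hZ : ∀ i j, Zp i j = true → f i j = 0 := by
    intro i j h
    simp only [Zp, Bool.or_eq_true, Bool.and_eq_true, decide_eq_true_eq, Bool.not_eq_true',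
      decide_eq_false_iff_not] at h
    rcases h with ((⟨rfl, h⟩ | ⟨rfl, h⟩) | ⟨rfl, h⟩) | ⟨rfl, h⟩
    · exact h3 j h
    · rw [sk 3 i, h3 i h, neg_zero]
    · exact h5 j h
    · rw [sk 5 i, h5 i h, neg_zero]
  let g : Mat6 := fun i j => if Kp i j then f i j else 0
  have e1 : W f f f = W g g g := by
    unfold W
    refine Finset.sum_congr rfl fun σ _ => ?_
    congr 1
    have := perm_cases σ
    simp only [Bool.or_eq_true, Bool.and_eq_true] at this
    rcases this with ((h | h) | h) | ⟨⟨h1, h2⟩, h3⟩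
    · have a := hZ _ _ h
      simp [g, a]
    · have a := hZ _ _ h
      simp [g, a]
    · have a := hZ _ _ h
      simp [g, a]
    · simp [g, h1, h2, h3]
  let T : Mat6 := Matrix.diagonal ![f 0 1, 1, f 2 3, 1, f 4 5, 1]
  have e2 : g = T * (J6.map (Int.castRingHom ℝ)) * Tᵀ := by
    ext i j
    rw [Matrix.diagonal_transpose, Matrix.mul_diagonal, Matrix.diagonal_mul]
    fin_cases i <;> fin_cases j <;> simp [g, Kp, J6, sk 0 1, sk 2 3, sk 4 5]
  rw [e1, e2, W_conj, W_J6, Matrix.det_diagonal]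
  simp [Fin.prod_univ_succ]
  ring

end Pool.Agent.H819R2
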