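import Pool.Agent.H819R2.AvgForm
import Pool.Agent.H819R2.WEval

open scoped BigOperators
open Matrix MeasureTheory Set

namespace Pool.Agent.H819R2

/-- the linear functional with given coefficients -/
noncomputable def lin (v : V6) : V6 →L[ℝ] ℝ :=
  ∑ k, (v k) • (ContinuousLinearMap.proj k : V6 →L[ℝ] ℝ)

lemma lin_apply (v x : V6) : lin v x = ∑ k, v k * x k := by
  simp [lin]

lemma lin_single (v : V6) (i : Fin 6) : lin v (Pi.single i 1) = v i := by
  rw [lin_apply, Finset.sum_eq_single i]
  · simp
  · intro b _ hb; rw [Pi.single_eq_of_ne hb]; ring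
  · simp

lemma clm_eq_lin (A : V6 →L[ℝ] ℝ) : A = lin (fun i => A (Pi.single i 1)) := by
  ext x
  rw [lin_apply]
  have hx : x = ∑ i, x i • (Pi.single i 1 : V6) := by
    funext k
    rw [Finset.sum_apply, Finset.sum_eq_single k]
    · simp
    · intro b _ hb; simp [Pi.single_eq_of_ne hb.symm]
    · simp
  conv_lhs => rw [hx]
  rw [map_sum]
  refine Finset.sum_congr rfl fun i _ => ?_
  rw [map_smul, smul_eq_mul, mul_comm]

/-- A closed 1-form on coordinate space has a primitive. -/
lemma exists_primitive (l : V6 → V6) (hc : ∀ i, ContDiff ℝ 1 (fun u => l u i))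
    (hcl : ∀ u i k, D i (fun v => l v k) u = D k (fun v => l v i) u) :
    ∃ H : V6 → ℝ, ∀ u, HasFDerivAt H (lin (l u)) u := by
  have hd : Differentiable ℝ (fun u => lin (l u)) := by
    unfold lin
    intro u
    refine DifferentiableAt.fun_sum fun k _ => ?_
    exact ((hc k).differentiable (by norm_num) u).smul_const _
  obtain ⟨H, hH⟩ := Convex.exists_forall_hasFDerivAt_of_fderiv_symmetric
    (ω := fun u => lin (l u)) convex_univ isOpen_univ hd.differentiableOn (by
    intro a _ x y
    have h1 : ∀ x y, fderiv ℝ (fun u => lin (l u)) a x y =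
        ∑ k, (∑ i, x i * D i (fun v => l v k) a) * y k := by
      intro x y
      have h2 : fderiv ℝ (fun u => lin (l u)) a = ∑ k, (fderiv ℝ (fun u => l u k) a).smulRight
          (ContinuousLinearMap.proj k : V6 →L[ℝ] ℝ) := by
        have h3 : HasFDerivAt (fun u => ∑ k, l u k • (ContinuousLinearMap.proj k : V6 →L[ℝ] ℝ))
            (∑ k, (fderiv ℝ (fun u => l u k) a).smulRight
              (ContinuousLinearMap.proj k : V6 →L[ℝ] ℝ)) a := by
          refine HasFDerivAt.fun_sum fun k _ => ?_
          exact HasFDerivAt.smul_const (𝕜 := ℝ) (𝕜' := ℝ)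
            (((hc k).differentiable (by norm_num) a).hasFDerivAt)
            (ContinuousLinearMap.proj k : V6 →L[ℝ] ℝ)
        exact h3.fderiv
      rw [h2]
      simp only [_root_.sum_apply, ContinuousLinearMap.smulRight_apply, _root_.smul_apply,
        smul_eq_mul, ContinuousLinearMap.proj_apply]
      refine Finset.sum_congr rfl fun k _ => ?_
      congr 1
      rw [clm_eq_lin (fderiv ℝ (fun u => l u k) a), lin_apply]
      refine Finset.sum_congr rfl fun i _ => ?_
      rw [mul_comm]; rfl
    rw [h1, h1]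
    simp only [Finset.sum_mul]
    rw [Finset.sum_comm]
    refine Finset.sum_congr rfl fun i _ => Finset.sum_congr rfl fun k _ => ?_
    rw [hcl a i k]
    ring)
  exact ⟨H, fun u => hH u (mem_univ u)⟩

lemma D_of_hasFDerivAt {H : V6 → ℝ} {l : V6 → V6} (h : ∀ u, HasFDerivAt H (lin (l u)) u)
    (i : Fin 6) (u : V6) : D i H u = l u i := by
  unfold D; rw [(h u).fderiv, lin_single]

lemma contDiff_two_of {H : V6 → ℝ} {l : V6 → V6} (hc : ∀ i, ContDiff ℝ 1 (fun u => l u i))
    (h : ∀ u, HasFDerivAt H (lin (l u)) u) : ContDiff ℝ 2 H := by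
  rw [show (2 : WithTop ℕ∞) = 1 + 1 by norm_num, contDiff_succ_iff_fderiv]
  refine ⟨fun u => (h u).differentiableAt, by simp, ?_⟩
  have : fderiv ℝ H = fun u => lin (l u) := by funext u; exact (h u).fderiv
  rw [this]
  unfold lin
  exact ContDiff.sum fun k _ => (hc k).smul contDiff_const

/-- two functions with the same derivative differ by a constant -/
lemma const_of_same_deriv {F G : V6 → ℝ} {l : V6 → V6} (hF : ∀ u, HasFDerivAt F (lin (l u)) u)
    (hG : ∀ u, HasFDerivAt G (lin (l u)) u) : ∀ u, F u - G u = F 0 - G 0 := by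
  intro u
  have h : ∀ u, HasFDerivAt (fun v => F v - G v) (0 : V6 →L[ℝ] ℝ) u := by
    intro u
    have := (hF u).sub (hG u)
    rwa [sub_self] at this
  exact is_const_of_fderiv_eq_zero (fun u => (h u).differentiableAt) (fun u => (h u).fderiv) u 0

lemma hasFDerivAt_shift {F : V6 → ℝ} {l : V6 → V6} (hF : ∀ u, HasFDerivAt F (lin (l u)) u)
    (w : V6) (hl : ∀ u, l (u + w) = l u) : ∀ u, HasFDerivAt (fun v => F (v + w)) (lin (l u)) u := by
  intro u
  have := (hF (u + w)).comp u ((hasFDerivAt_id u).add_const w)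
  rw [ContinuousLinearMap.comp_id, hl] at this
  exact this

lemma hasFDerivAt_aMap {F : V6 → ℝ} {l : V6 → V6} (hF : ∀ u, HasFDerivAt F (lin (l u)) u)
    (hl : ∀ u, l u = T6ᵀ *ᵥ l (aMap u)) : ∀ u, HasFDerivAt (fun v => F (aMap v)) (lin (l u)) u := by
  intro u
  have h1 : HasFDerivAt aMap (Matrix.mulVecLin T6).toContinuousLinearMap u := by
    have h2 := (Matrix.mulVecLin T6).toContinuousLinearMap.hasFDerivAt (x := u)
    exact h2.add_const (Pi.single 2 1)
  have h3 := (hF (aMap u)).comp u h1
  have h4 : (lin (l (aMap u))).comp (Matrix.mulVecLin T6).toContinuousLinearMap = lin (l u) := by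
    ext x
    rw [ContinuousLinearMap.comp_apply, lin_apply, lin_apply]
    simp only [LinearMap.coe_toContinuousLinearMap', Matrix.mulVecLin_apply]
    rw [hl u]
    change (l (aMap u)) ⬝ᵥ (T6 *ᵥ x) = (T6ᵀ *ᵥ l (aMap u)) ⬝ᵥ x
    rw [Matrix.dotProduct_mulVec, ← Matrix.mulVec_transpose]
  rw [h4] at h3
  exact h3

lemma D_comm {g : V6 → ℝ} (hg : ContDiff ℝ 2 g) (i k : Fin 6) (u : V6) :
    D i (D k g) u = D k (D i g) u := by
  have hs : IsSymmSndFDerivAt ℝ g u := by
    apply hg.contDiffAt.isSymmSndFDerivAt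
    simp
  have h1 : ∀ p q : Fin 6, D p (D q g) u = fderiv ℝ (fderiv ℝ g) u (Pi.single p 1) (Pi.single q 1) := by
    intro p q
    unfold D
    have h2 : DifferentiableAt ℝ (fderiv ℝ g) u :=
      ((hg.fderiv_right (m := 1) (by norm_num)).differentiable (by norm_num)) u
    have h3 := h2.hasFDerivAt.clm_apply (hasFDerivAt_const (Pi.single q (1 : ℝ) : V6) u)
    rw [h3.fderiv]
    simp
  rw [h1, h1]
  exact hs _ _

lemma D_sub' {g h : V6 → ℝ} (hg : ContDiff ℝ 1 g) (hh : ContDiff ℝ 1 h) (i : Fin 6) (u : V6) :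
    D i (fun v => g v - h v) u = D i g u - D i h u := by
  unfold D
  rw [fderiv_fun_sub (hg.differentiable (by norm_num) u) (hh.differentiable (by norm_num) u)]
  rfl

lemma D_add' {g h : V6 → ℝ} (hg : ContDiff ℝ 1 g) (hh : ContDiff ℝ 1 h) (i : Fin 6) (u : V6) :
    D i (fun v => g v + h v) u = D i g u + D i h u := by
  unfold D
  rw [fderiv_fun_add (hg.differentiable (by norm_num) u) (hh.differentiable (by norm_num) u)]
  rfl

lemma D_contDiff {g : V6 → ℝ} (hg : ContDiff ℝ 2 g) (i : Fin 6) : ContDiff ℝ 1 (D i g) :=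
  (hg.fderiv_right (m := 1) (by norm_num)).clm_apply contDiff_const

lemma D_shift {g : V6 → ℝ} (i : Fin 6) (w u : V6) :
    D i (fun v => g (v + w)) u = D i g (u + w) := by
  unfold D
  rw [fderiv_comp_add_right]

/-- adding the differential of an invariant `C²` 1-form keeps the structure -/
lemma form2_add {f : V6 → Mat6} (hf : Form2 f) {Λ : V6 → V6} (hΛ : Form1 Λ)
    (h2 : ∀ i, ContDiff ℝ 2 (fun u => Λ u i))
    (hpole : ∀ u : V6, (u 4 = 0 ∨ u 4 = Real.pi) → ∀ j, f u 5 j + dForm Λ u 5 j = 0) :
    Form2 (fun u => f u + dForm Λ u) := by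
  have h1 := fun i => hΛ.c1 i
  have hdc : ∀ i j, ContDiff ℝ 1 (fun u => dForm Λ u i j) := fun i j =>
    (D_contDiff (h2 j) i).sub (D_contDiff (h2 i) j)
  refine ⟨fun i j => (hf.c1 i j).add (hdc i j), ?_, ?_, ?_, ?_, hpole⟩
  · intro u
    rw [Matrix.transpose_add, hf.anti u]
    ext i j
    simp [dForm]
    ring
  · intro u i j k
    have e : ∀ p q r, D p (fun u => (f u + dForm Λ u) q r) u = D p (fun u => f u q r) u +
        (D p (D q (fun v => Λ v r)) u - D p (D r (fun v => Λ v q)) u) := by
      intro p q r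
      have := D_add' (hf.c1 q r) (hdc q r) p u
      refine this.trans ?_
      congr 1
      exact D_sub' (D_contDiff (h2 r) q) (D_contDiff (h2 q) r) p u
    rw [e, e, e]
    have a1 := hf.closed u i j k
    have c1 := D_comm (h2 k) i j u
    have c2 := D_comm (h2 j) i k u
    have c3 := D_comm (h2 i) j k u
    linarith
  · intro k hk2 hk4 u
    rw [hf.per k hk2 hk4]
    congr 1
    ext i j
    simp only [dForm]
    rw [← D_shift, ← D_shift]
    have : ∀ m, (fun v => Λ (v + Pi.single k (L6 k)) m) = fun v => Λ v m := by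
      intro m; funext v; rw [hΛ.per k hk2 hk4]
    rw [this, this]
  · intro u
    rw [Matrix.mul_add, Matrix.add_mul, ← hf.equi u]
    congr 1
    have hT : ∀ (g : V6 → ℝ), ContDiff ℝ 1 g → ∀ i, D i (fun v => g (aMap v)) u =
        ∑ p, T6 p i * D p g (aMap u) := by
      intro g hg i
      have h3 : HasFDerivAt aMap (Matrix.mulVecLin T6).toContinuousLinearMap u := by
        have h2 := (Matrix.mulVecLin T6).toContinuousLinearMap.hasFDerivAt (x := u)
        exact h2.add_const (Pi.single 2 1)
      have h4 := ((hg.differentiable (by norm_num)) (aMap u)).hasFDerivAt.comp u h3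
      unfold D
      change fderiv ℝ (g ∘ aMap) u _ = _
      rw [h4.fderiv, ContinuousLinearMap.comp_apply]
      rw [clm_eq_lin (fderiv ℝ g (aMap u)), lin_apply]
      refine Finset.sum_congr rfl fun p _ => ?_
      rw [mul_comm]
      simp [Matrix.mulVec_single, lin_single]
    have hac : ContDiff ℝ 1 aMap := by
      unfold aMap
      exact ((Matrix.mulVecLin T6).toContinuousLinearMap.contDiff).add contDiff_const
    have hΛe : ∀ k, (fun v => Λ v k) = fun v => ∑ q, T6 q k * Λ (aMap v) q := by
      intro k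
      funext v
      rw [hΛ.equi v]
      rfl
    have hD : ∀ i k, D i (fun v => Λ v k) u =
        ∑ q, T6 q k * ∑ p, T6 p i * D p (fun v => Λ v q) (aMap u) := by
      intro i k
      rw [hΛe k]
      have : D i (fun v => ∑ q, T6 q k * Λ (aMap v) q) u =
          ∑ q, T6 q k * D i (fun v => Λ (aMap v) q) u := by
        unfold D
        have hd : ∀ q, DifferentiableAt ℝ (fun v => Λ (aMap v) q) u := fun q =>
          ((h1 q).comp hac).differentiable (by norm_num) u
        rw [fderiv_fun_sum (fun q _ => (hd q).const_mul _)]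
        rw [_root_.sum_apply]
        refine Finset.sum_congr rfl fun q _ => ?_
        rw [fderiv_const_mul (hd q)]
        rfl
      rw [this]
      refine Finset.sum_congr rfl fun q _ => ?_
      rw [hT (fun v => Λ v q) (h1 q)]
    ext i k
    rw [Matrix.mul_apply]
    have e1 : ∀ q, (T6ᵀ * dForm Λ (aMap u)) i q * T6 q k =
        ∑ p, T6 p i * T6 q k * (D p (fun v => Λ v q) (aMap u) - D q (fun v => Λ v p) (aMap u)) := by
      intro q
      rw [Matrix.mul_apply, Finset.sum_mul]
      refine Finset.sum_congr rfl fun p _ => ?_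
      simp only [Matrix.transpose_apply, dForm]
      ring
    simp only [e1, mul_sub, Finset.sum_sub_distrib]
    simp only [dForm]
    rw [hD, hD]
    congr 1
    · refine Finset.sum_congr rfl fun q _ => ?_
      rw [Finset.mul_sum]
      refine Finset.sum_congr rfl fun p _ => ?_
      ring
    · rw [Finset.sum_comm]
      refine Finset.sum_congr rfl fun q _ => ?_
      rw [Finset.mul_sum]
      refine Finset.sum_congr rfl fun p _ => ?_
      ring

end Pool.Agent.H819R2
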