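import Pool.Agent.H819R2.CalcMain

open scoped BigOperators
open Matrix MeasureTheory Set

namespace Pool.Agent.H819R2

lemma lin_sub (v w : V6) : lin (v - w) = lin v - lin w := by
  ext x
  simp [lin_apply, sub_mul, Finset.sum_sub_distrib]

lemma single_mul_T6 (c : ℝ) (j : Fin 6) (hj : j = 3 ∨ j = 5) :
    T6ᵀ *ᵥ (Pi.single j c) = Pi.single j c := by
  rcases hj with rfl | rfl <;>
  · funext k
    fin_cases k <;> simp [T6, Pi.single_apply]

/-- First reduction: for a closed 2-form independent of `t` and `φ` the contraction with `∂_t` can be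
made equal to a constant multiple of `dz`. -/
lemma reduce1 {f : V6 → Mat6} (hf : Form2 f)
    (h3 : ∀ u s, f (u + Pi.single 3 s) = f u) (h5 : ∀ u s, f (u + Pi.single 5 s) = f u) :
    ∃ (α : ℝ) (Λ : V6 → V6), Form1 Λ ∧ (∀ u i k, i ≠ 3 → k ≠ 3 → dForm Λ u i k = 0) ∧
      (∀ u i, f u 3 i + dForm Λ u 3 i = if i = 2 then α else 0) ∧
      Form2 (fun u => f u + dForm Λ u) := by
  have hD3 : ∀ u i k, D 3 (fun v => f v i k) u = 0 := fun u i k =>
    D_eq_zero_of_shift (hf.c1 i k) 3 (fun u s => by rw [h3]) u
  have hD5 : ∀ u i k, D 5 (fun v => f v i k) u = 0 := fun u i k =>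
    D_eq_zero_of_shift (hf.c1 i k) 5 (fun u s => by rw [h5]) u
  have h35 : ∀ u, f u 3 5 = 0 := by
    intro u
    have hz : ∀ i u, D i (fun v => f v 3 5) u = 0 := by
      intro i u
      have := hf.closed u i 3 5
      rw [hD3, hD5] at this
      linarith
    have := const_of_D_zero (hf.c1 3 5) hz u 0
    rw [this, hf.skew 0 5 3, hf.pole 0 (Or.inl rfl), neg_zero]
  have h33 : ∀ u i, f u i i = 0 := by
    intro u i
    have := hf.skew u i i
    linarith
  obtain ⟨H, hH⟩ := exists_primitive (fun u i => f u 3 i) (fun i => hf.c1 3 i) (by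
    intro u i k
    have := hf.closed u i 3 k
    rw [hD3, hf.D_skew u k 3 i] at this
    linarith)
  set l : V6 → V6 := fun u i => f u 3 i with hl
  have hlper : ∀ k : Fin 6, k ≠ 2 → k ≠ 4 → ∀ u, l (u + Pi.single k (L6 k)) = l u := by
    intro k hk2 hk4 u
    simp only [hl]
    rw [hf.per k hk2 hk4]
  have hla : ∀ u, l u = T6ᵀ *ᵥ l (aMap u) := by
    intro u
    funext i
    simp only [hl]
    rw [hf.equi_apply u 3 i, Matrix.mulVec, dotProduct]
    refine Finset.sum_congr rfl fun q _ => ?_
    rw [Finset.sum_eq_single 3]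
    · simp [T6, Matrix.transpose_apply]; ring
    · intro b _ hb
      fin_cases b <;> simp [T6] at hb ⊢
    · simp
  have hshift : ∀ k : Fin 6, k ≠ 2 → k ≠ 4 → ∀ u, H (u + Pi.single k (L6 k)) =
      H u + (H (Pi.single k (L6 k)) - H 0) := by
    intro k hk2 hk4 u
    have := const_of_same_deriv (hasFDerivAt_shift hH (Pi.single k (L6 k)) (hlper k hk2 hk4)) hH u
    simp only [zero_add] at this
    linarith
  obtain ⟨α, hα⟩ : ∃ α, ∀ u, H (aMap u) = H u + α := by
    refine ⟨H (aMap 0) - H 0, fun u => ?_⟩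
    have := const_of_same_deriv (hasFDerivAt_aMap hH hla) hH u
    linarith
  have hz35 : ∀ k : Fin 6, k = 3 ∨ k = 5 → ∀ u s, H (u + Pi.single k s) = H u := by
    intro k hk u s
    have h1 : ∀ r : ℝ, HasDerivAt (fun r => H (u + Pi.single k r)) 0 r := by
      intro r
      have h2 : HasDerivAt (fun r : ℝ => u + (Pi.single k r : V6)) (Pi.single k 1) r := by
        have h0 : (fun r : ℝ => u + (Pi.single k r : V6)) =
            fun r : ℝ => u + r • (Pi.single k 1 : V6) := by
          funext p
          rw [single_eq_smul k p]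
        rw [h0]
        have := ((hasDerivAt_id r).smul_const (Pi.single k (1 : ℝ) : V6)).const_add u
        rw [one_smul] at this
        exact this
      have h3 := (hH (u + Pi.single k r)).comp_hasDerivAt r h2
      have : lin (l (u + Pi.single k r)) (Pi.single k 1) = 0 := by
        rw [lin_single]
        rcases hk with rfl | rfl
        · exact h33 _ 3
        · exact h35 _
      have h4 : HasDerivAt (fun r => H (u + Pi.single k r))
        (lin (l (u + Pi.single k r)) (Pi.single k 1)) r := h3
      rw [this] at h4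
      exact h4
    have := is_const_of_deriv_eq_zero (fun r => (h1 r).differentiableAt) (fun r => (h1 r).deriv) s 0
    simpa using this
  set c0 : ℝ := H (Pi.single 0 3) - H 0 with hc0
  set c1 : ℝ := H (Pi.single 1 3) - H 0 with hc1
  have hs0 : ∀ u, H (u + Pi.single 0 3) = H u + c0 := by
    intro u
    have := hshift 0 (by decide) (by decide) u
    simpa [L6] using this
  have hs1 : ∀ u, H (u + Pi.single 1 3) = H u + c1 := by
    intro u
    have := hshift 1 (by decide) (by decide) u
    simpa [L6] using this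
  have hs0n : ∀ (n : ℕ) u, H (u + Pi.single 0 (3 * (n : ℝ))) = H u + n * c0 := by
    intro n
    induction n with
    | zero => intro u; simp
    | succ n ih =>
      intro u
      have : u + Pi.single 0 (3 * ((n + 1 : ℕ) : ℝ)) = (u + Pi.single 0 (3 * (n : ℝ))) +
          Pi.single 0 3 := by
        rw [add_assoc, ← Pi.single_add]
        congr 2
        push_cast; ring
      rw [this, hs0, ih]; push_cast; ring
  have hs1n : ∀ (n : ℕ) u, H (u + Pi.single 1 (3 * (n : ℝ))) = H u + n * c1 := by
    intro n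
    induction n with
    | zero => intro u; simp
    | succ n ih =>
      intro u
      have : u + Pi.single 1 (3 * ((n + 1 : ℕ) : ℝ)) = (u + Pi.single 1 (3 * (n : ℝ))) +
          Pi.single 1 3 := by
        rw [add_assoc, ← Pi.single_add]
        congr 2
        push_cast; ring
      rw [this, hs1, ih]; push_cast; ring
  have e0 : 36 * c0 + 3 * c1 = 0 := by
    have h1 : aMap (0 + Pi.single 0 3) = (aMap 0 + Pi.single 0 (3 * ((37 : ℕ) : ℝ))) +
        Pi.single 1 (3 * ((3 : ℕ) : ℝ)) := by
      funext k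
      fin_cases k <;> simp [aMap, T6, Matrix.mulVec, dotProduct, Fin.sum_univ_succ,
        Pi.single_apply] <;> norm_num
    have h2 := hα (0 + Pi.single 0 3)
    rw [h1, hs1n, hs0n, hα, hs0] at h2
    push_cast at h2
    linarith
  have e1 : 12 * c0 = 0 := by
    have h1 : aMap (0 + Pi.single 1 3) = (aMap 0 + Pi.single 0 (3 * ((12 : ℕ) : ℝ))) +
        Pi.single 1 (3 * ((1 : ℕ) : ℝ)) := by
      funext k
      fin_cases k <;> simp [aMap, T6, Matrix.mulVec, dotProduct, Fin.sum_univ_succ,
        Pi.single_apply] <;> norm_num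
    have h2 := hα (0 + Pi.single 1 3)
    rw [h1, hs1n, hs0n, hα, hs1] at h2
    push_cast at h2
    linarith
  have c0z : c0 = 0 := by linarith
  have c1z : c1 = 0 := by linarith
  -- the corrected primitive
  set h : V6 → ℝ := fun u => H u - α * u 2 with hh
  have hhd : ∀ u, HasFDerivAt h (lin (l u - Pi.single 2 α)) u := by
    intro u
    rw [lin_sub]
    have h1 : HasFDerivAt (fun u : V6 => α * u 2) (lin (Pi.single 2 α)) u := by
      have h2 : lin (Pi.single 2 α) = α • (ContinuousLinearMap.proj 2 : V6 →L[ℝ] ℝ) := by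
        ext x
        rw [lin_apply, Finset.sum_eq_single 2]
        · simp
        · intro b _ hb; rw [Pi.single_eq_of_ne hb]; ring
        · simp
      rw [h2]
      exact (ContinuousLinearMap.proj 2 : V6 →L[ℝ] ℝ).hasFDerivAt.const_mul α
    exact (hH u).sub h1
  have hlc : ∀ i, ContDiff ℝ 1 (fun u => (l u - Pi.single 2 α : V6) i) := by
    intro i
    exact (hf.c1 3 i).sub contDiff_const
  have hC2 : ContDiff ℝ 2 h := contDiff_two_of (l := fun u => l u - Pi.single 2 α) hlc hhd
  have hper : ∀ k : Fin 6, k ≠ 2 → k ≠ 4 → ∀ u, h (u + Pi.single k (L6 k)) = h u := by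
    intro k hk2 hk4 u
    simp only [hh]
    have : (u + Pi.single k (L6 k) : V6) 2 = u 2 := by
      simp [Pi.single_eq_of_ne hk2.symm]
    rw [this]
    congr 1
    fin_cases k
    · have := hs0 u
      rw [c0z, add_zero] at this
      simpa [L6] using this
    · have := hs1 u
      rw [c1z, add_zero] at this
      simpa [L6] using this
    · exact absurd rfl hk2
    · exact hz35 3 (Or.inl rfl) u _
    · exact absurd rfl hk4
    · exact hz35 5 (Or.inr rfl) u _
  have hha : ∀ u, h (aMap u) = h u := by
    intro u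
    simp only [hh]
    have : (aMap u) 2 = u 2 + 1 := by
      simp [aMap, T6, Matrix.mulVec, dotProduct, Fin.sum_univ_succ]
    rw [this, hα]; ring
  let Λ : V6 → V6 := fun u => Pi.single 3 (h u)
  have hΛ3 : ∀ u, Λ u 3 = h u := fun u => by simp [Λ]
  have hΛo : ∀ u k, k ≠ 3 → Λ u k = 0 := fun u k hk => by simp [Λ, Pi.single_eq_of_ne hk]
  have hΛc : ∀ k, ContDiff ℝ 2 (fun u => Λ u k) := by
    intro k
    by_cases hk : k = 3
    · subst hk; simp only [hΛ3]; exact hC2
    · simp only [hΛo _ k hk]; exact contDiff_const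
  have hF1 : Form1 Λ := by
    refine ⟨fun i => (hΛc i).of_le (by norm_num), ?_, ?_, ?_⟩
    · intro k hk2 hk4 u
      simp only [Λ]
      rw [hper k hk2 hk4]
    · intro u
      simp only [Λ]
      rw [single_mul_T6 _ 3 (Or.inl rfl), hha]
    · intro u _
      exact hΛo u 5 (by decide)
  have hDh : ∀ i u, D i h u = l u i - (Pi.single 2 α : V6) i := by
    intro i u
    rw [D_of_hasFDerivAt hhd]; rfl
  have hD0 : ∀ i k u, k ≠ 3 → D i (fun v => Λ v k) u = 0 := by
    intro i k u hk
    simp only [hΛo _ k hk]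
    simp [D]
  have hDΛ3 : ∀ i u, D i (fun v => Λ v 3) u = D i h u := by
    intro i u
    simp only [hΛ3]
  have hd0 : ∀ u i k, i ≠ 3 → k ≠ 3 → dForm Λ u i k = 0 := by
    intro u i k hi hk
    simp only [dForm]
    rw [hD0 i k u hk, hD0 k i u hi, sub_self]
  have hd3 : ∀ u i, f u 3 i + dForm Λ u 3 i = if i = 2 then α else 0 := by
    intro u i
    by_cases hi : i = 3
    · subst hi
      simp [dForm, h33]
    · simp only [dForm]
      rw [hD0 3 i u hi, hDΛ3, hDh]
      have : l u i = f u 3 i := rfl
      rw [this]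
      by_cases hi2 : i = 2
      · subst hi2; simp
      · simp [hi2, Pi.single_eq_of_ne hi2]
  refine ⟨α, Λ, hF1, hd0, hd3, form2_add hf hF1 hΛc ?_⟩
  intro u hu j
  by_cases hj : j = 3
  · subst hj
    have := hd3 u 5
    simp only [if_neg (show ¬ ((5 : Fin 6) = 2) by decide)] at this
    rw [h35 u, zero_add] at this
    rw [hf.skew u 3 5, h35 u]
    have h53 : dForm Λ u 5 3 = - dForm Λ u 3 5 := by simp [dForm]
    rw [h53, this]; simp
  · rw [hf.pole u hu, hd0 u 5 j (by decide) hj, add_zero]

end Pool.Agent.H819R2
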