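import Pool.Agent.H819R2.Wedge
import Pool.Agent.H819R2.Box

/-!
# Stokes' theorem for products of closed 2-forms on the fundamental box
-/

open scoped BigOperators
open Finset Matrix MeasureTheory

namespace Pool.Agent.H819R2

/-- coordinate space: `(x, y, z, t, θ, φ)` -/
abbrev V6 : Type := Fin 6 → ℝ

/-- partial derivative -/
noncomputable def D (i : Fin 6) (g : V6 → ℝ) (u : V6) : ℝ := fderiv ℝ g u (Pi.single i 1)

/-- side lengths of the fundamental box -/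
noncomputable def L6 : Fin 6 → ℝ := ![3, 3, 1, 3, Real.pi, 2 * Real.pi]

/-- the linear part of the deck transformation `a` -/
def T6 : Mat6 :=
  !![37, 12, 0, 0, 0, 0;
     3, 1, 0, 0, 0, 0;
     0, 0, 1, 0, 0, 0;
     0, 0, 0, 1, 0, 0;
     0, 0, 0, 0, 1, 0;
     0, 0, 0, 0, 0, 1]

/-- the deck transformation `a` -/
def aMap (u : V6) : V6 := T6 *ᵥ u + Pi.single 2 1

/-- exterior derivative of a 1-form, as a matrix -/
noncomputable def dForm (Λ : V6 → V6) (u : V6) : Mat6 :=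
  fun i j => D i (fun v => Λ v j) u - D j (fun v => Λ v i) u

/-- closed invariant 2-forms, regular at the poles -/
structure Form2 (f : V6 → Mat6) : Prop where
  c1 : ∀ i j, ContDiff ℝ 1 (fun u => f u i j)
  anti : ∀ u, (f u)ᵀ = - f u
  closed : ∀ u i j k, D i (fun u => f u j k) u + D j (fun u => f u k i) u +
    D k (fun u => f u i j) u = 0
  per : ∀ k : Fin 6, k ≠ 2 → k ≠ 4 → ∀ u, f (u + Pi.single k (L6 k)) = f u
  equi : ∀ u, f u = T6ᵀ * f (aMap u) * T6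
  pole : ∀ u : V6, (u 4 = 0 ∨ u 4 = Real.pi) → ∀ j, f u 5 j = 0

/-- invariant 1-forms, regular at the poles -/
structure Form1 (Λ : V6 → V6) : Prop where
  c1 : ∀ i, ContDiff ℝ 1 (fun u => Λ u i)
  per : ∀ k : Fin 6, k ≠ 2 → k ≠ 4 → ∀ u, Λ (u + Pi.single k (L6 k)) = Λ u
  equi : ∀ u, Λ u = T6ᵀ *ᵥ Λ (aMap u)
  pole : ∀ u : V6, (u 4 = 0 ∨ u 4 = Real.pi) → Λ u 5 = 0

/-- the vector field dual to `Λ ∧ g ∧ h` -/
noncomputable def Vf (Λ : V6 → V6) (g h : V6 → Mat6) (i : Fin 6) (u : V6) : ℝ :=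
  W (Matrix.vecMulVec (Pi.single i 1) (Λ u)) (g u) (h u)

lemma D_mul3 {p q r : V6 → ℝ} (hp : ContDiff ℝ 1 p) (hq : ContDiff ℝ 1 q) (hr : ContDiff ℝ 1 r)
    (i : Fin 6) (u : V6) :
    D i (fun v => p v * q v * r v) u = D i p u * q u * r u + p u * D i q u * r u +
      p u * q u * D i r u := by
  have h1 : DifferentiableAt ℝ p u := hp.differentiable (by norm_num) u
  have h2 : DifferentiableAt ℝ q u := hq.differentiable (by norm_num) u
  have h3 : DifferentiableAt ℝ r u := hr.differentiable (by norm_num) u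
  have h12 : DifferentiableAt ℝ (fun v => p v * q v) u := h1.fun_mul h2
  unfold D
  rw [fderiv_fun_mul h12 h3, fderiv_fun_mul h1 h2]
  simp only [_root_.add_apply, _root_.smul_apply, smul_eq_mul]
  ring

lemma Vf_contDiff {Λ : V6 → V6} {g h : V6 → Mat6} (hΛ : ∀ i, ContDiff ℝ 1 (fun u => Λ u i))
    (hg : ∀ i j, ContDiff ℝ 1 (fun u => g u i j)) (hh : ∀ i j, ContDiff ℝ 1 (fun u => h u i j))
    (i : Fin 6) : ContDiff ℝ 1 (Vf Λ g h i) := by
  unfold Vf W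
  refine ContDiff.sum fun σ _ => ?_
  simp only [Matrix.vecMulVec_apply]
  exact contDiff_const.mul (((contDiff_const.mul (hΛ _)).mul (hg _ _)).mul (hh _ _))

lemma div_Vf_sum {Λ : V6 → V6} {g h : V6 → Mat6} (hΛ : ∀ i, ContDiff ℝ 1 (fun u => Λ u i))
    (hg : ∀ i j, ContDiff ℝ 1 (fun u => g u i j)) (hh : ∀ i j, ContDiff ℝ 1 (fun u => h u i j))
    (u : V6) :
    ∑ i, D i (Vf Λ g h i) u = ∑ σ : Equiv.Perm (Fin 6), ((Equiv.Perm.sign σ : ℤ) : ℝ) *
      D (σ 0) (fun v => Λ v (σ 1) * g v (σ 2) (σ 3) * h v (σ 4) (σ 5)) u := by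
  have h1 : ∀ i, D i (Vf Λ g h i) u = ∑ σ : Equiv.Perm (Fin 6),
      ((Equiv.Perm.sign σ : ℤ) : ℝ) * ((Pi.single i 1 : V6) (σ 0) *
      D i (fun v => Λ v (σ 1) * g v (σ 2) (σ 3) * h v (σ 4) (σ 5)) u) := by
    intro i
    have h2 : Vf Λ g h i = fun v => ∑ σ : Equiv.Perm (Fin 6),
      (((Equiv.Perm.sign σ : ℤ) : ℝ) * (Pi.single i 1 : V6) (σ 0)) *
      (Λ v (σ 1) * g v (σ 2) (σ 3) * h v (σ 4) (σ 5)) := by
      funext v
      unfold Vf W
      refine Finset.sum_congr rfl fun σ _ => ?_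
      simp only [Matrix.vecMulVec_apply]; ring
    have hd : ∀ σ : Equiv.Perm (Fin 6), DifferentiableAt ℝ
        (fun v => Λ v (σ 1) * g v (σ 2) (σ 3) * h v (σ 4) (σ 5)) u := fun σ =>
      (((hΛ _).mul (hg _ _)).mul (hh _ _)).differentiable (by norm_num) u
    rw [h2]
    unfold D
    rw [fderiv_fun_sum (fun σ _ => (hd σ).const_mul _)]
    rw [_root_.sum_apply]
    refine Finset.sum_congr rfl fun σ _ => ?_
    rw [fderiv_const_mul (hd σ)]
    simp only [_root_.smul_apply, smul_eq_mul]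
    ring
  simp only [h1]
  rw [Finset.sum_comm]
  refine Finset.sum_congr rfl fun σ _ => ?_
  rw [← Finset.mul_sum]
  congr 1
  rw [Finset.sum_eq_single (σ 0)]
  · simp
  · intro b _ hb
    rw [Pi.single_eq_of_ne hb.symm, zero_mul]
  · simp

/-- cyclic reindexing kills the closed factors -/
lemma sum_cyc_zero (c : Equiv.Perm (Fin 6)) (hc : Equiv.Perm.sign c = 1)
    (F : Equiv.Perm (Fin 6) → ℝ)
    (h : ∀ σ, F σ + F (σ * c) + F (σ * (c * c)) = 0) :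
    ∑ σ : Equiv.Perm (Fin 6), ((Equiv.Perm.sign σ : ℤ) : ℝ) * F σ = 0 := by
  have h1 : ∑ σ : Equiv.Perm (Fin 6), ((Equiv.Perm.sign σ : ℤ) : ℝ) * F σ =
      ∑ σ : Equiv.Perm (Fin 6), ((Equiv.Perm.sign σ : ℤ) : ℝ) * F (σ * c) := by
    rw [← Equiv.sum_comp (Equiv.mulRight c)]
    refine Finset.sum_congr rfl fun σ _ => ?_
    simp [Equiv.Perm.sign_mul, hc]
  have h2 : ∑ σ : Equiv.Perm (Fin 6), ((Equiv.Perm.sign σ : ℤ) : ℝ) * F σ =
      ∑ σ : Equiv.Perm (Fin 6), ((Equiv.Perm.sign σ : ℤ) : ℝ) * F (σ * (c * c)) := by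
    rw [← Equiv.sum_comp (Equiv.mulRight (c * c))]
    refine Finset.sum_congr rfl fun σ _ => ?_
    simp only [Equiv.coe_mulRight, Equiv.Perm.sign_mul, hc, mul_one]
  have h3 : 3 * ∑ σ : Equiv.Perm (Fin 6), ((Equiv.Perm.sign σ : ℤ) : ℝ) * F σ = 0 := by
    calc _ = ∑ σ : Equiv.Perm (Fin 6), ((Equiv.Perm.sign σ : ℤ) : ℝ) * F σ +
          ∑ σ : Equiv.Perm (Fin 6), ((Equiv.Perm.sign σ : ℤ) : ℝ) * F (σ * c) +
          ∑ σ : Equiv.Perm (Fin 6), ((Equiv.Perm.sign σ : ℤ) : ℝ) * F (σ * (c * c)) := by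
            rw [← h1, ← h2]; ring
      _ = ∑ σ : Equiv.Perm (Fin 6), ((Equiv.Perm.sign σ : ℤ) : ℝ) *
          (F σ + F (σ * c) + F (σ * (c * c))) := by
            rw [← Finset.sum_add_distrib, ← Finset.sum_add_distrib]
            refine Finset.sum_congr rfl fun σ _ => ?_
            ring
      _ = 0 := by
            apply Finset.sum_eq_zero
            intro σ _
            rw [h σ, mul_zero]
  linarith

lemma div_Vf {Λ : V6 → V6} {g h : V6 → Mat6} (hΛ : ∀ i, ContDiff ℝ 1 (fun u => Λ u i))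
    (hg : Form2 g) (hh : Form2 h) (u : V6) :
    ∑ i, D i (Vf Λ g h i) u = (1 / 2) * W (dForm Λ u) (g u) (h u) := by
  rw [div_Vf_sum hΛ hg.c1 hh.c1]
  have e1 : ∀ σ : Equiv.Perm (Fin 6), ((Equiv.Perm.sign σ : ℤ) : ℝ) *
      D (σ 0) (fun v => Λ v (σ 1) * g v (σ 2) (σ 3) * h v (σ 4) (σ 5)) u =
      ((Equiv.Perm.sign σ : ℤ) : ℝ) * (D (σ 0) (fun v => Λ v (σ 1)) u * g u (σ 2) (σ 3) *
        h u (σ 4) (σ 5)) +
      ((Equiv.Perm.sign σ : ℤ) : ℝ) * (Λ u (σ 1) * D (σ 0) (fun v => g v (σ 2) (σ 3)) u *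
        h u (σ 4) (σ 5)) +
      ((Equiv.Perm.sign σ : ℤ) : ℝ) * (Λ u (σ 1) * g u (σ 2) (σ 3) *
        D (σ 0) (fun v => h v (σ 4) (σ 5)) u) := by
    intro σ
    rw [D_mul3 (hΛ _) (hg.c1 _ _) (hh.c1 _ _)]
    ring
  simp only [e1]
  rw [Finset.sum_add_distrib, Finset.sum_add_distrib]
  have z2 : ∑ σ : Equiv.Perm (Fin 6), ((Equiv.Perm.sign σ : ℤ) : ℝ) *
      (Λ u (σ 1) * D (σ 0) (fun v => g v (σ 2) (σ 3)) u * h u (σ 4) (σ 5)) = 0 := by
    let c : Equiv.Perm (Fin 6) := Equiv.swap 0 2 * Equiv.swap 2 3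
    apply sum_cyc_zero c (by decide)
    intro σ
    have h0 : c 0 = 2 := by decide
    have h1 : c 1 = 1 := by decide
    have h2 : c 2 = 3 := by decide
    have h3 : c 3 = 0 := by decide
    have h4 : c 4 = 4 := by decide
    have h5 : c 5 = 5 := by decide
    simp only [Equiv.Perm.mul_apply, h0, h1, h2, h3, h4, h5]
    have := hg.closed u (σ 0) (σ 2) (σ 3)
    linear_combination (Λ u (σ 1) * h u (σ 4) (σ 5)) * this
  have z3 : ∑ σ : Equiv.Perm (Fin 6), ((Equiv.Perm.sign σ : ℤ) : ℝ) *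
      (Λ u (σ 1) * g u (σ 2) (σ 3) * D (σ 0) (fun v => h v (σ 4) (σ 5)) u) = 0 := by
    let c : Equiv.Perm (Fin 6) := Equiv.swap 0 4 * Equiv.swap 4 5
    apply sum_cyc_zero c (by decide)
    intro σ
    have h0 : c 0 = 4 := by decide
    have h1 : c 1 = 1 := by decide
    have h2 : c 2 = 2 := by decide
    have h3 : c 3 = 3 := by decide
    have h4 : c 4 = 5 := by decide
    have h5 : c 5 = 0 := by decide
    simp only [Equiv.Perm.mul_apply, h0, h1, h2, h3, h4, h5]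
    have := hh.closed u (σ 0) (σ 4) (σ 5)
    linear_combination (Λ u (σ 1) * g u (σ 2) (σ 3)) * this
  rw [z2, z3, add_zero, add_zero]
  have e2 : W (dForm Λ u) (g u) (h u) =
      ∑ σ : Equiv.Perm (Fin 6), ((Equiv.Perm.sign σ : ℤ) : ℝ) *
        (D (σ 0) (fun v => Λ v (σ 1)) u * g u (σ 2) (σ 3) * h u (σ 4) (σ 5)) -
      ∑ σ : Equiv.Perm (Fin 6), ((Equiv.Perm.sign σ : ℤ) : ℝ) *
        (D (σ 1) (fun v => Λ v (σ 0)) u * g u (σ 2) (σ 3) * h u (σ 4) (σ 5)) := by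
    rw [← Finset.sum_sub_distrib, W]
    refine Finset.sum_congr rfl fun σ _ => ?_
    simp only [dForm]
    ring
  have e3 : ∑ σ : Equiv.Perm (Fin 6), ((Equiv.Perm.sign σ : ℤ) : ℝ) *
        (D (σ 1) (fun v => Λ v (σ 0)) u * g u (σ 2) (σ 3) * h u (σ 4) (σ 5)) =
      - ∑ σ : Equiv.Perm (Fin 6), ((Equiv.Perm.sign σ : ℤ) : ℝ) *
        (D (σ 0) (fun v => Λ v (σ 1)) u * g u (σ 2) (σ 3) * h u (σ 4) (σ 5)) := by
    let c : Equiv.Perm (Fin 6) := Equiv.swap 0 1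
    have hc : Equiv.Perm.sign c = -1 := by decide
    have h0 : c 0 = 1 := by decide
    have h1 : c 1 = 0 := by decide
    have h2 : c 2 = 2 := by decide
    have h3 : c 3 = 3 := by decide
    have h4 : c 4 = 4 := by decide
    have h5 : c 5 = 5 := by decide
    rw [← Equiv.sum_comp (Equiv.mulRight c), ← Finset.sum_neg_distrib]
    refine Finset.sum_congr rfl fun σ _ => ?_
    simp only [Equiv.coe_mulRight, Equiv.Perm.sign_mul, hc, Equiv.Perm.mul_apply, h0, h1, h2, h3,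
      h4, h5]
    simp
  rw [e2, e3]
  ring

end Pool.Agent.H819R2
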