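import Pool.Agent.H819R2.Stokes

open scoped BigOperators
open Finset Matrix MeasureTheory Set

namespace Pool.Agent.H819R2

lemma det_T6 : T6.det = 1 := by
  let Z : Matrix (Fin 6) (Fin 6) ℤ := !![37, 12, 0, 0, 0, 0;
     3, 1, 0, 0, 0, 0;
     0, 0, 1, 0, 0, 0;
     0, 0, 0, 1, 0, 0;
     0, 0, 0, 0, 1, 0;
     0, 0, 0, 0, 0, 1]
  have hZ : Z.det = 1 := by decide +kernel
  have hT : T6 = Z.map (Int.castRingHom ℝ) := by
    ext i j
    fin_cases i <;> fin_cases j <;> simp [T6, Z]
  rw [hT, ← RingHom.mapMatrix_apply, ← RingHom.map_det, hZ]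
  simp

lemma Vf_two_invariant {Λ : V6 → V6} {g h : V6 → Mat6} (hΛ : Form1 Λ) (hg : Form2 g)
    (hh : Form2 h) (u : V6) : Vf Λ g h 2 (aMap u) = Vf Λ g h 2 u := by
  unfold Vf
  have h1 : Matrix.vecMulVec (Pi.single 2 1) (Λ u) =
      T6ᵀ * Matrix.vecMulVec (Pi.single 2 1) (Λ (aMap u)) * T6ᵀᵀ := by
    rw [Matrix.mul_vecMulVec, Matrix.transpose_transpose, Matrix.vecMulVec_mul]
    rw [← Matrix.mulVec_transpose T6 (Λ (aMap u)), ← hΛ.equi u]
    congr 1
    funext k
    fin_cases k <;> simp [T6]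
  have h2 := hg.equi u
  have h3 := hh.equi u
  have h4 := W_conj T6ᵀ (Matrix.vecMulVec (Pi.single 2 1) (Λ (aMap u))) (g (aMap u)) (h (aMap u))
  rw [Matrix.transpose_transpose, ← h2, ← h3, Matrix.det_transpose, det_T6, one_mul] at h4
  rw [Matrix.transpose_transpose] at h1
  rw [h1, h4]

lemma Vf_per {Λ : V6 → V6} {g h : V6 → Mat6} (hΛ : Form1 Λ) (hg : Form2 g)
    (hh : Form2 h) (i k : Fin 6) (h2 : k ≠ 2) (h4 : k ≠ 4) (u : V6) :
    Vf Λ g h i (u + Pi.single k (L6 k)) = Vf Λ g h i u := by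
  unfold Vf
  rw [hΛ.per k h2 h4, hg.per k h2 h4, hh.per k h2 h4]

lemma Vf_pole {Λ : V6 → V6} {g h : V6 → Mat6} (hΛ : Form1 Λ) (hg : Form2 g)
    (hh : Form2 h) (u : V6) (hu : u 4 = 0 ∨ u 4 = Real.pi) : Vf Λ g h 4 u = 0 := by
  unfold Vf W
  apply Finset.sum_eq_zero
  intro σ _
  rw [Matrix.vecMulVec_apply]
  have hg5 : ∀ j, g u j 5 = 0 := by
    intro j
    have := congrFun (congrFun (hg.anti u) 5) j
    rw [Matrix.transpose_apply, Matrix.neg_apply, hg.pole u hu] at this
    simpa using this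
  have hh5 : ∀ j, h u j 5 = 0 := by
    intro j
    have := congrFun (congrFun (hh.anti u) 5) j
    rw [Matrix.transpose_apply, Matrix.neg_apply, hh.pole u hu] at this
    simpa using this
  obtain ⟨m, hm⟩ := σ.surjective 5
  fin_cases m
  · have h0 : σ 0 = 5 := hm
    rw [h0]; simp
  · have h0 : σ 1 = 5 := hm
    rw [h0, hΛ.pole u hu]; simp
  · have h0 : σ 2 = 5 := hm
    rw [h0, hg.pole u hu]; simp
  · have h0 : σ 3 = 5 := hm
    rw [h0, hg5]; simp
  · have h0 : σ 4 = 5 := hm
    rw [h0, hh.pole u hu]; simp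
  · have h0 : σ 5 = 5 := hm
    rw [h0, hh5]; simp

lemma L6_nonneg : (0 : V6) ≤ L6 := by
  intro i
  have := Real.pi_pos
  fin_cases i <;> simp [L6] <;> positivity

/-- the `z`-faces cancel -/
lemma face_two (F : V6 → ℝ) (hc : Continuous F)
    (hp0 : ∀ u, F (u + Pi.single 0 3) = F u) (hp1 : ∀ u, F (u + Pi.single 1 3) = F u)
    (ha : ∀ u, F (aMap u) = F u) :
    ∫ x in Icc ((0 : V6) ∘ (2 : Fin 6).succAbove) (L6 ∘ (2 : Fin 6).succAbove),
      F ((2 : Fin 6).insertNth (L6 2) x) =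
    ∫ x in Icc ((0 : V6) ∘ (2 : Fin 6).succAbove) (L6 ∘ (2 : Fin 6).succAbove),
      F ((2 : Fin 6).insertNth ((0 : V6) 2) x) := by
  set a : Fin 5 → ℝ := (0 : V6) ∘ (2 : Fin 6).succAbove with ha'
  set b : Fin 5 → ℝ := L6 ∘ (2 : Fin 6).succAbove with hb'
  have hab : a ≤ b := fun j => L6_nonneg _
  let G : (Fin 5 → ℝ) → ℝ := fun w => F ((2 : Fin 6).insertNth (L6 2) w)
  have hG : Continuous G := by
    apply hc.comp
    exact Continuous.finInsertNth (A := fun _ => ℝ) 2 continuous_const continuous_id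
  have hins0 : ∀ (s r : ℝ) (w : Fin 5 → ℝ), ((2 : Fin 6).insertNth s (w + Pi.single 0 r) : V6) =
      (2 : Fin 6).insertNth s w + Pi.single 0 r := by
    intro s r w
    funext k
    rcases Fin.eq_self_or_eq_succAbove 2 k with rfl | ⟨l, rfl⟩
    · simp
    · simp only [Fin.insertNth_apply_succAbove, Pi.add_apply]
      fin_cases l <;> simp [Fin.succAbove]
  have hins1 : ∀ (s r : ℝ) (w : Fin 5 → ℝ), ((2 : Fin 6).insertNth s (w + Pi.single 1 r) : V6) =
      (2 : Fin 6).insertNth s w + Pi.single 1 r := by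
    intro s r w
    funext k
    rcases Fin.eq_self_or_eq_succAbove 2 k with rfl | ⟨l, rfl⟩
    · simp
    · simp only [Fin.insertNth_apply_succAbove, Pi.add_apply]
      fin_cases l <;> simp [Fin.succAbove]
  have hG0 : ∀ w, G (w + Pi.single 0 3) = G w := by
    intro w
    simp only [G]
    rw [hins0, hp0]
  have hG1 : ∀ w, G (w + Pi.single 1 3) = G w := by
    intro w
    simp only [G]
    rw [hins1, hp1]
  have hG0n : ∀ (n : ℕ) w, G (w + Pi.single 0 (3 * (n : ℝ))) = G w := by
    intro n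
    induction n with
    | zero => intro w; simp
    | succ n ih =>
      intro w
      have : w + Pi.single 0 (3 * ((n + 1 : ℕ) : ℝ)) = (w + Pi.single 0 (3 * (n : ℝ))) +
          Pi.single 0 3 := by
        rw [add_assoc, ← Pi.single_add]
        congr 2
        push_cast; ring
      rw [this, hG0, ih]
  have hb0 : b 0 - a 0 = 3 := by simp [ha', hb', L6, Fin.succAbove]
  have hb1 : b 1 - a 1 = 3 := by simp [ha', hb', L6, Fin.succAbove]
  let G1 : (Fin 5 → ℝ) → ℝ := fun w => G (w + Pi.single 0 (12 * w 1))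
  have hG1c : Continuous G1 := by
    refine hG.comp ?_
    refine continuous_id.add ?_
    refine continuous_pi fun k => ?_
    by_cases hk : k = 0
    · subst hk
      simp only [Pi.single_eq_same]
      fun_prop
    · simp only [Pi.single_eq_of_ne hk]
      fun_prop
  have s1 : ∫ x in Icc a b, G1 x = ∫ x in Icc a b, G x := by
    have := integral_shear a b hab 0 0 12 G hG (by intro x; rw [hb0, hG0])
    exact this
  have s2 : ∫ x in Icc a b, G1 (x + Pi.single 1 (3 * x 0)) = ∫ x in Icc a b, G1 x := by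
    have hper1 : ∀ x, G1 (x + Pi.single 1 (b 1 - a 1)) = G1 x := by
      intro x
      rw [hb1]
      simp only [G1]
      have : x + Pi.single 1 3 + Pi.single 0 (12 * (x + Pi.single 1 3 : Fin 5 → ℝ) 1) =
          ((x + Pi.single 0 (12 * x 1)) + Pi.single 0 (3 * ((12 : ℕ) : ℝ))) + Pi.single 1 3 := by
        funext k
        simp only [Pi.add_apply, Pi.single_apply]
        fin_cases k
        · simp; ring
        · simp
        · simp
        · simp
        · simp
      rw [this, hG1, hG0n]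
    have := integral_shear a b hab 1 0 3 G1 hG1c hper1
    exact this
  change ∫ x in Icc a b, G x = _
  rw [← s1, ← s2]
  refine setIntegral_congr_fun measurableSet_Icc fun w _ => ?_
  simp only [G1, G]
  rw [← ha ((2 : Fin 6).insertNth ((0 : V6) 2) w)]
  congr 1
  rw [hins0, hins1]
  funext k
  simp only [aMap, Pi.add_apply, Pi.single_apply]
  fin_cases k
  · simp [T6, Matrix.mulVec, dotProduct, Fin.sum_univ_succ, Fin.insertNth, Fin.succAboveCases, L6]
    ring
  · simp [T6, Matrix.mulVec, dotProduct, Fin.sum_univ_succ, Fin.insertNth, Fin.succAboveCases, L6]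
    ring
  · simp [T6, Matrix.mulVec, dotProduct, Fin.sum_univ_succ, Fin.insertNth, Fin.succAboveCases, L6]
  · simp [T6, Matrix.mulVec, dotProduct, Fin.sum_univ_succ, Fin.insertNth, Fin.succAboveCases, L6]
  · simp [T6, Matrix.mulVec, dotProduct, Fin.sum_univ_succ, Fin.insertNth, Fin.succAboveCases, L6]
  · simp [T6, Matrix.mulVec, dotProduct, Fin.sum_univ_succ, Fin.insertNth, Fin.succAboveCases, L6]

/-- Stokes' theorem on the box for invariant vector fields. -/
lemma integral_div_eq (X : Fin 6 → V6 → ℝ) (hc : ∀ i, ContDiff ℝ 1 (X i))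
    (hper : ∀ i : Fin 6, i ≠ 2 → i ≠ 4 → ∀ u, X i (u + Pi.single i (L6 i)) = X i u)
    (hp20 : ∀ u, X 2 (u + Pi.single 0 3) = X 2 u) (hp21 : ∀ u, X 2 (u + Pi.single 1 3) = X 2 u)
    (ha : ∀ u, X 2 (aMap u) = X 2 u) :
    ∫ u in Icc (0 : V6) L6, ∑ i, D i (X i) u =
    (∫ x in Icc ((0 : V6) ∘ (4 : Fin 6).succAbove) (L6 ∘ (4 : Fin 6).succAbove),
      X 4 ((4 : Fin 6).insertNth (L6 4) x)) -
    ∫ x in Icc ((0 : V6) ∘ (4 : Fin 6).succAbove) (L6 ∘ (4 : Fin 6).succAbove),
      X 4 ((4 : Fin 6).insertNth ((0 : V6) 4) x) := by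
  have h := integral_divergence_of_hasFDerivAt_off_countable' (0 : V6) L6 L6_nonneg X
    (fun i u => fderiv ℝ (X i) u) ∅ Set.countable_empty
    (fun i => (hc i).continuous.continuousOn)
    (fun x _ i => ((hc i).differentiable (by norm_num) x).hasFDerivAt)
    (by
      apply ContinuousOn.integrableOn_compact isCompact_Icc
      apply Continuous.continuousOn
      refine continuous_finsetSum _ fun i _ => ?_
      exact ((hc i).continuous_fderiv (by norm_num)).clm_apply continuous_const)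
  have h0 : (∫ u in Icc (0 : V6) L6, ∑ i, D i (X i) u) = ∫ (x : V6) in Icc 0 L6, ∑ i,
      (fun i u => fderiv ℝ (X i) u) i x (Pi.single i 1) := rfl
  rw [h0, h]
  apply Finset.sum_eq_single_of_mem 4 (Finset.mem_univ _)
  intro i _ h4
  rw [sub_eq_zero]
  by_cases h2 : i = 2
  · subst h2
    exact face_two (X 2) (hc 2).continuous hp20 hp21 ha
  · refine setIntegral_congr_fun measurableSet_Icc fun x _ => ?_
    have : (i.insertNth (L6 i) x : V6) = i.insertNth ((0 : V6) i) x + Pi.single i (L6 i) := by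
      funext k
      rcases Fin.eq_self_or_eq_succAbove i k with rfl | ⟨l, rfl⟩
      · simp
      · simp
    rw [this, hper i h2 h4]

lemma integral_div_eq_zero (X : Fin 6 → V6 → ℝ) (hc : ∀ i, ContDiff ℝ 1 (X i))
    (hper : ∀ i : Fin 6, i ≠ 2 → i ≠ 4 → ∀ u, X i (u + Pi.single i (L6 i)) = X i u)
    (hp20 : ∀ u, X 2 (u + Pi.single 0 3) = X 2 u) (hp21 : ∀ u, X 2 (u + Pi.single 1 3) = X 2 u)
    (ha : ∀ u, X 2 (aMap u) = X 2 u)
    (hface : ∫ x in Icc ((0 : V6) ∘ (4 : Fin 6).succAbove) (L6 ∘ (4 : Fin 6).succAbove),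
      X 4 ((4 : Fin 6).insertNth (L6 4) x) =
    ∫ x in Icc ((0 : V6) ∘ (4 : Fin 6).succAbove) (L6 ∘ (4 : Fin 6).succAbove),
      X 4 ((4 : Fin 6).insertNth ((0 : V6) 4) x)) :
    ∫ u in Icc (0 : V6) L6, ∑ i, D i (X i) u = 0 := by
  rw [integral_div_eq X hc hper hp20 hp21 ha, hface, sub_self]

lemma stokes {Λ : V6 → V6} {g h : V6 → Mat6} (hΛ : Form1 Λ) (hg : Form2 g) (hh : Form2 h) :
    ∫ u in Icc (0 : V6) L6, W (dForm Λ u) (g u) (h u) = 0 := by
  have h1 : ∫ u in Icc (0 : V6) L6, ∑ i, D i (Vf Λ g h i) u = 0 := by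
    apply integral_div_eq_zero
    · exact fun i => Vf_contDiff hΛ.c1 hg.c1 hh.c1 i
    · exact fun i h2 h4 u => Vf_per hΛ hg hh i i h2 h4 u
    · intro u
      have := Vf_per hΛ hg hh 2 0 (by decide) (by decide) u
      simpa [L6] using this
    · intro u
      have := Vf_per hΛ hg hh 2 1 (by decide) (by decide) u
      simpa [L6] using this
    · exact Vf_two_invariant hΛ hg hh
    · refine setIntegral_congr_fun measurableSet_Icc fun x _ => ?_
      rw [Vf_pole hΛ hg hh, Vf_pole hΛ hg hh]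
      · left; simp
      · right; simp [L6]
  have h2 : ∀ u, ∑ i, D i (Vf Λ g h i) u = (1 / 2) * W (dForm Λ u) (g u) (h u) :=
    fun u => div_Vf hΛ.c1 hg hh u
  simp only [h2] at h1
  rw [integral_const_mul] at h1
  linarith

lemma W_continuous {f g h : V6 → Mat6} (hf : ∀ i j, Continuous (fun u => f u i j))
    (hg : ∀ i j, Continuous (fun u => g u i j)) (hh : ∀ i j, Continuous (fun u => h u i j)) :
    Continuous (fun u => W (f u) (g u) (h u)) := by
  unfold W
  exact continuous_finsetSum _ fun σ _ => continuous_const.mul (((hf _ _).mul (hg _ _)).mul (hh _ _))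

/-- the total volume does not change when an exact form is added -/
lemma volume_eq {Λ : V6 → V6} {f f' : V6 → Mat6} (hΛ : Form1 Λ) (hf : Form2 f) (hf' : Form2 f')
    (hd : ∀ u, f' u = f u + dForm Λ u) :
    ∫ u in Icc (0 : V6) L6, W (f' u) (f' u) (f' u) = ∫ u in Icc (0 : V6) L6, W (f u) (f u) (f u) := by
  have hcf := fun i j => (hf.c1 i j).continuous
  have hcf' := fun i j => (hf'.c1 i j).continuous
  have hcd : ∀ i j, Continuous (fun u => dForm Λ u i j) := by
    intro i j
    have : (fun u => dForm Λ u i j) = fun u => f' u i j - f u i j := by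
      funext u; rw [hd u]; simp
    rw [this]
    exact (hcf' i j).sub (hcf i j)
  have hI : ∀ {a b c : V6 → Mat6}, (∀ i j, Continuous (fun u => a u i j)) →
      (∀ i j, Continuous (fun u => b u i j)) → (∀ i j, Continuous (fun u => c u i j)) →
      IntegrableOn (fun u => W (a u) (b u) (c u)) (Icc (0 : V6) L6) volume := by
    intro a b c h1 h2 h3
    exact (W_continuous h1 h2 h3).continuousOn.integrableOn_compact isCompact_Icc
  rw [← sub_eq_zero, ← integral_sub (hI hcf' hcf' hcf') (hI hcf hcf hcf)]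
  have key : ∀ u, W (f' u) (f' u) (f' u) - W (f u) (f u) (f u) =
      W (dForm Λ u) (f u) (f u) + W (dForm Λ u) (f u) (f' u) + W (dForm Λ u) (f' u) (f' u) := by
    intro u
    rw [W_cube_sub]
    have : f' u - f u = dForm Λ u := by rw [hd u]; simp
    rw [this]
  simp only [key]
  have i1 := hI hcd hcf hcf
  have i2 := hI hcd hcf hcf'
  have i3 := hI hcd hcf' hcf'
  have i12 : IntegrableOn (fun u => W (dForm Λ u) (f u) (f u) + W (dForm Λ u) (f u) (f' u))
      (Icc (0 : V6) L6) volume := i1.add i2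
  rw [integral_add i12 i3, integral_add i1 i2, stokes hΛ hf hf, stokes hΛ hf hf',
    stokes hΛ hf' hf']
  simp

end Pool.Agent.H819R2
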