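import Mathlib

/-!
# The top wedge product of three bilinear forms on a six dimensional space
-/

open scoped BigOperators
open Finset Matrix

namespace Pool.Agent.H819R2

/-- index matrices -/
abbrev Mat6 : Type := Matrix (Fin 6) (Fin 6) ℝ

/-- The coefficient of `A ∧ B ∧ C` on the standard basis (up to a universal factor). -/
noncomputable def W (A B C : Mat6) : ℝ :=
  ∑ σ : Equiv.Perm (Fin 6), ((Equiv.Perm.sign σ : ℤ) : ℝ) *
    (A (σ 0) (σ 1) * B (σ 2) (σ 3) * C (σ 4) (σ 5))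

/-- The underlying multilinear map. -/
noncomputable def mW (A B C : Mat6) : MultilinearMap ℝ (fun _ : Fin 6 => (Fin 6 → ℝ)) ℝ where
  toFun v := (v 0 ⬝ᵥ A *ᵥ v 1) * (v 2 ⬝ᵥ B *ᵥ v 3) * (v 4 ⬝ᵥ C *ᵥ v 5)
  map_update_add' := by
    intro inst v i x y
    obtain rfl : inst = instDecidableEqFin 6 := Subsingleton.elim _ _
    fin_cases i <;> simp [Function.update, Matrix.mulVec_add, add_dotProduct, dotProduct_add] <;> ring
  map_update_smul' := by
    intro inst v i c x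
    obtain rfl : inst = instDecidableEqFin 6 := Subsingleton.elim _ _
    fin_cases i <;> simp [Function.update, Matrix.mulVec_smul, smul_dotProduct, dotProduct_smul] <;> ring

lemma alt_mW_apply (A B C : Mat6) (v : Fin 6 → (Fin 6 → ℝ)) :
    MultilinearMap.alternatization (mW A B C) v = ∑ σ : Equiv.Perm (Fin 6),
      ((Equiv.Perm.sign σ : ℤ) : ℝ) * ((v (σ 0) ⬝ᵥ A *ᵥ v (σ 1)) * (v (σ 2) ⬝ᵥ B *ᵥ v (σ 3)) *
        (v (σ 4) ⬝ᵥ C *ᵥ v (σ 5))) := by
  rw [MultilinearMap.alternatization_apply]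
  refine Finset.sum_congr rfl fun σ _ => ?_
  simp [mW, Units.smul_def, MultilinearMap.domDomCongr_apply]

lemma alt_mW_eq (A B C : Mat6) (v : Fin 6 → (Fin 6 → ℝ)) :
    MultilinearMap.alternatization (mW A B C) v = (Matrix.of v).det * W A B C := by
  have h := AlternatingMap.eq_smul_basis_det (Pi.basisFun ℝ (Fin 6))
    (MultilinearMap.alternatization (mW A B C))
  rw [h, AlternatingMap.smul_apply, smul_eq_mul, mul_comm]
  congr 1
  · rw [Module.Basis.det_apply]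
    rw [← Matrix.det_transpose]
    congr 1
  · rw [alt_mW_apply, W]
    refine Finset.sum_congr rfl fun σ _ => ?_
    simp

lemma W_conj (T A B C : Mat6) :
    W (T * A * Tᵀ) (T * B * Tᵀ) (T * C * Tᵀ) = T.det * W A B C := by
  have h := alt_mW_eq A B C (fun i => T i)
  have h2 : (Matrix.of fun i => T i) = T := rfl
  rw [h2] at h
  rw [← h, alt_mW_apply, W]
  refine Finset.sum_congr rfl fun σ _ => ?_
  have key : ∀ (M : Mat6) (i j : Fin 6), (T * M * Tᵀ) i j = T i ⬝ᵥ M *ᵥ T j := by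
    intro M i j
    rw [Matrix.mul_assoc, Matrix.mul_apply, dotProduct]
    refine Finset.sum_congr rfl fun k _ => ?_
    rw [Matrix.mul_apply, Matrix.mulVec, dotProduct]
    simp [Matrix.transpose_apply]
  rw [key, key, key]

/-- Exchanging the first two factors does not change the product. -/
lemma W_swap12 (A B C : Mat6) : W A B C = W B A C := by
  let c : Equiv.Perm (Fin 6) := Equiv.swap 0 2 * Equiv.swap 1 3
  have hc : Equiv.Perm.sign c = 1 := by decide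
  rw [W, W, ← Equiv.sum_comp (Equiv.mulRight c)]
  refine Finset.sum_congr rfl fun σ _ => ?_
  have h0 : c 0 = 2 := by decide
  have h1 : c 1 = 3 := by decide
  have h2 : c 2 = 0 := by decide
  have h3 : c 3 = 1 := by decide
  have h4 : c 4 = 4 := by decide
  have h5 : c 5 = 5 := by decide
  simp only [Equiv.coe_mulRight, Equiv.Perm.sign_mul, hc, mul_one, Equiv.Perm.mul_apply, h0, h1,
    h2, h3, h4, h5]
  ring

/-- Exchanging the last two factors does not change the product. -/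
lemma W_swap23 (A B C : Mat6) : W A B C = W A C B := by
  let c : Equiv.Perm (Fin 6) := Equiv.swap 2 4 * Equiv.swap 3 5
  have hc : Equiv.Perm.sign c = 1 := by decide
  rw [W, W, ← Equiv.sum_comp (Equiv.mulRight c)]
  refine Finset.sum_congr rfl fun σ _ => ?_
  have h0 : c 0 = 0 := by decide
  have h1 : c 1 = 1 := by decide
  have h2 : c 2 = 4 := by decide
  have h3 : c 3 = 5 := by decide
  have h4 : c 4 = 2 := by decide
  have h5 : c 5 = 3 := by decide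
  simp only [Equiv.coe_mulRight, Equiv.Perm.sign_mul, hc, mul_one, Equiv.Perm.mul_apply, h0, h1,
    h2, h3, h4, h5]
  ring

lemma W_add_left (A A' B C : Mat6) : W (A + A') B C = W A B C + W A' B C := by
  simp only [W, ← Finset.sum_add_distrib]
  refine Finset.sum_congr rfl fun σ _ => ?_
  simp only [Matrix.add_apply]; ring

lemma W_sub_left (A A' B C : Mat6) : W (A - A') B C = W A B C - W A' B C := by
  simp only [W, ← Finset.sum_sub_distrib]
  refine Finset.sum_congr rfl fun σ _ => ?_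
  simp only [Matrix.sub_apply]; ring

lemma W_cube_sub (F G : Mat6) :
    W G G G - W F F F = W (G - F) F F + W (G - F) F G + W (G - F) G G := by
  rw [W_sub_left, W_sub_left, W_sub_left, W_swap12 G F F, W_swap23 F G F, W_swap12 G F G]
  ring

/-- The standard symplectic matrix (pairs `01`, `23`, `45`). -/
def J6 : Matrix (Fin 6) (Fin 6) ℤ := fun i j =>
  if (i = 0 ∧ j = 1) ∨ (i = 2 ∧ j = 3) ∨ (i = 4 ∧ j = 5) then 1 else
  if (i = 1 ∧ j = 0) ∨ (i = 3 ∧ j = 2) ∨ (i = 5 ∧ j = 4) then -1 else 0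

lemma W_J6_int : (∑ σ : Equiv.Perm (Fin 6), ((Equiv.Perm.sign σ : ℤ)) *
    (J6 (σ 0) (σ 1) * J6 (σ 2) (σ 3) * J6 (σ 4) (σ 5))) = 48 := by
  decide +kernel

/-- fewer than six linear conditions have a common nonzero solution -/
lemma exists_perp {k : ℕ} (hk : k < 6) (B : Mat6) (w : Fin k → (Fin 6 → ℝ)) :
    ∃ v : Fin 6 → ℝ, v ≠ 0 ∧ ∀ i, v ⬝ᵥ B *ᵥ w i = 0 := by
  let L : (Fin 6 → ℝ) →ₗ[ℝ] (Fin k → ℝ) :=
    { toFun := fun v i => v ⬝ᵥ B *ᵥ w i
      map_add' := by intro x y; funext i; simp [add_dotProduct]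
      map_smul' := by intro c x; funext i; simp [smul_dotProduct] }
  have h := LinearMap.ker_ne_bot_of_finrank_lt (f := L) (by simpa using hk)
  obtain ⟨v, hv, hv0⟩ := (Submodule.ne_bot_iff _).mp h
  exact ⟨v, hv0, fun i => congrFun (LinearMap.mem_ker.mp hv) i⟩

lemma W_ne_zero (B : Mat6) (hanti : Bᵀ = -B)
    (hnd : ∀ v : Fin 6 → ℝ, (∀ w, v ⬝ᵥ B *ᵥ w = 0) → v = 0) : W B B B ≠ 0 := by
  have hskew : ∀ v w : Fin 6 → ℝ, v ⬝ᵥ B *ᵥ w = - (w ⬝ᵥ B *ᵥ v) := by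
    intro v w
    rw [Matrix.dotProduct_mulVec, ← Matrix.mulVec_transpose, hanti, Matrix.neg_mulVec,
      neg_dotProduct, dotProduct_comm]
  have hself : ∀ v : Fin 6 → ℝ, v ⬝ᵥ B *ᵥ v = 0 := by
    intro v; have := hskew v v; linarith
  have hpair : ∀ v : Fin 6 → ℝ, v ≠ 0 → ∃ w, v ⬝ᵥ B *ᵥ w = 1 := by
    intro v hv
    by_contra hcon
    push Not at hcon
    apply hv
    apply hnd
    intro w
    by_contra hw
    apply hcon ((v ⬝ᵥ B *ᵥ w)⁻¹ • w)
    rw [Matrix.mulVec_smul, dotProduct_smul, smul_eq_mul]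
    exact inv_mul_cancel₀ hw
  obtain ⟨e1, he1, -⟩ := exists_perp (k := 0) (by norm_num) B (fun i => i.elim0)
  obtain ⟨f1, hf1⟩ := hpair e1 he1
  obtain ⟨e2, he2, hp2⟩ := exists_perp (k := 2) (by norm_num) B ![e1, f1]
  have h21 : e2 ⬝ᵥ B *ᵥ e1 = 0 := hp2 0
  have h2f : e2 ⬝ᵥ B *ᵥ f1 = 0 := hp2 1
  obtain ⟨g2, hg2⟩ := hpair e2 he2
  obtain ⟨f2, hf2a, hf2b, hf2c⟩ : ∃ f2 : Fin 6 → ℝ, e1 ⬝ᵥ B *ᵥ f2 = 0 ∧ f1 ⬝ᵥ B *ᵥ f2 = 0 ∧
      e2 ⬝ᵥ B *ᵥ f2 = 1 := by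
    refine ⟨g2 - (e1 ⬝ᵥ B *ᵥ g2) • f1 + (f1 ⬝ᵥ B *ᵥ g2) • e1, ?_, ?_, ?_⟩
    · simp only [Matrix.mulVec_add, Matrix.mulVec_sub, Matrix.mulVec_smul, dotProduct_add,
        dotProduct_sub, dotProduct_smul, hself, hf1, smul_eq_mul]; ring
    · simp only [Matrix.mulVec_add, Matrix.mulVec_sub, Matrix.mulVec_smul, dotProduct_add,
        dotProduct_sub, dotProduct_smul, hself, hskew f1 e1, hf1, smul_eq_mul]; ring
    · simp only [Matrix.mulVec_add, Matrix.mulVec_sub, Matrix.mulVec_smul, dotProduct_add,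
        dotProduct_sub, dotProduct_smul, hg2, h21, h2f, smul_eq_mul]; ring
  obtain ⟨e3, he3, hp3⟩ := exists_perp (k := 4) (by norm_num) B ![e1, f1, e2, f2]
  have h31 : e3 ⬝ᵥ B *ᵥ e1 = 0 := hp3 0
  have h3f : e3 ⬝ᵥ B *ᵥ f1 = 0 := hp3 1
  have h32 : e3 ⬝ᵥ B *ᵥ e2 = 0 := hp3 2
  have h3g : e3 ⬝ᵥ B *ᵥ f2 = 0 := hp3 3
  obtain ⟨g3, hg3⟩ := hpair e3 he3
  obtain ⟨f3, hf3a, hf3b, hf3c, hf3d, hf3e⟩ : ∃ f3 : Fin 6 → ℝ, e1 ⬝ᵥ B *ᵥ f3 = 0 ∧
      f1 ⬝ᵥ B *ᵥ f3 = 0 ∧ e2 ⬝ᵥ B *ᵥ f3 = 0 ∧ f2 ⬝ᵥ B *ᵥ f3 = 0 ∧ e3 ⬝ᵥ B *ᵥ f3 = 1 := by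
    have a1 : e1 ⬝ᵥ B *ᵥ e2 = 0 := by rw [hskew, h21, neg_zero]
    have a2 : f1 ⬝ᵥ B *ᵥ e2 = 0 := by rw [hskew, h2f, neg_zero]
    have a3 : f2 ⬝ᵥ B *ᵥ e1 = 0 := by rw [hskew, hf2a, neg_zero]
    have a4 : f2 ⬝ᵥ B *ᵥ f1 = 0 := by rw [hskew, hf2b, neg_zero]
    refine ⟨g3 - (e1 ⬝ᵥ B *ᵥ g3) • f1 + (f1 ⬝ᵥ B *ᵥ g3) • e1 - (e2 ⬝ᵥ B *ᵥ g3) • f2
      + (f2 ⬝ᵥ B *ᵥ g3) • e2, ?_, ?_, ?_, ?_, ?_⟩
    · simp only [Matrix.mulVec_add, Matrix.mulVec_sub, Matrix.mulVec_smul, dotProduct_add,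
        dotProduct_sub, dotProduct_smul, hself, hf1, hf2a, a1, smul_eq_mul]; ring
    · simp only [Matrix.mulVec_add, Matrix.mulVec_sub, Matrix.mulVec_smul, dotProduct_add,
        dotProduct_sub, dotProduct_smul, hself, hskew f1 e1, hf1, hf2b, a2, smul_eq_mul]; ring
    · simp only [Matrix.mulVec_add, Matrix.mulVec_sub, Matrix.mulVec_smul, dotProduct_add,
        dotProduct_sub, dotProduct_smul, hself, h21, h2f, hf2c, smul_eq_mul]; ring
    · simp only [Matrix.mulVec_add, Matrix.mulVec_sub, Matrix.mulVec_smul, dotProduct_add,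
        dotProduct_sub, dotProduct_smul, hself, a3, a4, hskew f2 e2, hf2c, smul_eq_mul]; ring
    · simp only [Matrix.mulVec_add, Matrix.mulVec_sub, Matrix.mulVec_smul, dotProduct_add,
        dotProduct_sub, dotProduct_smul, hg3, h31, h3f, h32, h3g, smul_eq_mul]; ring
  let v : Fin 6 → (Fin 6 → ℝ) := ![e1, f1, e2, f2, e3, f3]
  have hv : ∀ i j, v i ⬝ᵥ B *ᵥ v j = ((J6 i j : ℤ) : ℝ) := by
    intro i j
    fin_cases i <;> fin_cases j <;> simp [v, J6, hself, hf1, h21, h2f, hf2a, hf2b, hf2c, h31, h3f,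
      h32, h3g, hf3a, hf3b, hf3c, hf3d, hf3e, hskew f1 e1, hskew e1 e2, hskew f1 e2, hskew f2 e1,
      hskew f2 f1, hskew f2 e2, hskew e1 e3, hskew f1 e3, hskew e2 e3, hskew f2 e3, hskew f3 e1,
      hskew f3 f1, hskew f3 e2, hskew f3 f2, hskew f3 e3]
  have h1 := alt_mW_eq B B B v
  have h2 : MultilinearMap.alternatization (mW B B B) v = 48 := by
    rw [alt_mW_apply]
    have := W_J6_int
    have h3 := congrArg (fun z : ℤ => (z : ℝ)) this
    simp only [Int.cast_sum, Int.cast_mul] at h3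
    rw [show ((48 : ℤ) : ℝ) = 48 by norm_num] at h3
    rw [← h3]
    refine Finset.sum_congr rfl fun σ _ => ?_
    simp only [hv]
  intro h0
  rw [h0, mul_zero, h2] at h1
  norm_num at h1

end Pool.Agent.H819R2
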